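import Pool.Agent.V8H21.QB.Fin
import Pool.Agent.V8H21.SQ.Dens4

set_option autoImplicit false

/-! The sharp constant for sparse sets of arguments. -/

namespace Pool.Agent.V8H21.QB

open Finset
open Pool.Agent.H373R2.T7 (lamz Vz pz Vz_pos Vz_inv_small mem_pz lamz_nonneg ev_log' ev_L' Vz_le_one)
open Pool.Agent.V8H21.SQ (Gm Gm_pos mert Wp Wp_pos dvd_Wp card_T)

/-- the choice of the parameter -/
lemma choose_z {e : ℝ} (he : 0 < e) (he1 : e ≤ 1) (K : ℕ) : ∃ l0 : ℝ, 1 < l0 ∧ ∀ l : ℝ, l0 ≤ l → ∃ z : ℕ, K ≤ z ∧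
    K * (1 + l) * Real.log z ≤ z ∧ (z : ℝ) ≤ 2 * (1 + l) ^ 2 ∧ (1 - 7 * e) / (Gm * Real.log l) ≤ Vz z ∧ 0 < Real.log l := by
  obtain ⟨w0, hw0, hM⟩ := mert he
  have h1 := (isLittleO_log_rpow_atTop he).bound (show (0 : ℝ) < 1 / (3 * K + 1) by positivity)
  obtain ⟨s0, hs0⟩ := Filter.eventually_atTop.1 h1
  obtain ⟨q, hq⟩ : ∃ q, q = Real.exp (1 / e + 1) := ⟨_, rfl⟩
  have hq0 : 0 < q := by rw [hq]; exact Real.exp_pos _
  refine ⟨2 + |s0| + K + w0 + q, by
    have : (0 : ℝ) ≤ K := Nat.cast_nonneg _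
    have : (0 : ℝ) ≤ w0 := Nat.cast_nonneg _
    have := abs_nonneg s0
    linarith, fun l hl => ?_⟩
  have hK0 : (0 : ℝ) ≤ K := Nat.cast_nonneg _
  have hw00 : (0 : ℝ) ≤ w0 := Nat.cast_nonneg _
  have hs00 := abs_nonneg s0
  have hs01 := le_abs_self s0
  have hl2 : 2 ≤ l := by linarith
  obtain ⟨s, hs⟩ : ∃ s, s = 1 + l := ⟨_, rfl⟩
  have hs3 : 3 ≤ s := by linarith
  have hsl : 1 / e + 1 ≤ Real.log l := by
    rw [Real.le_log_iff_exp_le (by linarith), ← hq]
    linarith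
  have hlogl : 0 < Real.log l := by
    have : 0 < 1 / e := by positivity
    linarith
  have hlogl1 : 1 ≤ Real.log l := by
    have : 0 < 1 / e := by positivity
    linarith
  have hel : 1 ≤ e * Real.log l := by
    have h2 : e * (1 / e + 1) ≤ e * Real.log l := mul_le_mul_of_nonneg_left hsl he.le
    have h3 : e * (1 / e + 1) = 1 + e := by field_simp
    linarith
  have a1 := hs0 s (by linarith)
  have hlogs : 0 < Real.log s := Real.log_pos (by linarith)
  rw [Real.norm_of_nonneg hlogs.le, Real.norm_of_nonneg (by positivity)] at a1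
  obtain ⟨R, hR⟩ : ∃ R, R = s ^ (1 + e) := ⟨_, rfl⟩
  have hRs : s ≤ R := by
    rw [hR]
    calc s = s ^ (1 : ℝ) := (Real.rpow_one s).symm
      _ ≤ s ^ (1 + e) := Real.rpow_le_rpow_of_exponent_le (by linarith) (by linarith)
  have hRs2 : R ≤ s ^ 2 := by
    rw [hR]
    calc s ^ (1 + e) ≤ s ^ (2 : ℝ) := Real.rpow_le_rpow_of_exponent_le (by linarith) (by linarith)
      _ = s ^ 2 := by norm_num
  have hRe : R = s * s ^ e := by
    rw [hR, Real.rpow_add (by linarith), Real.rpow_one]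
  obtain ⟨z, hz⟩ : ∃ z : ℕ, z = ⌈R⌉₊ := ⟨_, rfl⟩
  have hz1 : R ≤ z := by rw [hz]; exact Nat.le_ceil R
  have hz2 : (z : ℝ) < R + 1 := by rw [hz]; exact Nat.ceil_lt_add_one (by linarith)
  have hz3 : (z : ℝ) ≤ 2 * R := by linarith
  have hz0 : (0 : ℝ) < z := by linarith
  have hlog2 : Real.log 2 < 1 := by
    have := Real.log_two_lt_d9
    linarith
  have hlogz : Real.log z ≤ Real.log 2 + (1 + e) * Real.log s := by
    have h2 : Real.log z ≤ Real.log (2 * R) := Real.log_le_log hz0 hz3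
    rw [Real.log_mul (by norm_num) (by linarith), hR, Real.log_rpow (by linarith)] at h2
    exact h2
  have hlogs1 : 1 ≤ Real.log s := by
    have : Real.log l ≤ Real.log s := Real.log_le_log (by linarith) (by linarith)
    linarith
  have hlogz3 : Real.log z ≤ 3 * Real.log s := by nlinarith
  refine ⟨z, ?_, ?_, ?_, ?_, hlogl⟩
  · have : (K : ℝ) ≤ z := by linarith
    exact_mod_cast this
  · rw [← hs]
    have h2 : 3 * K * Real.log s ≤ s ^ e := by
      have h3 : 3 * K * Real.log s ≤ (3 * K + 1) * (1 / (3 * K + 1) * s ^ e) := by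
        calc 3 * K * Real.log s ≤ (3 * K + 1) * Real.log s := by
              apply mul_le_mul_of_nonneg_right _ hlogs.le
              linarith
          _ ≤ _ := mul_le_mul_of_nonneg_left a1 (by positivity)
      have h4 : (3 * (K : ℝ) + 1) * (1 / (3 * K + 1) * s ^ e) = s ^ e := by field_simp
      linarith
    calc (K : ℝ) * s * Real.log z ≤ K * s * (3 * Real.log s) := by
          apply mul_le_mul_of_nonneg_left hlogz3
          positivity
      _ = s * (3 * K * Real.log s) := by ring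
      _ ≤ s * s ^ e := mul_le_mul_of_nonneg_left h2 (by linarith)
      _ = R := hRe.symm
      _ ≤ z := hz1
  · rw [← hs]
    linarith
  · have h5 : w0 ≤ z := by
      have : (w0 : ℝ) ≤ z := by linarith
      exact_mod_cast this
    obtain ⟨-, h6⟩ := hM z h5
    have hG := Gm_pos
    have hV := Vz_pos z
    -- the logarithm
    have h7 : Real.log s ≤ Real.log l + 1 := by
      have h8 : s ≤ 2 * l := by linarith
      have h9 := Real.log_le_log (by linarith) h8
      rw [Real.log_mul (by norm_num) (by linarith)] at h9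
      linarith
    have h10 : Real.log z ≤ (1 + 4 * e) * Real.log l := by
      have h11 : (1 + e) * Real.log s ≤ (1 + e) * (Real.log l + 1) := mul_le_mul_of_nonneg_left h7 (by linarith)
      nlinarith
    have h12 : (Vz z)⁻¹ ≤ (1 + e) * (Gm * ((1 + 4 * e) * Real.log l)) := by
      refine h6.trans ?_
      gcongr
    rw [div_le_iff₀ (by positivity)]
    have h13 := mul_le_mul_of_nonneg_left h12 hV.le
    rw [mul_inv_cancel₀ hV.ne'] at h13
    have h14 : 0 < Vz z * (Gm * Real.log l) := by positivity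
    have h15 : (1 + e) * (1 + 4 * e) * (1 - 7 * e) ≤ 1 := by nlinarith [mul_pos he he, mul_pos (mul_pos he he) he]
    by_cases h16 : 1 - 7 * e ≤ 0
    · linarith
    · rw [not_le] at h16
      have h17 : 1 ≤ (1 + e) * (1 + 4 * e) * (Vz z * (Gm * Real.log l)) := by
        calc (1 : ℝ) ≤ Vz z * ((1 + e) * (Gm * ((1 + 4 * e) * Real.log l))) := h13
          _ = _ := by ring
      have h18 : (1 - 7 * e) * 1 ≤ (1 - 7 * e) * ((1 + e) * (1 + 4 * e) * (Vz z * (Gm * Real.log l))) :=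
        mul_le_mul_of_nonneg_left h17 h16.le
      have h19 : (1 - 7 * e) * ((1 + e) * (1 + 4 * e) * (Vz z * (Gm * Real.log l))) ≤ 1 * (Vz z * (Gm * Real.log l)) := by
        calc _ = ((1 + e) * (1 + 4 * e) * (1 - 7 * e)) * (Vz z * (Gm * Real.log l)) := by ring
          _ ≤ _ := mul_le_mul_of_nonneg_right h15 h14.le
      linarith

/-- **the sharp lower bound** -/
theorem thmC2 (E : ℕ) {ε : ℝ} (hε : 0 < ε) : ∃ K H0 : ℕ, ∃ δ₀ : ℝ, 0 < δ₀ ∧ δ₀ < Real.exp (-1) ∧ ∀ H : ℕ, H0 ≤ H → ∀ a B C : ℕ,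
    (a : ℝ) ≤ H * Real.log H ^ E → (B : ℝ) ≤ H * Real.log H ^ E → (C : ℝ) ≤ H * Real.log H ^ E →
    ∀ u Y : ℕ, ((u + Y : ℕ) : ℝ) ≤ Real.log H ^ E → ∀ T ⊆ Ioc u (u + Y), K * Real.log H ≤ T.card →
    (T.card : ℝ) ≤ δ₀ * Y →
    (1 - ε) / (Gm * Real.log (Real.log ((Y : ℝ) / T.card))) * (H : ℝ) ^ 2 ≤ ((hits a B C H T).card : ℝ) := by
  obtain ⟨e, he⟩ : ∃ e, e = min ε 1 / 14 := ⟨_, rfl⟩
  have he0 : 0 < e := by
    rw [he]
    have : 0 < min ε 1 := lt_min hε one_pos
    positivity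
  have heε : 14 * e ≤ ε := by rw [he]; have := min_le_left ε 1; linarith
  have he1 : 14 * e ≤ 1 := by rw [he]; have := min_le_right ε 1; linarith
  obtain ⟨K, N1, hK, h1⟩ := thmC E he0 (by linarith)
  obtain ⟨l0, hl0, h2⟩ := choose_z he0 (by linarith) K
  obtain ⟨N2, h3⟩ := ev_L' 3
  obtain ⟨N3, h4⟩ := ev_ll (c := 1) one_pos
  -- `2 (1 + E log log H)² ≤ log H`
  obtain ⟨N4, h5⟩ : ∃ N4 : ℕ, ∀ H : ℕ, N4 ≤ H → 2 * (1 + E * Real.log (Real.log H)) ^ 2 ≤ Real.log H := by
    have k1 : Filter.Tendsto (fun H : ℕ => Real.log (H : ℝ)) Filter.atTop Filter.atTop :=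
      Real.tendsto_log_atTop.comp (tendsto_natCast_atTop_atTop (R := ℝ))
    have k2 := (Real.isLittleO_pow_log_id_atTop (n := 2)).bound (show (0 : ℝ) < 1 / (2 * (1 + E) ^ 2) by positivity)
    have k3 := k1.eventually (k2.and (Filter.eventually_ge_atTop (Real.exp 1)))
    obtain ⟨N4, k4⟩ := Filter.eventually_atTop.1 k3
    refine ⟨N4, fun H hH => ?_⟩
    obtain ⟨k5, k6⟩ := k4 H hH
    have k7 : 1 ≤ Real.log (Real.log H) := by
      rw [Real.le_log_iff_exp_le (lt_of_lt_of_le (Real.exp_pos _) k6)]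
      exact k6
    have k8 : 0 < Real.log (H : ℝ) := lt_of_lt_of_le (Real.exp_pos _) k6
    simp only [id] at k5
    rw [Real.norm_of_nonneg (by positivity), Real.norm_of_nonneg k8.le] at k5
    have k9 : 1 + E * Real.log (Real.log H) ≤ (1 + E) * Real.log (Real.log H) := by nlinarith [(Nat.cast_nonneg E : (0 : ℝ) ≤ E)]
    calc 2 * (1 + E * Real.log (Real.log H)) ^ 2 ≤ 2 * ((1 + E) * Real.log (Real.log H)) ^ 2 := by
          have : (0 : ℝ) ≤ 1 + E * Real.log (Real.log H) := by positivity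
          gcongr
      _ = (2 * (1 + E) ^ 2) * Real.log (Real.log H) ^ 2 := by ring
      _ ≤ (2 * (1 + E) ^ 2) * (1 / (2 * (1 + E) ^ 2) * Real.log H) := mul_le_mul_of_nonneg_left k5 (by positivity)
      _ = Real.log H := by field_simp
  refine ⟨K, N1 + N2 + N3 + N4, Real.exp (-l0), Real.exp_pos _, Real.exp_lt_exp.2 (by linarith),
    fun H hH a B C ha hB hC u Y hY T hT hTc hTδ => ?_⟩
  have c3 := h3 H (by omega)
  have c5 := h5 H (by omega)
  obtain ⟨L, hL⟩ : ∃ L, L = Real.log (H : ℝ) := ⟨_, rfl⟩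
  have hTc' := hTc
  rw [← hL] at c3 c5 hTc'
  have hK0 : (2 : ℝ) ≤ K := by exact_mod_cast hK
  have hT1 : (1 : ℝ) ≤ T.card := by nlinarith
  have hT0 : (0 : ℝ) < T.card := by linarith
  have hYT : (T.card : ℝ) ≤ Y := by
    have := card_le_card hT
    rw [Nat.card_Ioc, Nat.add_sub_cancel_left] at this
    exact_mod_cast this
  have hY0 : (0 : ℝ) < Y := by linarith
  obtain ⟨l, hl⟩ : ∃ l, l = Real.log ((Y : ℝ) / T.card) := ⟨_, rfl⟩
  have hll0 : l0 ≤ l := by
    rw [hl, Real.le_log_iff_exp_le (by positivity), le_div_iff₀ hT0]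
    calc Real.exp l0 * T.card ≤ Real.exp l0 * (Real.exp (-l0) * Y) := mul_le_mul_of_nonneg_left hTδ (Real.exp_pos _).le
      _ = Y := by rw [← mul_assoc, ← Real.exp_add, add_neg_cancel, Real.exp_zero, one_mul]
  obtain ⟨z, z1, z2, z3, z4, z5⟩ := h2 l hll0
  have hYE : (Y : ℝ) ≤ L ^ E := by
    rw [hL]
    refine le_trans ?_ hY
    push_cast
    have : (0 : ℝ) ≤ u := Nat.cast_nonneg _
    linarith
  have hlE : l ≤ E * Real.log L := by
    rw [hl]
    have k1 : (Y : ℝ) / T.card ≤ L ^ E := (div_le_self hY0.le hT1).trans hYE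
    have k2 := Real.log_le_log (by positivity) k1
    rwa [Real.log_pow] at k2
  have hE1 : 1 ≤ E := by
    by_contra hcon
    have : E = 0 := by omega
    rw [this, pow_zero] at hYE
    nlinarith
  have hzL : (z : ℝ) ≤ L := by
    refine z3.trans (le_trans ?_ c5)
    have : 0 ≤ 1 + l := by linarith
    gcongr
  have hzE : (z : ℝ) ≤ Real.log H ^ E := by
    rw [← hL]
    exact hzL.trans (le_self_pow₀ (by linarith) (by omega))
  have key := h1 H (by omega) a B C ha hB hC u Y hY T hT hTc z z1 hzE (by rw [← hl]; exact z2)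
  rw [← hl]
  refine le_trans ?_ key
  apply mul_le_mul_of_nonneg_right _ (by positivity)
  have hG := Gm_pos
  have hGl : 0 < Gm * Real.log l := by positivity
  calc (1 - ε) / (Gm * Real.log l) ≤ ((1 - e) * (1 - 7 * e)) / (Gm * Real.log l) := by
        apply div_le_div_of_nonneg_right _ hGl.le
        nlinarith
    _ = (1 - e) * ((1 - 7 * e) / (Gm * Real.log l)) := by ring
    _ ≤ (1 - e) * Vz z := mul_le_mul_of_nonneg_left z4 (by linarith)

/-- primorials and densities -/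
theorem opt_w {ε : ℝ} (hε : 0 < ε) : ∃ δ₀ : ℝ, 0 < δ₀ ∧ δ₀ < Real.exp (-1) ∧ ∀ δ : ℝ, 0 < δ → δ ≤ δ₀ →
    ∃ w : ℕ, 2 ≤ w ∧ 2 * δ * Wp w ≤ 1 ∧ Vz w ≤ (1 + ε / 2) / (Gm * Real.log (Real.log (1 / δ))) ∧
      0 < Real.log (Real.log (1 / δ)) := by
  classical
  have hG := Gm_pos
  obtain ⟨e, he⟩ : ∃ e, e = min ε 1 / 8 := ⟨_, rfl⟩
  have he0 : 0 < e := by
    rw [he]
    have : 0 < min ε 1 := lt_min hε one_pos
    positivity
  have heε : 8 * e ≤ ε := by rw [he]; have := min_le_left ε 1; linarith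
  have he1 : e ≤ 1 / 8 := by rw [he]; have := min_le_right ε 1; linarith
  obtain ⟨w0, hw02, hw0⟩ := mert he0
  -- `T = log (1/δ)` is large
  have hl4 : 0 < Real.log 4 := Real.log_pos (by norm_num)
  have hl42 : Real.log 4 < 2 := by
    have h1 : Real.log 4 = 2 * Real.log 2 := by
      have : (4 : ℝ) = 2 ^ 2 := by norm_num
      rw [this, Real.log_pow]
      norm_num
    rw [h1]
    have := Real.log_two_lt_d9
    linarith
  set T0 : ℝ := 4 * w0 + 16 + Real.exp (Real.log 4 / e) with hT0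
  have hT0b : (0 : ℝ) < Real.exp (Real.log 4 / e) := Real.exp_pos _
  have hw00 : (2 : ℝ) ≤ w0 := by exact_mod_cast hw02
  refine ⟨Real.exp (-T0), Real.exp_pos _, Real.exp_lt_exp.2 (by linarith), fun δ hδ hδ0 => ?_⟩
  obtain ⟨T, hT⟩ : ∃ T, T = Real.log (1 / δ) := ⟨_, rfl⟩
  have hTT0 : T0 ≤ T := by
    rw [hT, one_div, Real.log_inv]
    have := Real.log_le_log hδ hδ0
    rw [Real.log_exp] at this
    linarith
  have hδT : δ = Real.exp (-T) := by
    rw [hT, one_div, Real.log_inv, neg_neg, Real.exp_log hδ]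
  have hT00 : 0 < T := by linarith
  set w : ℕ := ⌊(T - 1) / Real.log 4⌋₊ with hw
  have hwle : (w : ℝ) ≤ (T - 1) / Real.log 4 := Nat.floor_le (by
    apply div_nonneg _ hl4.le
    linarith)
  have hwge : T / 4 ≤ w := by
    have h1 : (T - 1) / Real.log 4 < w + 1 := Nat.lt_floor_add_one _
    have h2 : (T - 1) / 2 ≤ (T - 1) / Real.log 4 := by
      apply div_le_div_of_nonneg_left (by linarith) hl4 hl42.le
    linarith
  have hw0n : w0 ≤ w := by
    have : (w0 : ℝ) ≤ w := by linarith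
    exact_mod_cast this
  have hw2 : 2 ≤ w := hw02.trans hw0n
  have hlogw : (1 - e) * Real.log T ≤ Real.log w := by
    have h1 : Real.log (T / 4) ≤ Real.log w := Real.log_le_log (by positivity) hwge
    rw [Real.log_div hT00.ne' (by norm_num)] at h1
    have h2 : Real.log 4 / e ≤ Real.log T := by
      rw [Real.le_log_iff_exp_le hT00]
      linarith
    rw [div_le_iff₀ he0] at h2
    linarith
  have hlogT : 0 < Real.log T := Real.log_pos (by linarith)
  -- the set
  set W := Wp w with hW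
  have hW1 : 1 ≤ W := Wp_pos w
  have hWup : 2 * δ * W ≤ 1 := by
    have h1 : W ≤ 4 ^ w := by
      have h2 : W = primorial w := by
        rw [hW]
        unfold Wp primorial pz
        apply prod_congr _ fun _ _ => rfl
        ext p
        rw [mem_filter, mem_filter, mem_Icc, mem_range]
        constructor
        · rintro ⟨⟨-, h3⟩, h4⟩
          exact ⟨by omega, h4⟩
        · rintro ⟨h3, h4⟩
          exact ⟨⟨h4.one_lt.le, by omega⟩, h4⟩
      rw [h2]
      exact primorial_le_four_pow w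
    have h3 : (W : ℝ) ≤ Real.exp (T - 1) := by
      calc (W : ℝ) ≤ (4 : ℝ) ^ w := by exact_mod_cast h1
        _ = Real.exp (w * Real.log 4) := by rw [Real.exp_nat_mul, Real.exp_log (by norm_num)]
        _ ≤ Real.exp (T - 1) := by
            apply Real.exp_le_exp.2
            rwa [← le_div_iff₀ hl4]
    calc 2 * δ * W ≤ 2 * δ * Real.exp (T - 1) := by gcongr
      _ = 2 * Real.exp (-1) := by
          rw [hδT, mul_assoc, ← Real.exp_add]
          congr 2
          ring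
      _ ≤ 1 := by
          rw [Real.exp_neg]
          have := Real.exp_one_gt_d9
          rw [← div_eq_mul_inv, div_le_one (by linarith)]
          linarith
  obtain ⟨hVlow, -⟩ := hw0 w hw0n
  have hV0 := Vz_pos w
  have hVup : Vz w ≤ (1 + 4 * e) / (Gm * Real.log T) := by
    rw [le_div_iff₀ (by positivity)]
    have h1 : (1 - e) * (Gm * ((1 - e) * Real.log T)) ≤ (Vz w)⁻¹ := by
      refine le_trans ?_ hVlow
      apply mul_le_mul_of_nonneg_left _ (by linarith)
      exact mul_le_mul_of_nonneg_left hlogw hG.le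
    have h2 := mul_le_mul_of_nonneg_left h1 hV0.le
    rw [mul_inv_cancel₀ hV0.ne'] at h2
    have h3 : 0 ≤ Vz w * (Gm * Real.log T) := by positivity
    have h4 : 1 ≤ (1 + 4 * e) * ((1 - e) * (1 - e)) := by
      have : (1 + 4 * e) * ((1 - e) * (1 - e)) = 1 + e * (2 - 7 * e) + 4 * e ^ 3 := by ring
      rw [this]
      have h5 : 0 ≤ e * (2 - 7 * e) := mul_nonneg he0.le (by linarith)
      have h6 : 0 ≤ 4 * e ^ 3 := by positivity
      linarith
    have h7 : Vz w * (Gm * Real.log T) ≤ (1 + 4 * e) * (Vz w * ((1 - e) * (Gm * ((1 - e) * Real.log T)))) := by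
      have := mul_le_mul_of_nonneg_right h4 h3
      calc Vz w * (Gm * Real.log T) = 1 * (Vz w * (Gm * Real.log T)) := (one_mul _).symm
        _ ≤ _ := this
        _ = _ := by ring
    have h8 := mul_le_mul_of_nonneg_left h2 (by linarith : 0 ≤ 1 + 4 * e)
    linarith
  refine ⟨w, hw2, hWup, ?_, by rw [← hT]; exact hlogT⟩
  refine hVup.trans ?_
  rw [← hT]
  apply div_le_div_of_nonneg_right _ (by positivity)
  linarith

/-- **the constant is optimal** -/
theorem thmD {ε : ℝ} (hε : 0 < ε) : ∃ δ₀ : ℝ, 0 < δ₀ ∧ δ₀ < Real.exp (-1) ∧ ∀ δ : ℝ, 0 < δ → δ ≤ δ₀ →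
    ∃ W H0 Y0 : ℕ, 1 ≤ W ∧ (∀ Y : ℕ, Y0 ≤ Y → δ * Y ≤ (((Icc 1 Y).filter (fun t => W ∣ t)).card : ℝ)) ∧
      ∀ H : ℕ, H0 ≤ H → ∀ a B C Y : ℕ, ((hits a B C H ((Icc 1 Y).filter (fun t => W ∣ t))).card : ℝ) ≤
        (1 + ε) / (Gm * Real.log (Real.log (1 / δ))) * (H : ℝ) ^ 2 := by
  classical
  obtain ⟨δ₀, h1, h2, h3⟩ := opt_w hε
  refine ⟨δ₀, h1, h2, fun δ hδ hδ0 => ?_⟩
  obtain ⟨w, hw2, hW, hV, hl⟩ := h3 δ hδ hδ0
  obtain ⟨X1, hX1⟩ := card_T w (by omega)
  have hG := Gm_pos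
  have hGl : 0 < Gm * Real.log (Real.log (1 / δ)) := by positivity
  obtain ⟨X2, hX2⟩ := ev_L' (2 * (Gm * Real.log (Real.log (1 / δ))) / ε + 1)
  obtain ⟨Y0, hY0⟩ := exists_nat_gt (1 / δ)
  have hW1 := Wp_pos w
  have hW0 : (0 : ℝ) < Wp w := by exact_mod_cast hW1
  refine ⟨Wp w, X1 + X2 + 1, Y0, hW1, fun Y hY => ?_, fun H hH a B C Y => ?_⟩
  · have k1 : ((Icc 1 Y).filter (fun t => Wp w ∣ t)).card = Y / Wp w := by
      rw [← Nat.Ioc_filter_dvd_card_eq_div]
      congr 1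
    rw [k1]
    have h4 : (Y : ℝ) / Wp w < ((Y / Wp w : ℕ) : ℝ) + 1 := by
      rw [div_lt_iff₀ hW0]
      have h5 : Y < (Y / Wp w + 1) * Wp w := by
        have := Nat.div_add_mod Y (Wp w)
        have := Nat.mod_lt Y hW1
        nlinarith
      exact_mod_cast h5
    have h6 : 2 * δ * Y ≤ Y / Wp w := by
      rw [le_div_iff₀ hW0]
      have h7 : (0 : ℝ) ≤ Y := Nat.cast_nonneg _
      nlinarith
    have h8 : 1 ≤ δ * Y := by
      have : 1 / δ ≤ Y := hY0.le.trans (by exact_mod_cast hY)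
      rw [div_le_iff₀ hδ] at this
      linarith
    linarith
  · have c1 := hX1 H (by omega) C
    have c2 := hX2 H (by omega)
    have hH0 : (0 : ℝ) < H := by exact_mod_cast (by omega : 0 < H)
    have k2 : hits a B C H ((Icc 1 Y).filter (fun t => Wp w ∣ t)) ⊆
        Ioc B (B + H) ×ˢ ((Icc 1 H).filter (fun n => ∀ p ∈ pz w, ¬ p ∣ n + C)).image (fun n => n + C) := by
      intro q hq
      unfold hits at hq
      rw [mem_filter, mem_product] at hq
      obtain ⟨⟨hb, hc⟩, t, ht⟩ := hq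
      unfold primes at ht
      rw [mem_filter, mem_filter, mem_Icc] at ht
      obtain ⟨⟨⟨ht1, -⟩, hWt⟩, hp⟩ := ht
      rw [mem_Ioc] at hb hc
      rw [mem_product]
      refine ⟨mem_Ioc.2 hb, ?_⟩
      rw [mem_image]
      refine ⟨q.2 - C, ?_, by omega⟩
      rw [mem_filter, mem_Icc]
      refine ⟨by omega, fun p hpw hpd => ?_⟩
      rw [Nat.sub_add_cancel (by omega)] at hpd
      have hpt : p ∣ t := (dvd_Wp hpw).trans hWt
      have h5 : p ∣ a * t ^ 2 + q.1 * t + q.2 := by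
        apply dvd_add (dvd_add _ _) hpd
        · exact (dvd_pow hpt two_ne_zero).mul_left _
        · exact hpt.mul_left _
      have h6 := (Nat.prime_dvd_prime_iff_eq (mem_pz.1 hpw).2 hp).1 h5
      have h7 := Nat.le_of_dvd (by omega) hpt
      have h8 : 1 * t ≤ q.1 * t := Nat.mul_le_mul_right t (by omega)
      have h9 : 0 ≤ a * t ^ 2 := Nat.zero_le _
      omega
    have k3 : ((hits a B C H ((Icc 1 Y).filter (fun t => Wp w ∣ t))).card : ℝ) ≤ H * (H * Vz w + H / Real.log H) := by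
      have k4 := card_le_card k2
      rw [card_product, Nat.card_Ioc, Nat.add_sub_cancel_left] at k4
      have k5 : (((Icc 1 H).filter (fun n => ∀ p ∈ pz w, ¬ p ∣ n + C)).image (fun n => n + C)).card ≤
          ((Icc 1 H).filter (fun n => ∀ p ∈ pz w, ¬ p ∣ n + C)).card := card_image_le
      calc ((hits a B C H ((Icc 1 Y).filter (fun t => Wp w ∣ t))).card : ℝ) ≤
            ((H * (((Icc 1 H).filter (fun n => ∀ p ∈ pz w, ¬ p ∣ n + C)).image (fun n => n + C)).card : ℕ) : ℝ) := by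
              exact_mod_cast k4
        _ ≤ ((H * ((Icc 1 H).filter (fun n => ∀ p ∈ pz w, ¬ p ∣ n + C)).card : ℕ) : ℝ) := by
              exact_mod_cast Nat.mul_le_mul_left H k5
        _ = H * (((Icc 1 H).filter (fun n => ∀ p ∈ pz w, ¬ p ∣ n + C)).card : ℝ) := by push_cast; rfl
        _ ≤ _ := mul_le_mul_of_nonneg_left c1 hH0.le
    refine k3.trans ?_
    have hpos : 0 < 2 * (Gm * Real.log (Real.log (1 / δ))) / ε := by positivity
    have hlog : 0 < Real.log (H : ℝ) := by linarith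
    have k6 : 1 / Real.log (H : ℝ) ≤ (ε / 2) / (Gm * Real.log (Real.log (1 / δ))) := by
      rw [div_le_div_iff₀ hlog hGl]
      have k7 : 2 * (Gm * Real.log (Real.log (1 / δ))) / ε ≤ Real.log H := by linarith
      rw [div_le_iff₀ hε] at k7
      linarith
    calc (H : ℝ) * (H * Vz w + H / Real.log H) = (H : ℝ) ^ 2 * (Vz w + 1 / Real.log H) := by ring
      _ ≤ (H : ℝ) ^ 2 * ((1 + ε / 2) / (Gm * Real.log (Real.log (1 / δ))) + (ε / 2) / (Gm * Real.log (Real.log (1 / δ)))) := by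
          gcongr
      _ = _ := by
          rw [← add_div]
          ring

end Pool.Agent.V8H21.QB
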