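import Pool.Agent.V8H21.QB.Uni3

set_option autoImplicit false

/-! The formula of Hardy and Littlewood uniformly in the length. -/

namespace Pool.Agent.V8H21.QB

open Finset Filter Topology
open Pool.Agent.N792 (Vc V1 rho fv Rough Admissible eps gcdProd partialC)
open Pool.Agent.H373R2.T7 (lamz Vz pz Vz_pos Vz_inv_small mem_pz lamz_nonneg ev_log' ev_L' Vz_le_one)

/-- the lengths -/
noncomputable def len (K : ℕ) (L κ : ℝ) (j : ℕ) : ℕ := ⌊K * L * (1 + κ) ^ j⌋₊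

/-- the sum of the reciprocals of the lengths -/
lemma sum_len {K : ℕ} {L κ : ℝ} (hK : 2 ≤ K) (hL : 1 ≤ L) (hκ : 0 < κ) (hκ1 : κ ≤ 1) (m : ℕ) :
    ∑ j ∈ range m, L / (len K L κ j : ℝ) ≤ 4 / (K * κ) := by
  have hK0 : (2 : ℝ) ≤ K := by exact_mod_cast hK
  have hr : 1 < 1 + κ := by linarith
  have h1 : ∀ j, L / (len K L κ j : ℝ) ≤ (2 / K) * ((1 + κ)⁻¹) ^ j := by
    intro j
    have h2 : 1 ≤ (1 + κ) ^ j := one_le_pow₀ hr.le
    have h3 : 2 ≤ K * L * (1 + κ) ^ j := by nlinarith [mul_le_mul hK0 hL (by norm_num) (by linarith)]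
    have h4 : K * L * (1 + κ) ^ j < (len K L κ j : ℝ) + 1 := Nat.lt_floor_add_one _
    have h5 : K * L * (1 + κ) ^ j / 2 ≤ (len K L κ j : ℝ) := by linarith
    calc L / (len K L κ j : ℝ) ≤ L / (K * L * (1 + κ) ^ j / 2) := div_le_div_of_nonneg_left (by linarith) (by positivity) h5
      _ = (2 / K) * ((1 + κ)⁻¹) ^ j := by
          rw [inv_pow]
          have : L ≠ 0 := by linarith
          field_simp
  calc ∑ j ∈ range m, L / (len K L κ j : ℝ) ≤ ∑ j ∈ range m, (2 / K) * ((1 + κ)⁻¹) ^ j := sum_le_sum fun j _ => h1 j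
    _ = (2 / K) * ∑ j ∈ range m, ((1 + κ)⁻¹) ^ j := by rw [mul_sum]
    _ ≤ (2 / K) * (1 - (1 + κ)⁻¹)⁻¹ := by
        apply mul_le_mul_of_nonneg_left _ (by positivity)
        have h6 : (1 + κ)⁻¹ < 1 := inv_lt_one_of_one_lt₀ hr
        have h7 : 0 ≤ (1 + κ)⁻¹ := by positivity
        have h8 := (summable_geometric_of_lt_one h7 h6).sum_le_tsum (range m) (fun _ _ => by positivity)
        rwa [tsum_geometric_of_lt_one h7 h6] at h8
    _ = (2 / K) * ((1 + κ) / κ) := by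
        congr 1
        have : 1 - (1 + κ)⁻¹ = κ / (1 + κ) := by
          field_simp
          ring
        rw [this, inv_div]
    _ ≤ (2 / K) * (2 / κ) := by
        apply mul_le_mul_of_nonneg_left _ (by positivity)
        apply div_le_div_of_nonneg_right _ hκ.le
        linarith
    _ = _ := by
        field_simp
        norm_num

lemma len_ge {K : ℕ} {L κ : ℝ} (hK : 2 ≤ K) (hL : 1 ≤ L) (hκ : 0 < κ) (j : ℕ) : L ≤ (len K L κ j : ℝ) := by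
  have hK0 : (2 : ℝ) ≤ K := by exact_mod_cast hK
  have h2 : 1 ≤ (1 + κ) ^ j := one_le_pow₀ (by linarith)
  have h4 : K * L * (1 + κ) ^ j < (len K L κ j : ℝ) + 1 := Nat.lt_floor_add_one _
  have h9 : K * L ≤ K * L * (1 + κ) ^ j := le_mul_of_one_le_right (by positivity) h2
  nlinarith

lemma len_le {K E m : ℕ} {L κ : ℝ} (hL : 1 ≤ L) (hκ : 0 < κ) (hκ1 : κ ≤ 1) (hKL : 4 * (K : ℝ) ≤ L)
    (hm2 : (m : ℝ) ≤ 2 * E / κ * Real.log L + 1) (j : ℕ) (hj : j ≤ m) : (len K L κ j : ℝ) ≤ L ^ (2 * E + 2) := by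
  have hL0 : 0 < L := by linarith
  have hKn : (0 : ℝ) ≤ K := Nat.cast_nonneg _
  have hexpκ : (1 + κ) ^ m ≤ Real.exp (κ * m) := by
    rw [mul_comm, Real.exp_nat_mul]
    apply pow_le_pow_left₀ (by linarith)
    have := Real.add_one_le_exp κ
    linarith
  have k1 : (len K L κ j : ℝ) ≤ K * L * (1 + κ) ^ j := Nat.floor_le (by positivity)
  have k2 : (1 + κ) ^ j ≤ (1 + κ) ^ m := pow_le_pow_right₀ (by linarith) hj
  have k3 : κ * m ≤ 2 * E * Real.log L + 1 := by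
    calc κ * m ≤ κ * (2 * E / κ * Real.log L + 1) := mul_le_mul_of_nonneg_left hm2 hκ.le
      _ = 2 * E * Real.log L + κ := by field_simp
      _ ≤ _ := by linarith
  have k4 : Real.exp (2 * E * Real.log L + 1) = L ^ (2 * E) * Real.exp 1 := by
    rw [Real.exp_add]
    congr 1
    have : 2 * (E : ℝ) * Real.log L = ((2 * E : ℕ) : ℝ) * Real.log L := by push_cast; ring
    rw [this, Real.exp_nat_mul, Real.exp_log hL0]
  have k5 : (1 + κ) ^ m ≤ L ^ (2 * E) * Real.exp 1 := by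
    rw [← k4]
    exact hexpκ.trans (Real.exp_le_exp.2 k3)
  have k6 := Real.exp_one_lt_three
  have k7 : (K : ℝ) * Real.exp 1 ≤ L := by
    have : (K : ℝ) * Real.exp 1 ≤ K * 3 := mul_le_mul_of_nonneg_left k6.le hKn
    linarith
  calc (len K L κ j : ℝ) ≤ K * L * (1 + κ) ^ j := k1
    _ ≤ K * L * (L ^ (2 * E) * Real.exp 1) := by
        apply mul_le_mul_of_nonneg_left (k2.trans k5) (by positivity)
    _ = (K * Real.exp 1) * (L * L ^ (2 * E)) := by ring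
    _ ≤ L * (L * L ^ (2 * E)) := mul_le_mul_of_nonneg_right k7 (by positivity)
    _ = L ^ (2 * E + 2) := by ring

lemma len_last {K E m : ℕ} {L κ : ℝ} (hK : 2 ≤ K) (hL : 1 ≤ L) (hκ : 0 < κ) (hκ1 : κ ≤ 1)
    (hm1 : 2 * E / κ * Real.log L ≤ m) {y : ℕ} (hy2 : (y : ℝ) ≤ L ^ E) : y < len K L κ m := by
  have hL0 : 0 < L := by linarith
  have hK0 : (2 : ℝ) ≤ K := by exact_mod_cast hK
  have k1 : L ^ E ≤ (1 + κ) ^ m := by
    have k2 : κ / 2 ≤ Real.log (1 + κ) := by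
      have := Real.one_sub_inv_le_log_of_pos (show 0 < 1 + κ by linarith)
      refine le_trans ?_ this
      have : 1 - (1 + κ)⁻¹ = κ / (1 + κ) := by
        field_simp
        ring
      rw [this]
      apply div_le_div_of_nonneg_left hκ.le (by linarith)
      linarith
    have k3 : (E : ℝ) * Real.log L ≤ m * Real.log (1 + κ) := by
      calc (E : ℝ) * Real.log L = (2 * E / κ * Real.log L) * (κ / 2) := by field_simp
        _ ≤ m * Real.log (1 + κ) := mul_le_mul hm1 k2 (by positivity) (Nat.cast_nonneg _)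
    have k4 := Real.exp_le_exp.2 k3
    rwa [Real.exp_nat_mul, Real.exp_nat_mul, Real.exp_log hL0, Real.exp_log (by linarith)] at k4
  have k5 : (y : ℝ) + 1 ≤ K * L * (1 + κ) ^ m := by
    have k6 : 1 ≤ L ^ E := one_le_pow₀ hL
    have k7 : 2 * L ^ E ≤ K * L * (1 + κ) ^ m := by
      have k8 : (2 : ℝ) ≤ K * L := by nlinarith
      exact mul_le_mul k8 k1 (by positivity) (by positivity)
    linarith
  have k6 : y + 1 ≤ len K L κ m := by
    unfold len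
    apply Nat.le_floor
    push_cast
    exact k5
  omega

/-- the size of the error of the sieve -/
lemma cst_small {C1 J b0 z : ℕ} {ℓ η θ L V : ℝ} (hz : z = 2 ^ 2 ^ J) (hz2 : (2 : ℝ) ≤ z) (hη : 0 < η) (hθ : 0 < θ) (hV : 0 < V)
    (hVi : V⁻¹ ≤ 4 * z) (hz4 : (z : ℝ) ≤ ℓ ^ 4) (h : 8 * C1 * 64 / (η * θ) * ℓ ^ (4 * (C1 * b0 + 2)) ≤ L) :
    ((C1 : ℝ) * (J + 2) * (2 ^ 2 ^ J) ^ (C1 * b0)) / V ≤ η / 64 * (θ * L) := by
  have k1 : ((J : ℝ) + 2) ≤ 2 * z := by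
    have k2 : J ≤ 2 ^ 2 ^ J := (Nat.lt_two_pow_self (n := J)).le.trans (Nat.lt_two_pow_self (n := 2 ^ J)).le
    rw [← hz] at k2
    have k3 : (J : ℝ) ≤ z := by exact_mod_cast k2
    linarith
  have k4 : ((2 : ℝ) ^ 2 ^ J) = z := by
    rw [hz]
    push_cast
    rfl
  have k5 : (C1 : ℝ) * (J + 2) * (2 ^ 2 ^ J) ^ (C1 * b0) ≤ C1 * (2 * z) * (z : ℝ) ^ (C1 * b0) := by
    rw [k4]
    gcongr
  have k6 : ((C1 : ℝ) * (J + 2) * (2 ^ 2 ^ J) ^ (C1 * b0)) / V ≤ (C1 * (2 * z) * (z : ℝ) ^ (C1 * b0)) * (4 * z) := by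
    rw [div_eq_mul_inv]
    exact mul_le_mul k5 hVi (inv_pos.2 hV).le (by positivity)
  have k7 : (C1 * (2 * z) * (z : ℝ) ^ (C1 * b0)) * (4 * z) = 8 * C1 * (z : ℝ) ^ (C1 * b0 + 2) := by
    rw [pow_add]
    ring
  have k8 : (z : ℝ) ^ (C1 * b0 + 2) ≤ ℓ ^ (4 * (C1 * b0 + 2)) := by
    rw [pow_mul]
    exact pow_le_pow_left₀ (Nat.cast_nonneg _) hz4 _
  rw [k7] at k6
  refine k6.trans ?_
  have k10 : 8 * C1 * 64 / (η * θ) * ℓ ^ (4 * (C1 * b0 + 2)) = (8 * C1 * ℓ ^ (4 * (C1 * b0 + 2))) * 64 / (η * θ) := by ring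
  rw [k10, div_le_iff₀ (by positivity)] at h
  have k11 : 8 * (C1 : ℝ) * (z : ℝ) ^ (C1 * b0 + 2) ≤ 8 * C1 * ℓ ^ (4 * (C1 * b0 + 2)) := by gcongr
  linarith

/-- the sum of the exceptional sets -/
lemma sum_bad {K m H : ℕ} {L κ τ η D ℓ z : ℝ} (hK : 2 ≤ K) (hL : 1 ≤ L) (hκ : 0 < κ) (hκ1 : κ ≤ 1) (hτ : 0 < τ) (hη : 0 < η) (hD : 0 < D)
    (hz : 0 < z) (hℓ : 0 < ℓ) (hKη : 768 / (κ * τ ^ 2 * η) ≤ K) (hmD : ((m + 1 : ℕ) : ℝ) ≤ D * ℓ)
    (c5 : (64 * D / (τ * η) + 32 * D / (τ ^ 2 * η)) * ℓ ≤ √L) (j2 : 96 * D / (τ ^ 2 * η) ≤ ℓ) (hJ1 : ℓ ^ 2 ≤ z) :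
    ∑ j ∈ range (m + 1), (H : ℝ) ^ 2 * (4 / (τ * √L) + (12 * L / (len K L κ j : ℝ) + 2 / L + 6 / z) / τ ^ 2) ≤ η / 4 * (H : ℝ) ^ 2 := by
  have hL0 : 0 < L := by linarith
  have hsL : 0 < √L := Real.sqrt_pos.2 hL0
  have hsq : √L * √L = L := Real.mul_self_sqrt hL0.le
  have hs1 : 1 ≤ √L := by
    rw [Real.one_le_sqrt]
    exact hL
  have hsL2 : √L ≤ L := by nlinarith
  have hK0 : (0 : ℝ) < K := by exact_mod_cast (by omega : 0 < K)
  have k3 := sum_len hK hL hκ hκ1 (m + 1)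
  have hHH : (0 : ℝ) ≤ (H : ℝ) ^ 2 := by positivity
  have k2 : ∑ j ∈ range (m + 1), (H : ℝ) ^ 2 * (4 / (τ * √L) + (12 * L / (len K L κ j : ℝ) + 2 / L + 6 / z) / τ ^ 2) = ∑ j ∈ range (m + 1),
      ((H : ℝ) ^ 2 * (4 / (τ * √L) + 2 / (L * τ ^ 2) + 6 / (z * τ ^ 2)) + (H : ℝ) ^ 2 * (12 / τ ^ 2) * (L / (len K L κ j : ℝ))) := by
    refine sum_congr rfl fun j hj => ?_
    have : (len K L κ j : ℝ) ≠ 0 := by
      have : (0 : ℝ) < len K L κ j := lt_of_lt_of_le hL0 (len_ge hK hL hκ j)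
      exact this.ne'
    field_simp
    ring
  rw [k2, sum_add_distrib, sum_const, card_range, nsmul_eq_mul, ← mul_sum]
  have k4 : (H : ℝ) ^ 2 * (12 / τ ^ 2) * ∑ j ∈ range (m + 1), L / (len K L κ j : ℝ) ≤ η / 16 * (H : ℝ) ^ 2 := by
    calc _ ≤ (H : ℝ) ^ 2 * (12 / τ ^ 2) * (4 / (K * κ)) := mul_le_mul_of_nonneg_left k3 (by positivity)
      _ = (H : ℝ) ^ 2 * (48 / (τ ^ 2 * κ * K)) := by
          field_simp
          ring
      _ ≤ (H : ℝ) ^ 2 * (η / 16) := by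
          apply mul_le_mul_of_nonneg_left _ hHH
          rw [div_le_div_iff₀ (by positivity) (by norm_num)]
          rw [div_le_iff₀ (by positivity)] at hKη
          nlinarith
      _ = _ := by ring
  have k5 : ((m + 1 : ℕ) : ℝ) * (4 / (τ * √L) + 2 / (L * τ ^ 2) + 6 / (z * τ ^ 2)) ≤ 3 * (η / 16) := by
    have j1 : ((m + 1 : ℕ) : ℝ) * (4 / (τ * √L)) ≤ η / 16 := by
      rw [mul_div_assoc', div_le_div_iff₀ (by positivity) (by norm_num)]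
      have j2 : 64 * D / (τ * η) * ℓ ≤ √L := by
        have : 0 ≤ 32 * D / (τ ^ 2 * η) * ℓ := by positivity
        nlinarith
      have j3 : 64 * D / (τ * η) * ℓ = 64 * (D * ℓ) / (τ * η) := by ring
      rw [j3, div_le_iff₀ (by positivity)] at j2
      nlinarith
    have j4 : ((m + 1 : ℕ) : ℝ) * (2 / (L * τ ^ 2)) ≤ η / 16 := by
      rw [mul_div_assoc', div_le_div_iff₀ (by positivity) (by norm_num)]
      have j2 : 32 * D / (τ ^ 2 * η) * ℓ ≤ L := by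
        have : 0 ≤ 64 * D / (τ * η) * ℓ := by positivity
        nlinarith
      have j3 : 32 * D / (τ ^ 2 * η) * ℓ = 32 * (D * ℓ) / (τ ^ 2 * η) := by ring
      rw [j3, div_le_iff₀ (by positivity)] at j2
      nlinarith
    have j5 : ((m + 1 : ℕ) : ℝ) * (6 / (z * τ ^ 2)) ≤ η / 16 := by
      rw [mul_div_assoc', div_le_div_iff₀ (by positivity) (by norm_num)]
      rw [div_le_iff₀ (by positivity)] at j2
      have j6 : 96 * (D * ℓ) ≤ (τ ^ 2 * η) * ℓ ^ 2 := by nlinarith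
      have j7 : (τ ^ 2 * η) * ℓ ^ 2 ≤ (τ ^ 2 * η) * z := mul_le_mul_of_nonneg_left hJ1 (by positivity)
      nlinarith
    calc _ = ((m + 1 : ℕ) : ℝ) * (4 / (τ * √L)) + ((m + 1 : ℕ) : ℝ) * (2 / (L * τ ^ 2)) +
          ((m + 1 : ℕ) : ℝ) * (6 / (z * τ ^ 2)) := by ring
      _ ≤ η / 16 + η / 16 + η / 16 := add_le_add (add_le_add j1 j4) j5
      _ = _ := by ring
  calc _ = (((m + 1 : ℕ) : ℝ) * (4 / (τ * √L) + 2 / (L * τ ^ 2) + 6 / (z * τ ^ 2))) * (H : ℝ) ^ 2 +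
          (H : ℝ) ^ 2 * (12 / τ ^ 2) * ∑ j ∈ range (m + 1), L / (len K L κ j : ℝ) := by ring
    _ ≤ 3 * (η / 16) * (H : ℝ) ^ 2 + η / 16 * (H : ℝ) ^ 2 := add_le_add (mul_le_mul_of_nonneg_right k5 hHH) k4
    _ = _ := by ring

lemma fib_card {H : ℕ} (X : ℕ → Finset ℕ) (R : ℝ) (hX : ∀ b ∈ Icc 1 H, (#(X b) : ℝ) ≤ R) :
    (#((Icc 1 H ×ˢ Icc 1 H).filter (fun q => q.2 ∈ X q.1)) : ℝ) ≤ H * R := by
  classical
  have h8 : #((Icc 1 H ×ˢ Icc 1 H).filter (fun q => q.2 ∈ X q.1)) ≤ ∑ b ∈ Icc 1 H, #(X b) := by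
    rw [card_filter, sum_product]
    refine sum_le_sum fun b _ => ?_
    rw [← card_filter]
    apply card_le_card
    intro c hc
    rw [mem_filter] at hc
    exact hc.2
  calc (#((Icc 1 H ×ˢ Icc 1 H).filter (fun q => q.2 ∈ X q.1)) : ℝ) ≤ ((∑ b ∈ Icc 1 H, #(X b) : ℕ) : ℝ) := by exact_mod_cast h8
    _ = ∑ b ∈ Icc 1 H, (#(X b) : ℝ) := by push_cast; rfl
    _ ≤ ∑ _b ∈ Icc 1 H, R := sum_le_sum hX
    _ = H * R := by rw [sum_const, nsmul_eq_mul, Nat.card_Icc, Nat.add_sub_cancel]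

/-- **uniformity in the length** -/
theorem thmU (a : ℕ) (ha : 0 < a) (E : ℕ) {η : ℝ} (hη : 0 < η) (hη1 : η ≤ 1) : ∃ θ : ℝ, 0 < θ ∧ ∃ K H0 : ℕ, ∀ H : ℕ, H0 ≤ H →
    ∃ Ex ⊆ Icc 1 H ×ˢ Icc 1 H, (#Ex : ℝ) ≤ η * (H : ℝ) ^ 2 ∧ ∀ q ∈ Icc 1 H ×ˢ Icc 1 H, q ∉ Ex → Admissible a q.1 q.2 →
      ∃ S : ℝ, 0 < S ∧ Tendsto (fun y => partialC a q.1 q.2 y) atTop (𝓝 S) ∧ θ ≤ eps a q.1 * S * gcdProd a q.1 ∧
        ∀ y : ℕ, K * Real.log H ≤ y → (y : ℝ) ≤ Real.log H ^ E →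
          |((primes a q.1 q.2 (Ioc 0 y)).card : ℝ) - eps a q.1 * S * gcdProd a q.1 * (y / Real.log H)| ≤
            η * (eps a q.1 * S * gcdProd a q.1 * (y / Real.log H)) := by
  classical
  have haz : (0 : ℤ) < (a : ℤ) := by exact_mod_cast ha
  obtain ⟨θ, hθ, N1, h1⟩ := Pool.Agent.N791.U.sing_pos_halfU (a : ℤ) haz (η / 4) (by positivity) 1
  obtain ⟨z0, N2, h2⟩ := sing_fix2 (a : ℤ) haz (η := η / 32) (by positivity) (by linarith)
  obtain ⟨κ, hκ⟩ : ∃ κ, κ = η / 32 := ⟨_, rfl⟩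
  have hκ0 : 0 < κ := by rw [hκ]; positivity
  have hκ1 : κ ≤ 1 / 32 := by rw [hκ]; linarith
  obtain ⟨τ, hτ⟩ : ∃ τ, τ = η * θ / 96 := ⟨_, rfl⟩
  have hτ0 : 0 < τ := by rw [hτ]; positivity
  obtain ⟨E1, hE1⟩ : ∃ E1 : ℕ, E1 = 2 * E + 3 := ⟨_, rfl⟩
  obtain ⟨N3, h3⟩ := one_win (3 * E1 + 1)
  obtain ⟨N4, h4⟩ := box_of E1
  obtain ⟨C1, hC1, hfl⟩ := Pool.Agent.N791.U.fl_polyU (a : ℤ) haz
  obtain ⟨b0, hb0, hb0η⟩ : ∃ b0 : ℕ, C1 ≤ b0 ∧ ((1 : ℝ) / 2) ^ b0 ≤ η / 64 := by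
    obtain ⟨n, hn⟩ := exists_pow_lt_of_lt_one (show (0 : ℝ) < η / 64 by positivity) (show (1 : ℝ) / 2 < 1 by norm_num)
    refine ⟨C1 + n, by omega, le_trans ?_ hn.le⟩
    exact pow_le_pow_of_le_one (by norm_num) (by norm_num) (by omega)
  obtain ⟨Kp, hKp2, hKp⟩ := param (ε := 1) one_pos
  obtain ⟨D, hD⟩ : ∃ D : ℝ, D = 2 * E / κ + 3 := ⟨_, rfl⟩
  have hD0 : 0 < D := by rw [hD]; positivity
  obtain ⟨K, hK⟩ := exists_nat_ge (2 + 1 / κ + 768 / (κ * τ ^ 2 * η))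
  obtain ⟨N5, h5⟩ := ev_llp 1 (64 * D / (τ * η) + 32 * D / (τ ^ 2 * η))
  obtain ⟨N6, h6⟩ := ev_llp (4 * (C1 * b0 + 2)) (8 * C1 * 64 / (η * θ))
  obtain ⟨N7, h7⟩ := ev_llp 4 1
  obtain ⟨N8, h8⟩ := ev_L' (Real.exp (2 + z0 + Kp + 96 * D / (τ ^ 2 * η)) + 4 * K + a)
  refine ⟨θ / 2, by positivity, K, N1 + N2 + N3 + N4 + N5 + N6 + N7 + N8 + 2, fun H hH => ?_⟩
  have c5 := h5 H (by omega)
  have c6 := h6 H (by omega)
  have c7 := h7 H (by omega)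
  have c8 := h8 H (by omega)
  have hHr : (2 : ℝ) ≤ H := by exact_mod_cast (by omega : 2 ≤ H)
  have hH0 : (0 : ℝ) < H := by linarith
  obtain ⟨L, hL⟩ : ∃ L, L = Real.log (H : ℝ) := ⟨_, rfl⟩
  rw [← hL] at c5 c6 c7 c8 ⊢
  rw [pow_one] at c5
  obtain ⟨ℓ, hℓ⟩ : ∃ ℓ, ℓ = Real.log L := ⟨_, rfl⟩
  rw [← hℓ] at c5 c6 c7
  have ha0 : (0 : ℝ) ≤ a := Nat.cast_nonneg _
  have hKn : (0 : ℝ) ≤ K := Nat.cast_nonneg _
  have hz0n : (0 : ℝ) ≤ z0 := Nat.cast_nonneg _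
  have hKpn : (0 : ℝ) ≤ Kp := Nat.cast_nonneg _
  have hpos1 : 0 < 96 * D / (τ ^ 2 * η) := by positivity
  have hexpL : Real.exp (2 + z0 + Kp + 96 * D / (τ ^ 2 * η)) ≤ L := by linarith
  have hL0 : 0 < L := lt_of_lt_of_le (Real.exp_pos _) hexpL
  have hℓge : 2 + z0 + Kp + 96 * D / (τ ^ 2 * η) ≤ ℓ := by
    rw [hℓ, Real.le_log_iff_exp_le hL0]
    exact hexpL
  have hℓ2 : 2 ≤ ℓ := by linarith
  have hℓ0 : 0 < ℓ := by linarith
  have hL1 : 1 ≤ L := by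
    have := Real.add_one_le_exp (2 + z0 + Kp + 96 * D / (τ ^ 2 * η))
    linarith
  have haL : (a : ℝ) ≤ L := by
    have := Real.exp_pos (2 + z0 + Kp + 96 * D / (τ ^ 2 * η))
    linarith
  have hKL : 4 * (K : ℝ) ≤ L := by
    have := Real.exp_pos (2 + z0 + Kp + 96 * D / (τ ^ 2 * η))
    linarith
  have hsL : 0 < √L := Real.sqrt_pos.2 hL0
  have hsq : √L * √L = L := Real.mul_self_sqrt hL0.le
  have hs1 : 1 ≤ √L := by
    rw [Real.one_le_sqrt]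
    exact hL1
  have hsL2 : √L ≤ L := by nlinarith
  have h1κ : 0 < 1 / κ := by positivity
  have h768 : 0 < 768 / (κ * τ ^ 2 * η) := by positivity
  have hK2r : (2 : ℝ) ≤ K := by linarith
  have hK2 : 2 ≤ K := by exact_mod_cast hK2r
  -- the level
  obtain ⟨J, hJ1, hJ2⟩ := exists_level (x := ℓ ^ 2) (by nlinarith)
  obtain ⟨z, hz⟩ : ∃ z : ℕ, z = 2 ^ 2 ^ J := ⟨_, rfl⟩
  rw [← hz] at hJ1 hJ2
  have hzℓ : ℓ ≤ z := by nlinarith
  have hz2r : (2 : ℝ) ≤ z := by linarith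
  have hz4 : (z : ℝ) ≤ ℓ ^ 4 := by
    calc (z : ℝ) ≤ (ℓ ^ 2) ^ 2 := hJ2
      _ = ℓ ^ 4 := by ring
  have hzL : (z : ℝ) ≤ L := by
    rw [one_mul] at c7
    linarith
  have hzz0 : z0 ≤ z := by
    have : (z0 : ℝ) ≤ z := by linarith
    exact_mod_cast this
  have hz1 : 1 ≤ z := by
    have : (1 : ℝ) ≤ z := by linarith
    exact_mod_cast this
  have hV1 : 0 < V1 z := Vz_pos z
  have hVinv : (V1 z)⁻¹ ≤ 4 * z := by
    obtain ⟨k1, k2, -⟩ := hKp z (by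
      have : (Kp : ℝ) ≤ z := by linarith
      exact_mod_cast this)
    have k3 : Real.log z ≤ z := (Real.log_le_sub_one_of_pos (by linarith)).trans (by linarith)
    calc (V1 z)⁻¹ ≤ 4 * Real.log z := k2
      _ ≤ 4 * z := by linarith
  -- the error of the sieve
  obtain ⟨Cst, hCst⟩ : ∃ Cst : ℝ, Cst = (C1 : ℝ) * (J + 2) * (2 ^ 2 ^ J) ^ (C1 * b0) := ⟨_, rfl⟩
  have hCst0 : 0 ≤ Cst := by rw [hCst]; positivity
  have hCstL : Cst / V1 z ≤ η / 64 * (θ * L) := by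
    rw [hCst]
    exact cst_small hz hz2r hη hθ hV1 hVinv hz4 (c6.trans hsL2)
  -- the exceptional sets of the singular series
  have hhalf : ((H ^ 2 : ℕ) : ℝ) ^ (1 / 2 : ℝ) ≤ H := by
    rw [← Real.sqrt_eq_rpow]
    push_cast
    rw [Real.sqrt_sq hH0.le]
  have hHH2 : H ≤ H ^ 2 := by nlinarith
  have hlogx : Real.log ((H ^ 2 : ℕ) : ℝ) = 2 * L := by
    push_cast
    rw [Real.log_pow, hL]
    norm_num
  have p1 : ∀ b : ℕ, ∃ Ex ⊆ Icc 1 H, (#Ex : ℝ) ≤ η / 4 * H ∧ ∀ c ∈ Icc 1 H, c ∉ Ex → Admissible a b c → θ ≤ Vc a b c z / V1 z := by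
    intro b
    exact h1 (H ^ 2) (by omega) b H hhalf hHH2 z (by
      rw [hlogx, pow_one]
      linarith)
  choose X1 x1 x2 x3 using p1
  have p2 : ∀ b : ℕ, ∃ Ex ⊆ Icc 1 H, (b ∈ Icc 1 H → (#Ex : ℝ) ≤ η / 32 * H ∧ ∀ c ∈ Icc 1 H, c ∉ Ex → Admissible a b c →
      ∃ S : ℝ, 0 < S ∧ Tendsto (fun y => partialC a b c y) atTop (𝓝 S) ∧
        |eps a b * S * gcdProd a b - Vc a b c z / V1 z| ≤ η / 32 * (Vc a b c z / V1 z)) := by
    intro b
    by_cases hb : b ∈ Icc 1 H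
    · obtain ⟨Ex, y1, y2, y3⟩ := h2 H (by omega) z hzz0 (by rw [← hL]; exact hzL) b (by
        rw [mem_Icc] at hb
        rw [Int.cast_natCast]
        have : (b : ℝ) ≤ H := by exact_mod_cast hb.2
        gcongr)
      exact ⟨Ex, y1, fun _ => ⟨y2, y3⟩⟩
    · exact ⟨∅, empty_subset _, fun h => absurd h hb⟩
  choose X2 y1 y2 using p2
  obtain ⟨Q, hQ⟩ : ∃ Q, Q = Icc 1 H ×ˢ Icc 1 H := ⟨_, rfl⟩
  rw [← hQ]
  obtain ⟨B2, hB2⟩ : ∃ B2, B2 = Q.filter (fun q => q.2 ∈ X1 q.1) := ⟨_, rfl⟩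
  obtain ⟨B3, hB3⟩ : ∃ B3, B3 = Q.filter (fun q => q.2 ∈ X2 q.1) := ⟨_, rfl⟩
  have n2 : (#B2 : ℝ) ≤ H * (η / 4 * H) := by
    rw [hB2]
    rw [hQ]
    exact fib_card X1 _ fun b _ => x2 b
  have n3 : (#B3 : ℝ) ≤ H * (η / 32 * H) := by
    rw [hB3]
    rw [hQ]
    exact fib_card X2 _ fun b hb => (y2 b hb).1
  -- the lengths
  obtain ⟨m, hm⟩ : ∃ m : ℕ, m = ⌈2 * E / κ * ℓ⌉₊ := ⟨_, rfl⟩
  have hm1 : 2 * E / κ * ℓ ≤ m := by rw [hm]; exact Nat.le_ceil _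
  have hm2 : (m : ℝ) ≤ 2 * E / κ * ℓ + 1 := by
    rw [hm]
    exact (Nat.ceil_lt_add_one (by positivity)).le
  have hmD : ((m + 1 : ℕ) : ℝ) ≤ D * ℓ := by
    push_cast
    have : D * ℓ = 2 * E / κ * ℓ + 3 * ℓ := by rw [hD]; ring
    rw [this]
    linarith
  have hlen1 : ∀ j, L ≤ (len K L κ j : ℝ) := fun j => len_ge hK2 hL1 hκ0 j
  have hlen0 : ∀ j, 1 ≤ len K L κ j := by
    intro j
    have : (1 : ℝ) ≤ len K L κ j := hL1.trans (hlen1 j)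
    exact_mod_cast this
  have hlenE : ∀ j ≤ m, (len K L κ j : ℝ) ≤ L ^ E1 := by
    intro j hj
    refine (len_le hL1 hκ0 (by linarith) hKL (by rw [← hℓ]; exact hm2) j hj).trans ?_
    exact pow_le_pow_right₀ hL1 (by omega)
  have hIoc : Ioc 0 (0 + H) = Icc 1 H := by
    ext x
    rw [mem_Ioc, mem_Icc]
    omega
  have hpowE : L ^ E1 ≤ L ^ (3 * E1 + 1) := pow_le_pow_right₀ hL1 (by omega)
  obtain ⟨Bj, hBj⟩ : ∃ Bj : ℕ → Finset (ℕ × ℕ), Bj = fun j => Q.filter (fun q => 3 * τ * (len K L κ j : ℝ) <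
      |L * NP a q.1 q.2 (Ioc 0 (0 + len K L κ j)) - NZ z a q.1 q.2 (Ioc 0 (0 + len K L κ j))|) := ⟨_, rfl⟩
  have nj : ∀ j ≤ m, (#(Bj j) : ℝ) ≤ (H : ℝ) ^ 2 * (4 / (τ * √L) + (12 * L / (len K L κ j : ℝ) + 2 / L + 6 / z) / τ ^ 2) := by
    intro j hj
    have hTt : ∀ t ∈ Ioc 0 (0 + len K L κ j), 1 ≤ t ∧ (t : ℝ) ≤ Real.log H ^ E1 := by
      intro t ht
      rw [mem_Ioc] at ht
      refine ⟨by omega, ?_⟩
      rw [← hL]
      refine le_trans ?_ (hlenE j hj)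
      exact_mod_cast (by omega : t ≤ len K L κ j)
    have haH : (a : ℝ) ≤ H * Real.log H ^ E1 := by
      rw [← hL]
      have : L ≤ L ^ E1 := le_self_pow₀ hL1 (by omega)
      nlinarith
    have h0H : (((0 : ℕ) : ℕ) : ℝ) ≤ H * Real.log H ^ E1 := by
      rw [← hL, Nat.cast_zero]
      positivity
    have hbox := h4 H (by omega) a 0 0 (Ioc 0 (0 + len K L κ j)) haH h0H h0H hTt
    have k1 := h3 H (by omega) a 0 0 _ 0 (len K L κ j) hbox (hlen0 j) (by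
      rw [Nat.zero_add, ← hL]
      exact (hlenE j hj).trans hpowE) z hz1 (by
      rw [← hL]
      exact hzL.trans (le_self_pow₀ hL1 (by omega))) τ hτ0
    rw [← hL, hIoc, ← hQ] at k1
    rw [hBj]
    exact k1
  obtain ⟨B1, hB1⟩ : ∃ B1, B1 = (range (m + 1)).biUnion Bj := ⟨_, rfl⟩
  have n1 : (#B1 : ℝ) ≤ η / 4 * (H : ℝ) ^ 2 := by
    have k1 : (#B1 : ℝ) ≤ ∑ j ∈ range (m + 1), (#(Bj j) : ℝ) := by
      rw [hB1]
      exact_mod_cast card_biUnion_le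
    refine k1.trans (le_trans (sum_le_sum fun j hj => nj j (by rw [mem_range] at hj; omega)) ?_)
    exact sum_bad hK2 hL1 hκ0 (by linarith) hτ0 hη hD0 (by linarith) hℓ0 (by linarith) hmD c5 (by linarith) hJ1
  refine ⟨B1 ∪ B2 ∪ B3, ?_, ?_, ?_⟩
  · rw [hB1, hB2, hB3]
    refine union_subset (union_subset ?_ (filter_subset _ _)) (filter_subset _ _)
    rw [biUnion_subset]
    intro j _
    rw [hBj]
    exact filter_subset _ _
  · have h7 : (#(B1 ∪ B2 ∪ B3) : ℝ) ≤ #B1 + #B2 + #B3 := by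
      have := card_union_le (B1 ∪ B2) B3
      have := card_union_le B1 B2
      exact_mod_cast (by omega : #(B1 ∪ B2 ∪ B3) ≤ #B1 + #B2 + #B3)
    have h8 : (0 : ℝ) < (H : ℝ) ^ 2 := by positivity
    nlinarith
  · intro q hq hqE hadm
    rw [mem_union, mem_union, not_or, not_or] at hqE
    obtain ⟨⟨g1, g2⟩, g3⟩ := hqE
    have hq' := hq
    rw [hQ, mem_product] at hq'
    obtain ⟨hqb, hqc⟩ := hq'
    have f2 := x3 q.1 q.2 hqc (fun h => g2 (by rw [hB2, mem_filter]; exact ⟨hq, h⟩)) hadm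
    obtain ⟨S, s1, s2, s3⟩ := (y2 q.1 hqb).2 q.2 hqc (fun h => g3 (by rw [hB3, mem_filter]; exact ⟨hq, h⟩)) hadm
    obtain ⟨M, hM⟩ : ∃ M, M = eps a q.1 * S * gcdProd a q.1 := ⟨_, rfl⟩
    obtain ⟨R, hR⟩ : ∃ R, R = Vc a q.1 q.2 z / V1 z := ⟨_, rfl⟩
    rw [← hM, ← hR] at s3
    rw [← hR] at f2
    have hVc : Vc a q.1 q.2 z = R * V1 z := by
      rw [hR]
      field_simp
    have hrho : rho (a : ℤ) (q.1 : ℤ) (q.2 : ℤ) 1 = 1 := by
      unfold rho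
      rw [filter_true_of_mem]
      · simp
      · intro r _
        simp
    have est : ∀ j ≤ m, |L * ((primes a q.1 q.2 (Ioc 0 (len K L κ j))).card : ℝ) - M * (len K L κ j : ℝ)| ≤
        η / 4 * (M * (len K L κ j : ℝ)) ∧ R ≤ 2 * M := by
      intro j hj
      have f1 : |L * NP a q.1 q.2 (Ioc 0 (len K L κ j)) - NZ z a q.1 q.2 (Ioc 0 (len K L κ j))| ≤ η * θ / 32 * (len K L κ j : ℝ) := by
        by_contra hcon
        rw [not_le] at hcon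
        apply g1
        rw [hB1, mem_biUnion]
        refine ⟨j, mem_range.2 (by omega), ?_⟩
        rw [hBj, mem_filter]
        refine ⟨hq, ?_⟩
        rw [Nat.zero_add]
        refine lt_of_eq_of_lt ?_ hcon
        rw [hτ]
        ring
      have hflq := hfl q.1 b0 hb0 J 1 0 (len K L κ j) q.2 le_rfl (by
        refine ⟨one_ne_zero, fun p hp hd => ?_⟩
        exact absurd (Nat.dvd_one.1 hd) hp.one_lt.ne') (Nat.zero_le _)
      rw [rough_eq J a q.1 q.2 0 (len K L κ j) (mem_Icc.1 hqc).1, ← hz] at hflq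
      rw [hrho, Nat.cast_one, div_one, one_mul, hVc, Nat.cast_zero, sub_zero] at hflq
      have hn0 : (0 : ℝ) < len K L κ j := lt_of_lt_of_le hL0 (hlen1 j)
      have hR0 : 0 < R := lt_of_lt_of_le hθ f2
      rw [← NP_eq]
      refine one_len (ro := ((rough z a q.1 q.2 (Ioc 0 (len K L κ j))).card : ℝ)) (V := V1 z) (Cst := Cst)
        (NZn := NZ z a q.1 q.2 (Ioc 0 (len K L κ j))) hη hη1 hθ hn0 hV1 f2 s3 f1 ?_ ?_ ?_
      · rw [NZ_eq, Vz_eq]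
      · refine hflq.trans (add_le_add ?_ (le_of_eq ?_))
        · exact mul_le_mul_of_nonneg_right hb0η (by positivity)
        · rw [hCst, one_mul]
      · refine hCstL.trans ?_
        have := mul_le_mul_of_nonneg_left (hlen1 j) hθ.le
        exact mul_le_mul_of_nonneg_left this (by positivity)
    have hRM : R ≤ 2 * M := (est 0 (Nat.zero_le _)).2
    have hM0 : 0 < M := by
      have : 0 < R := lt_of_lt_of_le hθ f2
      linarith
    refine ⟨S, s1, s2, ?_, fun y hy1 hy2 => ?_⟩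
    · rw [← hM]
      linarith
    rw [← hM]
    -- the scale
    have hfin : y < len K L κ m := len_last hK2 hL1 hκ0 (by linarith) (by rw [← hℓ]; exact hm1) hy2
    have hzero : len K L κ 0 ≤ y := by
      unfold len
      rw [pow_zero, mul_one]
      exact Nat.floor_le_of_le hy1
    obtain ⟨j, hj⟩ : ∃ j, j = Nat.findGreatest (fun j => len K L κ j ≤ y) m := ⟨_, rfl⟩
    have hj1 : len K L κ j ≤ y := by
      rw [hj]
      exact Nat.findGreatest_spec (P := fun j => len K L κ j ≤ y) (Nat.zero_le m) hzero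
    have hjm : j ≤ m := by rw [hj]; exact Nat.findGreatest_le m
    have hjm' : j < m := by
      rcases lt_or_eq_of_le hjm with h | h
      · exact h
      · rw [h] at hj1
        omega
    have hj2 : y < len K L κ (j + 1) := by
      by_contra hcon
      rw [not_lt] at hcon
      have := Nat.le_findGreatest (P := fun j => len K L κ j ≤ y) (show j + 1 ≤ m by omega) hcon
      omega
    have q1 := (est j hjm).1
    have q2 := (est (j + 1) (by omega)).1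
    refine interp (n := (len K L κ j : ℝ)) (n' := (len K L κ (j + 1) : ℝ)) hη hη1 hκ hM0 hL0 ?_ q1 q2 ?_ ?_ ?_ ?_ ?_
    · have k1 : 1 / κ ≤ y := by
        refine le_trans ?_ hy1
        have : (K : ℝ) ≤ K * L := le_mul_of_one_le_right hKn hL1
        linarith
      rw [div_le_iff₀ hκ0] at k1
      linarith
    · apply Nat.cast_le.2
      apply card_le_card
      unfold primes
      apply filter_subset_filter
      apply Ioc_subset_Ioc_right hj1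
    · apply Nat.cast_le.2
      apply card_le_card
      unfold primes
      apply filter_subset_filter
      apply Ioc_subset_Ioc_right hj2.le
    · exact_mod_cast hj2.le
    · exact_mod_cast hj1
    · have k1 : (len K L κ (j + 1) : ℝ) ≤ K * L * (1 + κ) ^ (j + 1) := Nat.floor_le (by positivity)
      have k2 : K * L * (1 + κ) ^ j < (len K L κ j : ℝ) + 1 := Nat.lt_floor_add_one _
      calc (len K L κ (j + 1) : ℝ) ≤ K * L * (1 + κ) ^ (j + 1) := k1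
        _ = (1 + κ) * (K * L * (1 + κ) ^ j) := by rw [pow_succ]; ring
        _ ≤ (1 + κ) * ((len K L κ j : ℝ) + 1) := mul_le_mul_of_nonneg_left k2.le (by linarith)

end Pool.Agent.V8H21.QB
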