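import Pool.Agent.V8H21.SQ.Corr
import Pool.Agent.H373R2.T7.LamMaj

set_option autoImplicit false

/-! Sums along arithmetic progressions of integers: the primes minus the sieve model, and the
sieve model. -/

namespace Pool.Agent.V8H21.QB

open Finset
open Pool.Agent.H373R2.T7 (lamz Vz pz Vz_pos Vz_inv_small mem_pz lamz_nonneg PerB nuB sys_count ev_log' ev_L' Vz_le_one lam_ap lamz_ap)
open Pool.Agent.V8H21.SQ (fac_pos one_le_fac)

lemma ap_pos {g : ℕ → ℝ} {N : ℕ} {D : ℝ} {q : ℕ} (hq : 1 ≤ q)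
    (h : ∀ c y : ℕ, y ≤ N → |∑ n ∈ (Icc 1 y).filter (fun n => n ≡ c [MOD q]), g n| ≤ D)
    (r u v : ℤ) (h1 : ∀ b ∈ Ioc u v, 1 ≤ r + b * q ∧ r + b * q ≤ N) :
    |∑ b ∈ Ioc u v, g (r + b * q).toNat| ≤ 2 * D := by
  have hD : 0 ≤ D := (abs_nonneg _).trans (h 0 0 (Nat.zero_le _))
  rcases le_or_gt v u with huv | huv
  · rw [Ioc_eq_empty (not_lt.2 huv), sum_empty, abs_zero]
    linarith
  · have hq0 : (0 : ℤ) < q := by exact_mod_cast hq
    have e1 := h1 (u + 1) (mem_Ioc.2 ⟨by omega, by omega⟩)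
    have e2 := h1 v (mem_Ioc.2 ⟨huv, le_rfl⟩)
    obtain ⟨y1, hy1⟩ : ∃ y1 : ℕ, (y1 : ℤ) = r + (u + 1) * q - 1 :=
      ⟨(r + (u + 1) * q - 1).toNat, Int.toNat_of_nonneg (by linarith [e1.1])⟩
    obtain ⟨y2, hy2⟩ : ∃ y2 : ℕ, (y2 : ℤ) = r + v * q :=
      ⟨(r + v * q).toNat, Int.toNat_of_nonneg (by linarith [e2.1])⟩
    obtain ⟨c, hc⟩ : ∃ c : ℕ, (c : ℤ) = r % q := ⟨(r % q).toNat, Int.toNat_of_nonneg (Int.emod_nonneg _ hq0.ne')⟩
    have hle : y1 ≤ y2 := by
      have : (u + 1) * q ≤ v * q := mul_le_mul_of_nonneg_right (by omega) hq0.le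
      zify
      linarith
    have hy2N : y2 ≤ N := by
      zify
      linarith [e2.2]
    have hsub : (Icc 1 y1).filter (fun n => n ≡ c [MOD q]) ⊆ (Icc 1 y2).filter (fun n => n ≡ c [MOD q]) :=
      filter_subset_filter _ (Icc_subset_Icc le_rfl hle)
    have hcong : ∀ b : ℤ, 0 ≤ r + b * q → (r + b * q).toNat ≡ c [MOD q] := by
      intro b hb
      rw [← Int.natCast_modEq_iff, Int.toNat_of_nonneg hb, hc]
      have : r + b * q ≡ r [ZMOD q] := by
        rw [Int.modEq_iff_dvd]
        exact ⟨-b, by ring⟩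
      exact this.trans (Int.mod_modEq r q).symm
    have key : ∑ b ∈ Ioc u v, g (r + b * q).toNat =
        ∑ n ∈ (Icc 1 y2).filter (fun n => n ≡ c [MOD q]) \ (Icc 1 y1).filter (fun n => n ≡ c [MOD q]), g n := by
      have hinv : ∀ n : ℕ, n ≡ c [MOD q] → ∃ b : ℤ, (n : ℤ) = r + b * q ∧ ((n : ℤ) - r) / q = b := by
        intro n hn
        rw [← Int.natCast_modEq_iff, hc] at hn
        have h3 : (n : ℤ) ≡ r [ZMOD q] := hn.trans (Int.mod_modEq r q)
        obtain ⟨k, hk⟩ := (Int.modEq_iff_dvd.1 h3.symm)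
        refine ⟨k, by linarith [mul_comm k (q : ℤ)], ?_⟩
        rw [hk]
        exact Int.mul_ediv_cancel_left _ hq0.ne'
      apply sum_nbij' (fun b => (r + b * q).toNat) (fun n => ((n : ℤ) - r) / q)
      · intro b hb
        have h2 := h1 b hb
        rw [mem_Ioc] at hb
        have h4 : (r + b * q).toNat ≡ c [MOD q] := hcong b (by linarith)
        have h5 : ((r + b * q).toNat : ℤ) = r + b * q := Int.toNat_of_nonneg (by linarith)
        have h6 : (u + 1) * q ≤ b * q := mul_le_mul_of_nonneg_right (by omega) hq0.le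
        have h7 : b * q ≤ v * q := mul_le_mul_of_nonneg_right (by omega) hq0.le
        rw [mem_sdiff, mem_filter, mem_filter, mem_Icc, mem_Icc]
        refine ⟨⟨⟨?_, ?_⟩, h4⟩, ?_⟩
        · zify
          rw [h5]
          linarith
        · zify
          rw [h5]
          linarith
        · rintro ⟨⟨-, h8⟩, -⟩
          zify at h8
          rw [h5] at h8
          linarith
      · intro n hn
        rw [mem_sdiff, mem_filter, mem_filter, mem_Icc, mem_Icc] at hn
        obtain ⟨⟨⟨h2, h3⟩, h4⟩, h5⟩ := hn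
        obtain ⟨b, hb1, hb2⟩ := hinv n h4
        rw [hb2, mem_Ioc]
        have h6 : y1 < n := by
          by_contra hcon
          exact h5 ⟨⟨h2, by omega⟩, h4⟩
        zify at h6 h3
        constructor
        · by_contra hcon
          have : b * q ≤ u * q := mul_le_mul_of_nonneg_right (by omega) hq0.le
          nlinarith
        · by_contra hcon
          have : (v + 1) * q ≤ b * q := mul_le_mul_of_nonneg_right (by omega) hq0.le
          nlinarith
      · intro b hb
        have h2 := h1 b hb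
        have h5 : ((r + b * q).toNat : ℤ) = r + b * q := Int.toNat_of_nonneg (by linarith)
        simp only [h5]
        rw [show r + b * (q : ℤ) - r = b * q by ring]
        exact Int.mul_ediv_cancel _ hq0.ne'
      · intro n hn
        rw [mem_sdiff, mem_filter] at hn
        obtain ⟨b, hb1, hb2⟩ := hinv n hn.1.2
        simp only [hb2, ← hb1]
        exact Int.toNat_natCast n
      · intro b _
        rfl
    rw [key, sum_sdiff_eq_sub hsub]
    have a1 := h c y1 (hle.trans hy2N)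
    have a2 := h c y2 hy2N
    rw [abs_le] at a1 a2 ⊢
    constructor <;> linarith [a1.1, a1.2, a2.1, a2.2]

lemma ap_int {g : ℕ → ℝ} {N : ℕ} {D : ℝ} {q : ℤ} (hq : q ≠ 0)
    (h : ∀ c y : ℕ, y ≤ N → |∑ n ∈ (Icc 1 y).filter (fun n => n ≡ c [MOD q.natAbs]), g n| ≤ D)
    (r u v : ℤ) (h1 : ∀ b ∈ Ioc u v, 1 ≤ r + b * q ∧ r + b * q ≤ N) :
    |∑ b ∈ Ioc u v, g (r + b * q).toNat| ≤ 2 * D := by
  have hq1 : 1 ≤ q.natAbs := Int.natAbs_pos.2 hq
  rcases lt_or_gt_of_ne hq with hneg | hpos
  · have hqa : ((q.natAbs : ℕ) : ℤ) = -q := by omega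
    have e : ∑ b ∈ Ioc u v, g (r + b * q).toNat = ∑ b ∈ Ioc (-v - 1) (-u - 1), g (r + b * (q.natAbs : ℕ)).toNat := by
      apply sum_nbij' (fun b => -b) (fun b => -b)
      · intro b hb
        rw [mem_Ioc] at hb ⊢
        omega
      · intro b hb
        rw [mem_Ioc] at hb ⊢
        omega
      · intro b _
        ring
      · intro b _
        ring
      · intro b _
        rw [hqa]
        congr 2
        ring
    rw [e]
    apply ap_pos hq1 h
    intro b hb
    have h2 := h1 (-b) (by rw [mem_Ioc] at hb ⊢; omega)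
    rw [hqa]
    have : -b * q = b * -q := by ring
    rw [this] at h2
    exact h2
  · have hqa : ((q.natAbs : ℕ) : ℤ) = q := by omega
    have := ap_pos hq1 h r u v (by rw [hqa]; exact h1)
    rw [hqa] at this
    exact this

/-! ### the sieve model -/

/-- the local factor of two values whose difference is a multiple of `q` -/
noncomputable def hh (w : ℕ) (q : ℤ) : ℝ := ∏ p ∈ (pz w).filter (fun p : ℕ => (p : ℤ) ∣ q), (1 - 1 / (p : ℝ))⁻¹

lemma one_le_hh (w : ℕ) (q : ℤ) : 1 ≤ hh w q := by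
  unfold hh
  apply Finset.one_le_prod
  intro p hp
  exact one_le_fac (mem_pz.1 (mem_filter.1 hp).1).2

lemma Vz_inv_eq (w : ℕ) : (Vz w)⁻¹ = ∏ p ∈ pz w, (1 - 1 / (p : ℝ))⁻¹ := by
  unfold Vz
  rw [prod_inv_distrib]

lemma hh_le (w : ℕ) (q : ℤ) : hh w q ≤ (Vz w)⁻¹ := by
  rw [Vz_inv_eq, ← prod_filter_mul_prod_filter_not (pz w) (fun p : ℕ => (p : ℤ) ∣ q)]
  unfold hh
  apply le_mul_of_one_le_right
  · exact prod_nonneg fun p hp => inv_nonneg.2 (fac_pos (mem_pz.1 (mem_filter.1 hp).1).2).1.le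
  · apply Finset.one_le_prod
    intro p hp
    exact one_le_fac (mem_pz.1 (mem_filter.1 hp).1).2

/-- the conditions along a progression -/
def Qz (r q : ℤ) (p n : ℕ) : Prop := ¬ (p : ℤ) ∣ q ∧ (p : ℤ) ∣ r + n * q

lemma Qz_per (r q : ℤ) (p n : ℕ) : Qz r q p n ↔ Qz r q p (n % p) := by
  unfold Qz
  apply and_congr_right
  intro _
  have h : (p : ℤ) ∣ (r + n * q) - (r + ((n % p : ℕ) : ℤ) * q) := by
    have h2 : (p : ℤ) ∣ (n : ℤ) - ((n % p : ℕ) : ℤ) := by
      have := Nat.mod_modEq n p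
      rw [← Int.natCast_modEq_iff] at this
      exact Int.modEq_iff_dvd.1 this
    have h3 : (r + n * q) - (r + ((n % p : ℕ) : ℤ) * q) = ((n : ℤ) - ((n % p : ℕ) : ℤ)) * q := by ring
    rw [h3]
    exact h2.mul_right q
  constructor
  · intro h1
    have := dvd_sub h1 h
    rwa [sub_sub_cancel] at this
  · intro h1
    have := dvd_add h h1
    rwa [sub_add_cancel] at this

open Classical in
lemma Qz_nu (r q : ℤ) {p : ℕ} (hp : p.Prime) : nuB (Qz r q) p = if (p : ℤ) ∣ q then 0 else 1 := by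
  unfold nuB
  split_ifs with hq
  · rw [card_eq_zero, filter_eq_empty_iff]
    intro n _ hn
    exact hn.1 hq
  · have hp0 : (0 : ℤ) < p := by exact_mod_cast hp.pos
    have hco : IsCoprime q (p : ℤ) := by
      have h1 : Prime (p : ℤ) := Nat.prime_iff_prime_int.1 hp
      exact ((h1.coprime_iff_not_dvd).2 hq).symm
    obtain ⟨s, k, hs⟩ := hco
    rw [card_eq_one]
    obtain ⟨n0, hn0⟩ : ∃ n0 : ℕ, (n0 : ℤ) = (-r * s) % p :=
      ⟨((-r * s) % p).toNat, Int.toNat_of_nonneg (Int.emod_nonneg _ hp0.ne')⟩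
    have hn1 : n0 < p := by
      have := Int.emod_lt_of_pos (-r * s) hp0
      zify
      linarith
    have hd : (p : ℤ) ∣ r + n0 * q := by
      have h1 : (p : ℤ) ∣ (-r * s) - n0 := by
        rw [hn0]
        exact Int.dvd_self_sub_emod
      have h2 : r + n0 * q = -(((-r * s) - n0) * q) + r * (1 - s * q) := by ring
      rw [h2]
      apply dvd_add
      · exact (h1.mul_right q).neg_right
      · have h3 : 1 - s * q = k * p := by linarith
        rw [h3]
        exact ⟨r * k, by ring⟩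
    refine ⟨n0, ?_⟩
    ext n
    rw [mem_filter, mem_range, mem_singleton]
    constructor
    · rintro ⟨h1, h2⟩
      have h3 : (p : ℤ) ∣ ((n : ℤ) - n0) * q := by
        have := dvd_sub h2.2 hd
        have e : r + (n : ℤ) * q - (r + n0 * q) = ((n : ℤ) - n0) * q := by ring
        rwa [e] at this
      have h4 : (p : ℤ) ∣ (n : ℤ) - n0 := by
        rcases (Nat.prime_iff_prime_int.1 hp).dvd_or_dvd h3 with h | h
        · exact h
        · exact absurd h hq
      have h5 : |(n : ℤ) - n0| < p := by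
        rw [abs_lt]
        constructor <;> omega
      have h6 := Int.eq_zero_of_abs_lt_dvd h4 h5
      omega
    · intro h
      rw [h]
      exact ⟨hn1, hq, hd⟩

lemma Qz_perB (r q : ℤ) : PerB (Qz r q) 1 := ⟨fun p n => Qz_per r q p n, fun p hp => by
  classical
  rw [Qz_nu r q hp]
  split_ifs <;> omega⟩

lemma Qz_prod (r q : ℤ) (w : ℕ) : ∏ p ∈ pz w, (1 - (nuB (Qz r q) p : ℝ) / p) = Vz w * hh w q := by
  classical
  unfold Vz hh
  rw [prod_filter, ← prod_mul_distrib]
  refine prod_congr rfl fun p hp => ?_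
  have hpp := (mem_pz.1 hp).2
  rw [Qz_nu r q hpp]
  have h0 := (fac_pos hpp).1
  split_ifs
  · rw [mul_inv_cancel₀ h0.ne']
    simp
  · simp

open Classical in
/-- the model along a progression -/
theorem apw (E U : ℕ) : ∃ H0 : ℕ, ∀ H : ℕ, H0 ≤ H → ∀ w : ℕ, 1 ≤ w → (w : ℝ) ≤ Real.log H ^ E →
    ∀ q r u v : ℤ, v - u ≤ H → (∀ p ∈ pz w, (p : ℤ) ∣ q → ¬ (p : ℤ) ∣ r) →
    (∀ b ∈ Ioc u v, 1 ≤ r + b * q) →
    |∑ b ∈ Ioc u v, (lamz w (r + b * q).toNat - hh w q)| ≤ H / Real.log H ^ U := by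
  obtain ⟨N1, h1⟩ := sys_count 1 (E + 1) (U + 2) le_rfl
  obtain ⟨N2, h2⟩ := Vz_inv_small E
  obtain ⟨N3, h3⟩ := ev_L' (4 * 2 ^ (U + 2) + 2 ^ (E + 1) + 4)
  obtain ⟨N4, h4⟩ := ev_log' (U + 1) 2
  refine ⟨N1 ^ 2 + N2 + N3 + N4 + 4, fun H hH w hw hwE q r u v huv hpr hpos => ?_⟩
  have b2 := h2 H (by nlinarith [Nat.zero_le (N1 ^ 2)]) w hw hwE
  have b3 := h3 H (by nlinarith [Nat.zero_le (N1 ^ 2)])
  have b4 := h4 H (by nlinarith [Nat.zero_le (N1 ^ 2)])
  have hH4 : 4 ≤ H := by nlinarith [Nat.zero_le (N1 ^ 2)]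
  obtain ⟨L, hL⟩ : ∃ L, L = Real.log (H : ℝ) := ⟨_, rfl⟩
  rw [← hL] at b2 b3 b4 hwE ⊢
  have hp2 : (0 : ℝ) < 2 ^ (U + 2) := by positivity
  have hp3 : (0 : ℝ) < 2 ^ (E + 1) := by positivity
  have hL4 : 4 ≤ L := by linarith
  have hL0 : 0 < L := by linarith
  have hH0 : (0 : ℝ) < H := by exact_mod_cast (by omega : 0 < H)
  have hVw := Vz_pos w
  have hVi : 0 < (Vz w)⁻¹ := inv_pos.2 hVw
  rcases le_or_gt v u with hvu | huv'
  · rw [Ioc_eq_empty (not_lt.2 hvu), sum_empty, abs_zero]
    positivity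
  obtain ⟨y, hy⟩ : ∃ y : ℕ, (y : ℤ) = v - u := ⟨(v - u).toNat, Int.toNat_of_nonneg (by omega)⟩
  have hyH : y ≤ H := by
    zify
    linarith
  have hcard : ((Ioc u v).card : ℝ) = y := by
    rw [Int.card_Ioc]
    congr 1
    omega
  -- the trivial bound
  by_cases hsm : (y : ℝ) ≤ √(H : ℝ)
  · have h5 : |∑ b ∈ Ioc u v, (lamz w (r + b * q).toNat - hh w q)| ≤ y * L := by
      refine (abs_sum_le_sum_abs _ _).trans ?_
      rw [← hcard, ← nsmul_eq_mul]
      apply sum_le_card_nsmul
      intro b _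
      have a1 := lamz_nonneg w (r + b * q).toNat
      have a2 : lamz w (r + b * q).toNat ≤ (Vz w)⁻¹ := by
        unfold lamz
        split_ifs
        · exact le_rfl
        · exact hVi.le
      have a3 := one_le_hh w q
      have a4 := hh_le w q
      rw [abs_le]
      constructor <;> linarith
    refine h5.trans ?_
    have hss : √(H : ℝ) * √(H : ℝ) = H := Real.mul_self_sqrt hH0.le
    have hs0 : 0 ≤ √(H : ℝ) := Real.sqrt_nonneg _
    rw [le_div_iff₀ (by positivity)]
    calc (y : ℝ) * L * L ^ U = y * L ^ (U + 1) := by ring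
      _ ≤ √(H : ℝ) * √(H : ℝ) := by
          apply mul_le_mul hsm _ (by positivity) hs0
          have : 0 ≤ L ^ (U + 1) := by positivity
          linarith
      _ = H := hss
  · rw [not_le] at hsm
    have hy0 : (0 : ℝ) < y := lt_of_le_of_lt (Real.sqrt_nonneg _) hsm
    have hyN : N1 ≤ y := by
      have : (N1 : ℝ) ≤ √(H : ℝ) := by
        apply Real.le_sqrt_of_sq_le
        have : N1 ^ 2 ≤ H := by omega
        exact_mod_cast this
      exact_mod_cast this.trans hsm.le
    have hlogy : L / 2 ≤ Real.log y := by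
      have : Real.log √(H : ℝ) ≤ Real.log y := Real.log_le_log (Real.sqrt_pos.2 hH0) hsm.le
      rwa [Real.log_sqrt hH0.le, ← hL] at this
    have hlogy2 : Real.log y ≤ L := by
      rw [hL]
      exact Real.log_le_log hy0 (by exact_mod_cast hyH)
    obtain ⟨l, hl⟩ : ∃ l, l = Real.log (y : ℝ) := ⟨_, rfl⟩
    rw [← hl] at hlogy hlogy2
    have hl2 : 2 ^ E ≤ l := by
      have : (2 : ℝ) ^ (E + 1) = 2 * 2 ^ E := by ring
      linarith
    have hl0 : 0 < l := by linarith
    have hwy : (w : ℝ) ≤ Real.log y ^ (E + 1) := by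
      rw [← hl]
      calc (w : ℝ) ≤ L ^ E := hwE
        _ ≤ (2 * l) ^ E := pow_le_pow_left₀ hL0.le (by linarith) E
        _ = 2 ^ E * l ^ E := by rw [mul_pow]
        _ ≤ l * l ^ E := by gcongr
        _ = l ^ (E + 1) := by ring
    have c1 := h1 y hyN w hw hwy (Qz (r + u * q) q) (Qz_perB _ _)
    rw [Qz_prod, ← hl] at c1
    -- rewrite the sum
    have hsum : ∑ b ∈ Ioc u v, lamz w (r + b * q).toNat =
        (Vz w)⁻¹ * (((Icc 1 y).filter (fun n => ∀ p ∈ pz w, ¬ Qz (r + u * q) q p n)).card : ℝ) := by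
      have e1 : ∑ b ∈ Ioc u v, lamz w (r + b * q).toNat =
          ∑ n ∈ Icc 1 y, (if ∀ p ∈ pz w, ¬ Qz (r + u * q) q p n then (Vz w)⁻¹ else 0) := by
        apply sum_nbij' (fun b => (b - u).toNat) (fun n => u + n)
        · intro b hb
          rw [mem_Ioc] at hb
          rw [mem_Icc]
          omega
        · intro n hn
          rw [mem_Icc] at hn
          rw [mem_Ioc]
          omega
        · intro b hb
          rw [mem_Ioc] at hb
          omega
        · intro n hn
          omega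
        · intro b hb
          have hpb := hpos b hb
          rw [mem_Ioc] at hb
          have e2 : (((b - u).toNat : ℕ) : ℤ) = b - u := Int.toNat_of_nonneg (by omega)
          have e3 : r + u * q + (((b - u).toNat : ℕ) : ℤ) * q = r + b * q := by
            rw [e2]
            ring
          have e4 : (((r + b * q).toNat : ℕ) : ℤ) = r + b * q := Int.toNat_of_nonneg (by linarith)
          unfold lamz
          have hiff : (∀ p ∈ pz w, ¬ p ∣ (r + b * q).toNat) ↔ ∀ p ∈ pz w, ¬ Qz (r + u * q) q p (b - u).toNat := by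
            apply forall₂_congr
            intro p hp
            unfold Qz
            rw [e3, ← Int.natCast_dvd_natCast, e4]
            by_cases hpq : (p : ℤ) ∣ q
            · have h6 := hpr p hp hpq
              have h7 : ¬ (p : ℤ) ∣ r + b * q := by
                intro h8
                apply h6
                have := dvd_sub h8 (hpq.mul_left b)
                rwa [add_sub_cancel_right] at this
              simp [hpq, h7]
            · simp [hpq]
          simp only [hiff]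
      rw [e1, ← sum_filter, sum_const, nsmul_eq_mul, mul_comm]
    rw [sum_sub_distrib, hsum, sum_const, nsmul_eq_mul, hcard]
    have h8 : (Vz w)⁻¹ * (y * (Vz w * hh w q)) = y * hh w q := by
      field_simp
    rw [← h8, ← mul_sub, abs_mul, abs_of_pos hVi]
    calc (Vz w)⁻¹ * |(((Icc 1 y).filter (fun n => ∀ p ∈ pz w, ¬ Qz (r + u * q) q p n)).card : ℝ) - y * (Vz w * hh w q)|
        ≤ L * (y / l ^ (U + 2)) := mul_le_mul b2 c1 (abs_nonneg _) hL0.le
      _ ≤ L * (H / (L / 2) ^ (U + 2)) := by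
          gcongr
      _ = 2 ^ (U + 2) * (H / L ^ (U + 1)) := by
          have e5 : L ^ (U + 2) = L ^ (U + 1) * L := by ring
          rw [div_pow, e5]
          field_simp
      _ ≤ L * (H / L ^ (U + 1)) := by
          apply mul_le_mul_of_nonneg_right _ (by positivity)
          linarith
      _ = H / L ^ U := by
          rw [pow_succ]
          field_simp

end Pool.Agent.V8H21.QB
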