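import Pool.Agent.V8H21.QB.Ap
import Pool.Agent.V8H21.SQ.Dens3

set_option autoImplicit false

/-! The mean of the local factors over the differences of an arbitrary set. -/

namespace Pool.Agent.V8H21.QB

open Finset
open Pool.Agent.H373R2.T7 (Vz pz Vz_pos mem_pz Vz_le_one ev_L')
open Pool.Agent.V8H21.SQ (fac_pos one_le_fac fh pw mem_pw gk gk_nonneg gk_le fh_pow tele split_ineq one_le_fh Gm Gm_pos mert)

lemma hh_split {w z : ℕ} (hwz : w ≤ z) (q : ℤ) : hh z q = hh w q * fh w z q := by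
  unfold hh fh
  rw [← prod_filter_mul_prod_filter_not ((pz z).filter (fun p : ℕ => (p : ℤ) ∣ q)) (fun p => p ≤ w)]
  congr 1
  · apply prod_congr _ fun _ _ => rfl
    ext p
    simp only [mem_filter, mem_pz]
    constructor
    · rintro ⟨⟨⟨h1, h2⟩, h3⟩, h4⟩
      exact ⟨⟨h4, h2⟩, h3⟩
    · rintro ⟨⟨h1, h2⟩, h3⟩
      exact ⟨⟨⟨by omega, h2⟩, h3⟩, h1⟩
  · apply prod_congr _ fun _ _ => rfl
    ext p
    simp only [mem_filter, mem_pz, mem_pw]
    constructor
    · rintro ⟨⟨⟨h1, h2⟩, h3⟩, h4⟩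
      exact ⟨⟨h1, h2, by omega⟩, h3⟩
    · rintro ⟨⟨h1, h2, h4⟩, h3⟩
      exact ⟨⟨⟨h1, h2⟩, h3⟩, by omega⟩

/-- the other numbers of an interval which are congruent to a given one -/
lemma count_erase {u Y t d : ℕ} (hd : 1 ≤ d) (ht : t ∈ Ioc u (u + Y)) :
    ((((Ioc u (u + Y)).erase t).filter (fun t' : ℕ => (d : ℤ) ∣ (t' : ℤ) - t)).card : ℝ) ≤ Y / d := by
  have e1 : ((Ioc u (u + Y)).erase t).filter (fun t' : ℕ => (d : ℤ) ∣ (t' : ℤ) - t) =
      ((Ioc u (u + Y)).filter (fun t' => t' ≡ t [MOD d])).erase t := by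
    ext x
    simp only [mem_filter, mem_erase]
    have : (d : ℤ) ∣ (x : ℤ) - t ↔ x ≡ t [MOD d] := by
      rw [← Int.natCast_modEq_iff, Int.modEq_comm]
      exact (Int.modEq_iff_dvd).symm
    rw [this]
    tauto
  have hmem : t ∈ (Ioc u (u + Y)).filter (fun t' => t' ≡ t [MOD d]) := mem_filter.2 ⟨ht, Nat.ModEq.refl t⟩
  rw [e1, card_erase_of_mem hmem]
  have hpos : 1 ≤ ((Ioc u (u + Y)).filter (fun t' => t' ≡ t [MOD d])).card := card_pos.2 ⟨t, hmem⟩
  have h1 := Nat.Ioc_filter_modEq_card u (u + Y) (r := d) hd t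
  have hdq : (0 : ℚ) < d := by exact_mod_cast hd
  have h2 : (((((Ioc u (u + Y)).filter (fun t' => t' ≡ t [MOD d])).card : ℕ) : ℤ) : ℚ) ≤ Y / d + 1 := by
    rw [h1]
    push_cast
    apply max_le
    · have a1 := Int.floor_le ((((u + Y : ℕ) : ℚ) - t) / d)
      have a2 := Int.sub_one_lt_floor (((u : ℚ) - t) / d)
      have a3 : (((u + Y : ℕ) : ℚ) - t) / d = ((u : ℚ) - t) / d + Y / d := by
        push_cast
        field_simp
        ring
      rw [a3] at a1
      have a4 : (((u : ℚ) + Y) - t) / d = ((u : ℚ) - t) / d + Y / d := by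
        field_simp
        ring
      rw [a4]
      linarith
    · positivity
  have h3 : ((((Ioc u (u + Y)).filter (fun t' => t' ≡ t [MOD d])).card : ℕ) : ℝ) ≤ Y / d + 1 := by
    have h4 := (Rat.cast_le (K := ℝ)).2 h2
    push_cast at h4
    exact h4
  rw [Nat.cast_sub hpos]
  push_cast
  linarith

theorem moment_lin {k w z u Y t : ℕ} (hk : 1 ≤ k) (hkw : k ≤ w) (ht : t ∈ Ioc u (u + Y)) :
    ∑ t' ∈ (Ioc u (u + Y)).erase t, fh w z ((t' : ℤ) - t) ^ k ≤ (Y : ℝ) * Real.exp 2 := by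
  classical
  have hg0 : ∀ T ∈ (pw w z).powerset, 0 ≤ ∏ p ∈ T, gk k p := by
    intro T hT
    exact prod_nonneg fun p hp => gk_nonneg (mem_pw.1 (mem_powerset.1 hT hp)).2.1
  have h1 : ∑ t' ∈ (Ioc u (u + Y)).erase t, fh w z ((t' : ℤ) - t) ^ k ≤
      ∑ T ∈ (pw w z).powerset, (∏ p ∈ T, gk k p) * ((Y : ℝ) * ∏ p ∈ T, (1 / (p : ℝ))) := by
    simp only [fh_pow]
    rw [sum_comm]
    refine sum_le_sum fun T hT => ?_
    have hTp : ∀ p ∈ T, p.Prime := fun p hp => (mem_pw.1 (mem_powerset.1 hT hp)).2.1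
    rw [← sum_filter, sum_const, nsmul_eq_mul, mul_comm]
    apply mul_le_mul_of_nonneg_left _ (hg0 T hT)
    have hd : 1 ≤ ∏ p ∈ T, p := Finset.prod_pos fun p hp => (hTp p hp).pos
    have h2 := count_erase (d := ∏ p ∈ T, p) hd ht
    have h3 : (Y : ℝ) * ∏ p ∈ T, (1 / (p : ℝ)) = Y / ((∏ p ∈ T, p : ℕ) : ℝ) := by
      rw [prod_div_distrib, prod_const_one, mul_one_div]
      push_cast
      rfl
    rw [h3]
    refine le_trans (Nat.cast_le.2 (card_le_card ?_)) h2
    intro x hx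
    rw [mem_filter] at hx ⊢
    refine ⟨hx.1, ?_⟩
    have h4 : (∏ p ∈ T, p) ∣ ((x : ℤ) - t).natAbs :=
      Finset.prod_primes_dvd _ (fun p hp => (hTp p hp).prime) (fun p hp => Int.natCast_dvd.1 (hx.2 p hp))
    exact Int.natCast_dvd.2 h4
  have h2 : ∑ T ∈ (pw w z).powerset, (∏ p ∈ T, gk k p) * ((Y : ℝ) * ∏ p ∈ T, (1 / (p : ℝ))) =
      (Y : ℝ) * ∏ p ∈ pw w z, (1 + gk k p * (1 / (p : ℝ))) := by
    rw [prod_one_add, mul_sum]
    refine sum_congr rfl fun T _ => ?_
    rw [prod_mul_distrib]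
    ring
  rw [h2] at h1
  refine h1.trans (mul_le_mul_of_nonneg_left ?_ (Nat.cast_nonneg _))
  have hexp : ∏ p ∈ pw w z, (1 + gk k p * (1 / (p : ℝ))) ≤ Real.exp (∑ p ∈ pw w z, gk k p * (1 / (p : ℝ))) := by
    rw [Real.exp_sum]
    apply prod_le_prod
    · intro p hp
      have := gk_nonneg (k := k) (mem_pw.1 hp).2.1
      positivity
    · intro p _
      have := Real.add_one_le_exp (gk k p * (1 / (p : ℝ)))
      linarith
  refine hexp.trans ?_
  apply Real.exp_le_exp.2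
  have hw0 : (0 : ℝ) < w := by exact_mod_cast (by omega : 0 < w)
  calc ∑ p ∈ pw w z, gk k p * (1 / (p : ℝ)) ≤ ∑ p ∈ pw w z, (2 * k) * (1 / ((p : ℝ) * (p - 1))) := by
        refine sum_le_sum fun p hp => ?_
        rw [mem_pw] at hp
        have h3 := gk_le hp.2.1 (by omega : k < p)
        have h4 : (2 : ℝ) ≤ p := by exact_mod_cast hp.2.1.two_le
        have h5 : (0 : ℝ) < (p : ℝ) - 1 := by linarith
        calc gk k p * (1 / (p : ℝ)) ≤ (2 * k / ((p : ℝ) - 1)) * (1 / (p : ℝ)) := by gcongr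
          _ = _ := by field_simp
    _ = (2 * k) * ∑ p ∈ pw w z, 1 / ((p : ℝ) * (p - 1)) := by rw [mul_sum]
    _ ≤ (2 * k) * (1 / (w : ℝ)) := by
        apply mul_le_mul_of_nonneg_left (tele (by omega) z) (by positivity)
    _ ≤ 2 := by
        rw [mul_one_div, div_le_iff₀ hw0]
        have : (k : ℝ) ≤ w := by exact_mod_cast hkw
        linarith

/-- the size of the parameter -/
lemma param {ε : ℝ} (hε : 0 < ε) : ∃ K : ℕ, 2 ≤ K ∧ ∀ w : ℕ, K ≤ w → 1 ≤ Real.log w ∧ (Vz w)⁻¹ ≤ 4 * Real.log w ∧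
    3 + √(w : ℝ) + Real.log (8 * Real.log w / ε) ≤ w * (ε / (16 * Real.log w)) := by
  obtain ⟨w0, hw0, h1⟩ := mert (ε := 1) one_pos
  have hG : Gm ≤ 2 := by
    unfold Gm
    have h2 := Real.eulerMascheroniConstant_lt_two_thirds
    have h3 : Real.exp Real.eulerMascheroniConstant ≤ Real.exp (2 / 3) := Real.exp_le_exp.2 h2.le
    have h4 : Real.exp (2 / 3) ≤ 2 := by
      have h5 : Real.exp 1 < 2.7182818286 := Real.exp_one_lt_d9
      have h6 : Real.exp (2 / 3) ^ 3 = Real.exp 1 ^ 2 := by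
        rw [← Real.exp_nat_mul, ← Real.exp_nat_mul]
        norm_num
      by_contra hcon
      rw [not_le] at hcon
      have h7 : (2 : ℝ) ^ 3 < Real.exp (2 / 3) ^ 3 := pow_lt_pow_left₀ hcon (by norm_num) (by norm_num)
      rw [h6] at h7
      nlinarith [Real.exp_pos 1]
    linarith
  have h2 := (isLittleO_log_rpow_atTop (show (0 : ℝ) < 1 / 4 by norm_num)).bound (show (0 : ℝ) < 1 by norm_num)
  have h3 := (tendsto_natCast_atTop_atTop (R := ℝ)).eventually h2
  obtain ⟨w1, h4⟩ := Filter.eventually_atTop.1 h3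
  obtain ⟨w2, h5⟩ := ev_L' 1
  obtain ⟨M, hM⟩ := exists_nat_ge (16 * (5 + 8 / ε) / ε + 1)
  refine ⟨w0 + w1 + w2 + M ^ 4 + 2, by omega, fun w hw => ?_⟩
  have a1 := h1 w (by omega)
  have a2 := h4 w (by omega)
  have a3 := h5 w (by omega)
  have hw0' : (0 : ℝ) < w := by exact_mod_cast (by omega : 0 < w)
  obtain ⟨m, hm⟩ : ∃ m : ℝ, m = (w : ℝ) ^ (1 / 4 : ℝ) := ⟨_, rfl⟩
  have hm4 : m ^ 4 = w := by
    rw [hm, ← Real.rpow_natCast, ← Real.rpow_mul hw0'.le]
    norm_num
  have hm0 : 0 < m := by rw [hm]; positivity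
  have hmM : (M : ℝ) ≤ m := by
    by_contra hcon
    rw [not_le] at hcon
    have h6 : m ^ 4 < (M : ℝ) ^ 4 := pow_lt_pow_left₀ hcon hm0.le (by norm_num)
    rw [hm4] at h6
    have h7 : (M : ℝ) ^ 4 ≤ w := by exact_mod_cast (by omega : M ^ 4 ≤ w)
    linarith
  have hlog : Real.log w ≤ m := by
    rw [Real.norm_of_nonneg (by linarith), Real.norm_of_nonneg (by positivity), one_mul] at a2
    rw [hm]
    exact a2
  refine ⟨a3, ?_, ?_⟩
  · calc (Vz w)⁻¹ ≤ (1 + 1) * (Gm * Real.log w) := a1.2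
      _ ≤ (1 + 1) * (2 * Real.log w) := by gcongr
      _ = _ := by ring
  · have hsq : √(w : ℝ) = m ^ 2 := by
      rw [← hm4, show m ^ 4 = (m ^ 2) ^ 2 by ring, Real.sqrt_sq (by positivity)]
    have h8 : Real.log (8 * Real.log w / ε) ≤ 8 / ε + m := by
      have e1 : 8 * Real.log w / ε = (8 / ε) * Real.log w := by ring
      rw [e1, Real.log_mul (by positivity) (by linarith)]
      have e2 : Real.log (8 / ε) ≤ 8 / ε := by
        have := Real.log_le_sub_one_of_pos (show 0 < 8 / ε by positivity)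
        linarith
      have e3 : Real.log (Real.log w) ≤ Real.log w := by
        have := Real.log_le_sub_one_of_pos (show 0 < Real.log w by linarith)
        linarith
      linarith
    have hm1 : 1 ≤ m := by
      have : (1 : ℝ) ≤ M := by
        have : 0 < 16 * (5 + 8 / ε) / ε := by positivity
        linarith
      linarith
    have h9 : 16 * (5 + 8 / ε) / ε ≤ m := by linarith
    rw [div_le_iff₀ hε] at h9
    have h10 : w * (ε / (16 * m)) ≤ w * (ε / (16 * Real.log w)) := by gcongr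
    refine le_trans ?_ h10
    have h11 : (w : ℝ) * (ε / (16 * m)) = m ^ 2 * (m * ε / 16) := by
      rw [← hm4]
      field_simp
    rw [h11, hsq]
    have h12 : 5 + 8 / ε ≤ m * ε / 16 := by linarith
    have h13 : m ^ 2 * (5 + 8 / ε) ≤ m ^ 2 * (m * ε / 16) := by gcongr
    refine le_trans ?_ h13
    have h14 : 0 < 8 / ε := by positivity
    nlinarith [mul_le_mul_of_nonneg_left hm1 hm0.le, mul_nonneg h14.le (show 0 ≤ m ^ 2 - 1 by nlinarith)]

/-- the size of the parameter -/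
lemma param2 {ε : ℝ} (hε : 0 < ε) : ∃ K : ℕ, 2 ≤ K ∧ 32 / ε ≤ (K : ℝ) ∧ ∀ w : ℕ, K ≤ w → 1 ≤ Real.log w ∧ (Vz w)⁻¹ ≤ 4 * Real.log w ∧
    3 + Real.log (8 * Real.log w / ε) ≤ w * (ε / (32 * Real.log w)) := by
  obtain ⟨K, hK2, hK⟩ := param (half_pos hε)
  obtain ⟨M, hM⟩ := exists_nat_ge (32 / ε)
  refine ⟨K + M, by omega, by push_cast; have : (0 : ℝ) ≤ K := Nat.cast_nonneg _; linarith, fun w hw => ?_⟩
  obtain ⟨h1, h2, h3⟩ := hK w (by omega)
  refine ⟨h1, h2, ?_⟩
  have h4 : Real.log (8 * Real.log w / ε) ≤ Real.log (8 * Real.log w / (ε / 2)) := by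
    apply Real.log_le_log (by positivity)
    apply div_le_div_of_nonneg_left (by positivity) (by positivity)
    linarith
  have h5 : (w : ℝ) * (ε / 2 / (16 * Real.log w)) = w * (ε / (32 * Real.log w)) := by
    field_simp
    ring
  rw [h5] at h3
  have := Real.sqrt_nonneg (w : ℝ)
  linarith

/-- the mean over the differences of an arbitrary set -/
theorem avg {ε : ℝ} (hε : 0 < ε) (hε1 : ε ≤ 1) : ∃ K : ℕ, 2 ≤ K ∧ ∀ w z : ℕ, K ≤ w → w ≤ z → ∀ u Y : ℕ, ∀ T : Finset ℕ,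
    T ⊆ Ioc u (u + Y) → T.Nonempty → K * (1 + Real.log ((Y : ℝ) / T.card)) * Real.log w ≤ w →
    ∑ t ∈ T, ∑ t' ∈ T.erase t, (hh z ((t' : ℤ) - t) - hh w ((t' : ℤ) - t)) ≤ ε * (T.card : ℝ) ^ 2 := by
  obtain ⟨K, hK2, hKε, hK⟩ := param2 hε
  refine ⟨K, hK2, fun w z hKw hwz u Y T hT hne hY => ?_⟩
  obtain ⟨hl1, hV, hpar⟩ := hK w hKw
  have hw2 : 2 ≤ w := hK2.trans hKw
  have hVi : 0 < (Vz w)⁻¹ := inv_pos.2 (Vz_pos w)
  have hV1 : 1 ≤ (Vz w)⁻¹ := by
    rw [one_le_inv₀ (Vz_pos w)]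
    exact Vz_le_one w
  obtain ⟨η, hη⟩ : ∃ η : ℝ, η = ε / (2 * (Vz w)⁻¹) := ⟨_, rfl⟩
  have hη0 : 0 < η := by rw [hη]; positivity
  have hη1 : η ≤ 1 := by
    rw [hη, div_le_one (by positivity)]
    linarith
  have hcard : (0 : ℝ) < T.card := by exact_mod_cast hne.card_pos
  have hYc : T.card ≤ Y := by
    have := card_le_card hT
    rwa [Nat.card_Ioc, Nat.add_sub_cancel_left] at this
  have hYr : (T.card : ℝ) ≤ Y := by exact_mod_cast hYc
  have hY0 : (0 : ℝ) < Y := by linarith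
  obtain ⟨ℓ, hℓ⟩ : ∃ ℓ, ℓ = Real.log ((Y : ℝ) / T.card) := ⟨_, rfl⟩
  have hℓ0 : 0 ≤ ℓ := by
    rw [hℓ]
    apply Real.log_nonneg
    rw [one_le_div hcard]
    exact hYr
  rw [← hℓ] at hY
  have hwr : (0 : ℝ) ≤ w := Nat.cast_nonneg _
  have hℓw : ℓ ≤ w * (ε / (32 * Real.log w)) := by
    have h1 : 32 / ε * (1 + ℓ) * Real.log w ≤ w := by
      refine le_trans ?_ hY
      gcongr
    have h2 : w * (ε / (32 * Real.log w)) = w / (32 / ε * Real.log w) := by
      field_simp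
    rw [h2, le_div_iff₀ (by positivity)]
    have h3 : 0 ≤ 32 / ε * Real.log w := by positivity
    nlinarith
  -- the exponential inequality
  have hηl : ε / (8 * Real.log w) ≤ η := by
    rw [hη]
    apply div_le_div_of_nonneg_left hε.le (by positivity)
    linarith
  have hkey : (1 + η) * (Real.exp 2 * Y) ≤ η * (1 + η) ^ w * T.card := by
    have e1 : Real.exp (w * (η / 2)) ≤ (1 + η) ^ w := by
      rw [Real.exp_nat_mul]
      apply pow_le_pow_left₀ (Real.exp_pos _).le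
      have := Real.abs_exp_sub_one_sub_id_le (x := η / 2) (by rw [abs_of_pos (by positivity)]; linarith)
      have := (abs_le.1 this).2
      nlinarith
    have e2 : 3 + ℓ + Real.log (1 / η) ≤ w * (η / 2) := by
      have e3 : Real.log (1 / η) ≤ Real.log (8 * Real.log w / ε) := by
        apply Real.log_le_log (by positivity)
        have : 8 * Real.log w / ε = 1 / (ε / (8 * Real.log w)) := by field_simp
        rw [this]
        exact one_div_le_one_div_of_le (by positivity) hηl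
      have e4 : (w : ℝ) * (ε / (16 * Real.log w)) ≤ w * (η / 2) := by
        apply mul_le_mul_of_nonneg_left _ (Nat.cast_nonneg _)
        have : ε / (16 * Real.log w) = ε / (8 * Real.log w) / 2 := by
          field_simp
          norm_num
        rw [this]
        linarith
      have e10 : (w : ℝ) * (ε / (16 * Real.log w)) = w * (ε / (32 * Real.log w)) + w * (ε / (32 * Real.log w)) := by
        field_simp
        norm_num
      linarith
    have e5 : Real.exp (3 + ℓ + Real.log (1 / η)) = Real.exp 3 * (Y / T.card) * (1 / η) := by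
      rw [Real.exp_add, Real.exp_add, Real.exp_log (by positivity), hℓ, Real.exp_log (by positivity)]
    have e6 := (Real.exp_le_exp.2 e2).trans e1
    rw [e5] at e6
    have e7 : 2 * Real.exp 2 ≤ Real.exp 3 := by
      have : Real.exp 3 = Real.exp 1 * Real.exp 2 := by rw [← Real.exp_add]; norm_num
      rw [this]
      have h8 : (2 : ℝ) ≤ Real.exp 1 := by
        have := Real.add_one_le_exp (1 : ℝ)
        linarith
      exact mul_le_mul_of_nonneg_right h8 (Real.exp_pos _).le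
    have e8 : Real.exp 3 * (Y / T.card) * (1 / η) * (η * T.card) = Real.exp 3 * Y := by
      field_simp
    have e9 := mul_le_mul_of_nonneg_right e6 (mul_pos hη0 hcard).le
    rw [e8] at e9
    calc (1 + η) * (Real.exp 2 * Y) ≤ 2 * (Real.exp 2 * Y) := by
          apply mul_le_mul_of_nonneg_right (by linarith) (by positivity)
      _ = (2 * Real.exp 2) * Y := by ring
      _ ≤ Real.exp 3 * Y := mul_le_mul_of_nonneg_right e7 hY0.le
      _ ≤ (1 + η) ^ w * (η * T.card) := e9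
      _ = _ := by ring
  have hP : 0 < (1 + η) ^ w := by positivity
  have hone : ∀ t ∈ T, ∑ t' ∈ T.erase t, (hh z ((t' : ℤ) - t) - hh w ((t' : ℤ) - t)) ≤ ε * T.card := by
    intro t ht
    have h1 : ∑ t' ∈ T.erase t, (hh z ((t' : ℤ) - t) - hh w ((t' : ℤ) - t)) ≤
        ∑ t' ∈ T.erase t, (Vz w)⁻¹ * (η + (1 + η) / (1 + η) ^ w * fh w z ((t' : ℤ) - t) ^ w) := by
      refine sum_le_sum fun t' _ => ?_
      rw [hh_split hwz]
      have h2 := split_ineq (f := fh w z ((t' : ℤ) - t)) (one_le_fh _ _ _) hη0 (w := w) (by omega)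
      have h3 := one_le_fh w z ((t' : ℤ) - t)
      have h4 := hh_le w ((t' : ℤ) - t)
      have h5 := one_le_hh w ((t' : ℤ) - t)
      calc hh w ((t' : ℤ) - t) * fh w z ((t' : ℤ) - t) - hh w ((t' : ℤ) - t) =
            hh w ((t' : ℤ) - t) * (fh w z ((t' : ℤ) - t) - 1) := by ring
        _ ≤ (Vz w)⁻¹ * (fh w z ((t' : ℤ) - t) - 1) := by
            apply mul_le_mul_of_nonneg_right h4
            linarith
        _ ≤ _ := mul_le_mul_of_nonneg_left h2 hVi.le
    refine h1.trans ?_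
    rw [← mul_sum, sum_add_distrib, sum_const, nsmul_eq_mul, ← mul_sum]
    have h6 : ∑ t' ∈ T.erase t, fh w z ((t' : ℤ) - t) ^ w ≤ Y * Real.exp 2 := by
      refine le_trans ?_ (moment_lin (k := w) (w := w) (z := z) (by omega) le_rfl (hT ht))
      apply sum_le_sum_of_subset_of_nonneg (erase_subset_erase _ hT)
      intro t' _ _
      have := one_le_fh w z ((t' : ℤ) - t)
      positivity
    have h7 : (1 + η) / (1 + η) ^ w * ∑ t' ∈ T.erase t, fh w z ((t' : ℤ) - t) ^ w ≤ η * T.card := by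
      calc (1 + η) / (1 + η) ^ w * ∑ t' ∈ T.erase t, fh w z ((t' : ℤ) - t) ^ w ≤
            (1 + η) / (1 + η) ^ w * (Y * Real.exp 2) := mul_le_mul_of_nonneg_left h6 (by positivity)
        _ = ((1 + η) * (Real.exp 2 * Y)) / (1 + η) ^ w := by ring
        _ ≤ (η * (1 + η) ^ w * T.card) / (1 + η) ^ w := div_le_div_of_nonneg_right hkey hP.le
        _ = η * T.card := by field_simp
    have h8 : ((T.erase t).card : ℝ) * η ≤ T.card * η := by
      apply mul_le_mul_of_nonneg_right _ hη0.le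
      exact_mod_cast card_le_card (erase_subset _ _)
    calc (Vz w)⁻¹ * (((T.erase t).card : ℝ) * η + (1 + η) / (1 + η) ^ w * ∑ t' ∈ T.erase t, fh w z ((t' : ℤ) - t) ^ w) ≤
          (Vz w)⁻¹ * (2 * η * T.card) := by
          apply mul_le_mul_of_nonneg_left _ hVi.le
          linarith
      _ = ε * T.card := by
          rw [hη]
          generalize (Vz w)⁻¹ = V at hVi ⊢
          field_simp
  calc _ ≤ ∑ _t ∈ T, ε * (T.card : ℝ) := sum_le_sum hone
    _ = _ := by rw [sum_const, nsmul_eq_mul]; ring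

end Pool.Agent.V8H21.QB
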