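import Pool.Agent.V8H21.QB.Prime
import Pool.Agent.V8H21.QB.Avg

set_option autoImplicit false

/-! The mean deviation. -/

namespace Pool.Agent.V8H21.QB

open Finset
open Pool.Agent.H373R2.T7 (lamz Vz pz Vz_pos Vz_inv_small mem_pz lamz_nonneg ev_log' ev_L' Vz_le_one)


/-- the number of the arguments with a prime value -/
noncomputable def NP (a b c : ℕ) (T : Finset ℕ) : ℝ := ∑ t ∈ T, ip (a * t ^ 2 + b * t + c)

/-- the sum of the model -/
noncomputable def NZ (z a b c : ℕ) (T : Finset ℕ) : ℝ := ∑ t ∈ T, lamz z (a * t ^ 2 + b * t + c)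

lemma NP_nn (a b c : ℕ) (T : Finset ℕ) : 0 ≤ NP a b c T := sum_nonneg fun _ _ => ip_nn _

lemma NZ_nn (z a b c : ℕ) (T : Finset ℕ) : 0 ≤ NZ z a b c T := sum_nonneg fun _ _ => lamz_nonneg _ _

lemma amgm {e τ x : ℝ} (he : 0 < e) (hτ : 0 < τ) : |x| ≤ e * τ / 2 + x ^ 2 / (2 * e * τ) := by
  have h1 : 0 < e * τ := mul_pos he hτ
  have h2 : e * τ / 2 + x ^ 2 / (2 * e * τ) - |x| = (e * τ - |x|) ^ 2 / (2 * (e * τ)) := by
    have h3 : x ^ 2 = |x| ^ 2 := (sq_abs x).symm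
    rw [h3]
    field_simp
    ring
  have h4 : 0 ≤ (e * τ - |x|) ^ 2 / (2 * (e * τ)) := by positivity
  linarith

lemma l1_of_l2 {e τ R : ℝ} (he : 0 < e) (hτ : 0 < τ) (P : Finset ℕ) (Q : Finset ℕ) (X : ℕ → ℕ → ℝ)
    (hR : P.card * Q.card ≤ R) (h : ∑ b ∈ P, ∑ c ∈ Q, X b c ^ 2 ≤ e ^ 2 * τ ^ 2 * R) :
    ∑ b ∈ P, ∑ c ∈ Q, |X b c| ≤ e * τ * R := by
  have h0 : 0 ≤ e * τ / 2 := by positivity
  calc ∑ b ∈ P, ∑ c ∈ Q, |X b c| ≤ ∑ b ∈ P, ∑ c ∈ Q, (e * τ / 2 + X b c ^ 2 / (2 * e * τ)) :=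
        sum_le_sum fun b _ => sum_le_sum fun c _ => amgm he hτ
    _ = P.card * Q.card * (e * τ / 2) + (∑ b ∈ P, ∑ c ∈ Q, X b c ^ 2) / (2 * e * τ) := by
        simp only [sum_add_distrib, sum_const, nsmul_eq_mul, sum_div]
        ring
    _ ≤ R * (e * τ / 2) + e ^ 2 * τ ^ 2 * R / (2 * e * τ) := by
        apply add_le_add (mul_le_mul_of_nonneg_right hR h0)
        exact div_le_div_of_nonneg_right h (by positivity)
    _ = e * τ * R := by
        field_simp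
        ring

/-- the mean deviation -/
theorem core (E : ℕ) {ε : ℝ} (hε : 0 < ε) (hε1 : ε ≤ 1) : ∃ K H0 : ℕ, 2 ≤ K ∧ ∀ H : ℕ, H0 ≤ H → ∀ a B C N : ℕ, ∀ T : Finset ℕ,
    Box E a B C H N T → (∀ t ∈ T, (t : ℝ) ≤ Real.log H ^ E) → ∀ u Y : ℕ, T ⊆ Ioc u (u + Y) →
    K * Real.log H ≤ T.card → ∀ z : ℕ, K ≤ z → (z : ℝ) ≤ Real.log H ^ E →
    K * (1 + Real.log ((Y : ℝ) / T.card)) * Real.log z ≤ z →
    ∑ b ∈ Ioc B (B + H), ∑ c ∈ Ioc C (C + H), |Real.log H * NP a b c T - NZ z a b c T| ≤ ε * T.card * (H : ℝ) ^ 2 := by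
  obtain ⟨e, he⟩ : ∃ e, e = ε / 3 := ⟨_, rfl⟩
  have he0 : 0 < e := by rw [he]; positivity
  have he1 : e ≤ 1 := by rw [he]; linarith
  have hκ : 0 < e ^ 2 / 3 := by positivity
  obtain ⟨K1, hK1, hA⟩ := avg hκ (by nlinarith)
  obtain ⟨N1, h1⟩ := e4 E he0
  obtain ⟨N2, h2⟩ := second1 (E + 1)
  obtain ⟨N3, h3⟩ := second2 (E + 1)
  obtain ⟨N4, h4⟩ := ev_L' (2 + 3 / e ^ 2)
  obtain ⟨K2, hK2⟩ := exists_nat_ge (18 / e ^ 2)
  refine ⟨K1 + K2, N1 + N2 + N3 + N4 + 1, by omega, fun H hH a B C N T hbox hTE u Y hTu hTc z hKz hzE hY => ?_⟩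
  have c4 := h4 H (by omega)
  have hH0 : (0 : ℝ) < H := by exact_mod_cast (by omega : 0 < H)
  obtain ⟨L, hL⟩ : ∃ L, L = Real.log (H : ℝ) := ⟨_, rfl⟩
  rw [← hL] at c4 hTE hTc hzE ⊢
  have h3e : 0 < 3 / e ^ 2 := by positivity
  have hL2 : 2 ≤ L := by linarith
  have hL0 : 0 < L := by linarith
  have hKr : (1 : ℝ) ≤ ((K1 + K2 : ℕ) : ℝ) := by exact_mod_cast (by omega : 1 ≤ K1 + K2)
  have hTc0 : (0 : ℝ) < T.card := by
    have : 0 < ((K1 + K2 : ℕ) : ℝ) * L := by positivity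
    linarith
  have hne : T.Nonempty := card_pos.1 (by exact_mod_cast hTc0)
  -- the large parameter
  obtain ⟨Z, hZ⟩ : ∃ Z : ℕ, Z = ⌈L ^ E⌉₊ := ⟨_, rfl⟩
  have hZge : L ^ E ≤ Z := by rw [hZ]; exact Nat.le_ceil _
  have hZle : (Z : ℝ) ≤ L ^ (E + 1) := by
    have h5 : (Z : ℝ) < L ^ E + 1 := by rw [hZ]; exact Nat.ceil_lt_add_one (by positivity)
    have h6 : 1 ≤ L ^ E := one_le_pow₀ (by linarith)
    have h7 : L ^ (E + 1) = L ^ E * L := pow_succ _ _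
    nlinarith
  have hzZ : z ≤ Z := by
    have : (z : ℝ) ≤ Z := hzE.trans hZge
    exact_mod_cast this
  have hz1 : 1 ≤ z := by omega
  have hTZ : ∀ t ∈ T, t ≤ Z := by
    intro t ht
    have : (t : ℝ) ≤ Z := (hTE t ht).trans hZge
    exact_mod_cast this
  have hbox' : Box (E + 1) a B C H N T := by
    obtain ⟨b1, b2, b3, b4⟩ := hbox
    rw [← hL] at b2
    refine ⟨b1, ?_, b3, b4⟩
    rw [← hL]
    refine b2.trans ?_
    apply mul_le_mul_of_nonneg_left _ hH0.le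
    exact pow_le_pow_right₀ (by linarith) (Nat.le_succ _)
  have s1 := h1 H (by omega) a B C N T hbox
  have s2 := h2 H (by omega) a B C N T hbox' Z (by omega) (by rw [← hL]; exact hZle) hTZ
  have s3 := h3 H (by omega) a B C N T hbox' z Z hz1 hzZ (by rw [← hL]; exact hZle)
  have s4 := hA z Z (by omega) hzZ u Y T hTu hne (by
    refine le_trans ?_ hY
    have hY1 : 0 ≤ 1 + Real.log ((Y : ℝ) / T.card) := by
      have hYc : T.card ≤ Y := by
        have := card_le_card hTu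
        rwa [Nat.card_Ioc, Nat.add_sub_cancel_left] at this
      have : (1 : ℝ) ≤ Y / T.card := by
        rw [one_le_div hTc0]
        exact_mod_cast hYc
      have := Real.log_nonneg this
      linarith
    have hz0 : 0 ≤ Real.log (z : ℝ) := Real.log_natCast_nonneg _
    have : (K1 : ℝ) ≤ ((K1 + K2 : ℕ) : ℝ) := by exact_mod_cast Nat.le_add_right _ _
    gcongr)
  rw [← hL] at s1 s2 s3
  have hsmall : 6 * L * T.card + (T.card : ℝ) ^ 2 / L ≤ 2 * (e ^ 2 / 3) * (T.card : ℝ) ^ 2 := by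
    have k1 : 6 * L * T.card ≤ e ^ 2 / 3 * (T.card : ℝ) ^ 2 := by
      have k2 : 18 / e ^ 2 * L ≤ T.card := by
        refine le_trans ?_ hTc
        apply mul_le_mul_of_nonneg_right _ hL0.le
        push_cast
        have : (0 : ℝ) ≤ K1 := Nat.cast_nonneg _
        linarith
      calc 6 * L * T.card = e ^ 2 / 3 * (18 / e ^ 2 * L) * T.card := by
            field_simp
            ring
        _ ≤ e ^ 2 / 3 * T.card * T.card := by gcongr
        _ = _ := by ring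
    have k3 : (T.card : ℝ) ^ 2 / L ≤ e ^ 2 / 3 * (T.card : ℝ) ^ 2 := by
      rw [div_le_iff₀ hL0]
      have k4 : 3 / e ^ 2 ≤ L := by linarith
      rw [div_le_iff₀ (by positivity)] at k4
      have k5 : 1 ≤ e ^ 2 / 3 * L := by linarith
      have k6 : 0 ≤ (T.card : ℝ) ^ 2 := by positivity
      nlinarith
    linarith
  have hcards : (((Ioc B (B + H)).card : ℝ)) * ((Ioc C (C + H)).card : ℝ) ≤ (H : ℝ) ^ 2 := by
    rw [Nat.card_Ioc, Nat.card_Ioc, Nat.add_sub_cancel_left, Nat.add_sub_cancel_left, sq]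
  have hHH : 0 ≤ (H : ℝ) ^ 2 := by positivity
  have m2 := l1_of_l2 he0 hTc0 (Ioc B (B + H)) (Ioc C (C + H)) (fun b c => ∑ t ∈ T, gd Z (a * t ^ 2 + b * t + c)) hcards (by
    refine s2.trans ?_
    have : 6 * L * T.card + (T.card : ℝ) ^ 2 / L ≤ e ^ 2 * (T.card : ℝ) ^ 2 := by
      have : 0 ≤ e ^ 2 / 3 * (T.card : ℝ) ^ 2 := by positivity
      linarith
    calc (H : ℝ) ^ 2 * (6 * L * T.card + (T.card : ℝ) ^ 2 / L) ≤ (H : ℝ) ^ 2 * (e ^ 2 * (T.card : ℝ) ^ 2) := by gcongr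
      _ = _ := by ring)
  have m3 := l1_of_l2 he0 hTc0 (Ioc B (B + H)) (Ioc C (C + H))
    (fun b c => ∑ t ∈ T, (lamz Z (a * t ^ 2 + b * t + c) - lamz z (a * t ^ 2 + b * t + c))) hcards (by
    refine s3.trans ?_
    have : 6 * L * T.card + (T.card : ℝ) ^ 2 / L + ∑ t ∈ T, ∑ t' ∈ T.erase t, (hh Z ((t' : ℤ) - t) - hh z ((t' : ℤ) - t)) ≤
        e ^ 2 * (T.card : ℝ) ^ 2 := by linarith
    calc _ ≤ (H : ℝ) ^ 2 * (e ^ 2 * (T.card : ℝ) ^ 2) := by gcongr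
      _ = _ := by ring)
  calc ∑ b ∈ Ioc B (B + H), ∑ c ∈ Ioc C (C + H), |L * NP a b c T - NZ z a b c T| ≤
        ∑ b ∈ Ioc B (B + H), ∑ c ∈ Ioc C (C + H), ((∑ t ∈ T, |ArithmeticFunction.vonMangoldt (a * t ^ 2 + b * t + c) - L * ip (a * t ^ 2 + b * t + c)|) +
          |∑ t ∈ T, gd Z (a * t ^ 2 + b * t + c)| +
          |∑ t ∈ T, (lamz Z (a * t ^ 2 + b * t + c) - lamz z (a * t ^ 2 + b * t + c))|) := by
        refine sum_le_sum fun b _ => sum_le_sum fun c _ => ?_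
        have k1 : L * NP a b c T - NZ z a b c T = -(∑ t ∈ T, (ArithmeticFunction.vonMangoldt (a * t ^ 2 + b * t + c) - L * ip (a * t ^ 2 + b * t + c))) +
            ∑ t ∈ T, gd Z (a * t ^ 2 + b * t + c) +
            ∑ t ∈ T, (lamz Z (a * t ^ 2 + b * t + c) - lamz z (a * t ^ 2 + b * t + c)) := by
          unfold NP NZ gd
          rw [mul_sum, ← sum_neg_distrib, ← sum_add_distrib, ← sum_add_distrib, ← sum_sub_distrib]
          refine sum_congr rfl fun t _ => ?_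
          ring
        rw [k1]
        refine (abs_add_le _ _).trans (add_le_add ((abs_add_le _ _).trans (add_le_add ?_ le_rfl)) le_rfl)
        rw [abs_neg]
        exact abs_sum_le_sum_abs _ _
    _ = ∑ b ∈ Ioc B (B + H), ∑ c ∈ Ioc C (C + H), (∑ t ∈ T, |ArithmeticFunction.vonMangoldt (a * t ^ 2 + b * t + c) - L * ip (a * t ^ 2 + b * t + c)|) +
          ∑ b ∈ Ioc B (B + H), ∑ c ∈ Ioc C (C + H), |∑ t ∈ T, gd Z (a * t ^ 2 + b * t + c)| +
          ∑ b ∈ Ioc B (B + H), ∑ c ∈ Ioc C (C + H), |∑ t ∈ T, (lamz Z (a * t ^ 2 + b * t + c) - lamz z (a * t ^ 2 + b * t + c))| := by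
        simp only [sum_add_distrib]
    _ ≤ e * T.card * (H : ℝ) ^ 2 + e * T.card * (H : ℝ) ^ 2 + e * T.card * (H : ℝ) ^ 2 := add_le_add (add_le_add s1 m2) m3
    _ = ε * T.card * (H : ℝ) ^ 2 := by
        rw [he]
        ring

end Pool.Agent.V8H21.QB
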