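import Pool.Agent.V8H21.QB.Pair

set_option autoImplicit false

/-! The second moments over the pairs `(b, c)`. -/

namespace Pool.Agent.V8H21.QB

open Finset
open Pool.Agent.H373R2.T7 (lamz Vz pz Vz_pos Vz_inv_small mem_pz lamz_nonneg PerB nuB sys_count ev_log' ev_L' Vz_le_one lam_ap lamz_ap)
open Pool.Agent.V8H21.SQ (fac_pos one_le_fac fh pw mem_pw)


/-- the difference -/
noncomputable def gd (z n : ℕ) : ℝ := ArithmeticFunction.vonMangoldt n - lamz z n

lemma nat_to_int (G : ℕ → ℝ) (r C H : ℕ) : ∑ c ∈ Ioc C (C + H), G (r + c) =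
    ∑ c ∈ Ioc (C : ℤ) ((C : ℤ) + H), G ((r : ℤ) + c * 1).toNat := by
  apply sum_nbij' (fun c : ℕ => (c : ℤ)) (fun c : ℤ => c.toNat)
  · intro c hc
    rw [mem_Ioc] at hc ⊢
    omega
  · intro c hc
    rw [mem_Ioc] at hc ⊢
    omega
  · intro c _
    exact Int.toNat_natCast c
  · intro c hc
    rw [mem_Ioc] at hc
    exact Int.toNat_of_nonneg (by omega)
  · intro c _
    congr 1
    omega

/-- the difference in progressions -/
lemma gd_ap (E U : ℕ) : ∃ N0 : ℕ, ∀ N : ℕ, N0 ≤ N → ∀ z : ℕ, 1 ≤ z → (z : ℝ) ≤ Real.log N ^ E →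
    ∀ q : ℕ, 1 ≤ q → q ≤ z → ∀ c y : ℕ, y ≤ N →
    |∑ n ∈ (Icc 1 y).filter (fun n => n ≡ c [MOD q]), gd z n| ≤ 2 * (N / Real.log N ^ U) := by
  obtain ⟨N1, h1⟩ := lam_ap E U
  obtain ⟨N2, h2⟩ := lamz_ap E U
  refine ⟨N1 + N2, fun N hN z hz hzE q hq hqz c y hy => ?_⟩
  have a1 := h1 N (by omega) q hq ((Nat.cast_le.2 hqz).trans hzE) c y hy
  have a2 := h2 N (by omega) z hz hzE q hq hqz c y hy
  unfold gd
  rw [sum_sub_distrib]
  rw [abs_le] at a1 a2 ⊢
  constructor <;> linarith [a1.1, a1.2, a2.1, a2.2]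

/-- the sums of the functions over short intervals and over all numbers -/
lemma sums_bd (E : ℕ) : ∃ H0 : ℕ, ∀ H : ℕ, H0 ≤ H → ∀ N : ℕ, H ≤ N → (N : ℝ) ≤ H * Real.log H ^ E →
    Real.log N ≤ 2 * Real.log H ∧
    ∀ z : ℕ, 1 ≤ z → (z : ℝ) ≤ Real.log H ^ E →
    (Vz z)⁻¹ ≤ Real.log H ∧
    (∑ n ∈ Icc 1 N, |gd z n| ≤ 3 * N) ∧
    (∑ n ∈ Icc 1 N, |lamz z n| ≤ 2 * N) ∧
    (∀ r C : ℕ, |∑ c ∈ Ioc C (C + H), lamz z (r + c) - H| ≤ H / Real.log H ^ 3) ∧
    (∀ r C : ℕ, r + (C + H) ≤ N → ∑ c ∈ Ioc C (C + H), ArithmeticFunction.vonMangoldt (r + c) ≤ 2 * H) := by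
  classical
  obtain ⟨N1, h1⟩ := gd_ap E (E + 3)
  obtain ⟨N2, h2⟩ := apw E 3
  obtain ⟨N3, h3⟩ := ev_L' 8
  obtain ⟨N4, h4⟩ := Vz_inv_small E
  obtain ⟨N5, h5⟩ := lam_ap 0 1
  obtain ⟨N6, h6⟩ := ev_log' E 1
  refine ⟨N1 + N2 + N3 + N4 + N5 + N6 + 4, fun H hH N hHN hNE => ?_⟩
  have c3 := h3 H (by omega)
  have c6 := h6 H (by omega)
  have hH0 : (0 : ℝ) < H := by exact_mod_cast (by omega : 0 < H)
  have hHNr : (H : ℝ) ≤ N := by exact_mod_cast hHN
  have hN0 : (0 : ℝ) < N := by linarith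
  have hL8 : 8 ≤ Real.log H := by linarith
  have hlogN : Real.log H ≤ Real.log N := Real.log_le_log hH0 hHNr
  have hss : √(H : ℝ) * √(H : ℝ) = H := Real.mul_self_sqrt hH0.le
  have hs1 : √(H : ℝ) ≤ H := by
    rw [Real.sqrt_le_left hH0.le]
    nlinarith [(by exact_mod_cast (by omega : 1 ≤ H) : (1 : ℝ) ≤ H)]
  have hlogN2 : Real.log N ≤ 2 * Real.log H := by
    have : (N : ℝ) ≤ (H : ℝ) ^ 2 := by
      calc (N : ℝ) ≤ H * Real.log H ^ E := hNE
        _ ≤ H * H := by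
            apply mul_le_mul_of_nonneg_left _ hH0.le
            linarith
        _ = _ := by ring
    calc Real.log N ≤ Real.log ((H : ℝ) ^ 2) := Real.log_le_log hN0 this
      _ = 2 * Real.log H := by rw [Real.log_pow]; norm_num
  refine ⟨hlogN2, fun z hz hzE => ?_⟩
  have hzN : (z : ℝ) ≤ Real.log N ^ E := hzE.trans (pow_le_pow_left₀ (by linarith) hlogN E)
  have hV := h4 H (by omega) z hz hzE
  have hone : ∀ q : ℤ, q = 1 → hh z q = 1 := by
    intro q hq
    unfold hh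
    rw [filter_false_of_mem, prod_empty]
    intro p hp hd
    rw [hq] at hd
    have := (mem_pz.1 hp).2
    have h7 : p ∣ 1 := by exact_mod_cast hd
    exact this.one_lt.ne' (Nat.dvd_one.1 h7)
  -- short interval sums of the model
  have hI : ∀ r C M : ℕ, H ≤ M → |∑ c ∈ Ioc C (C + M), lamz z (r + c) - M| ≤ M / Real.log M ^ 3 := by
    intro r C M hM
    have hzM : (z : ℝ) ≤ Real.log M ^ E :=
      hzE.trans (pow_le_pow_left₀ (by linarith) (Real.log_le_log hH0 (by exact_mod_cast hM)) E)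
    have h7 := h2 M (by omega) z hz hzM 1 r C (C + M) (by linarith) (by
      intro p hp hd
      exfalso
      have := (mem_pz.1 hp).2
      have h7 : p ∣ 1 := by exact_mod_cast hd
      exact this.one_lt.ne' (Nat.dvd_one.1 h7)) (by
      intro b hb
      rw [mem_Ioc] at hb
      omega)
    rw [sum_sub_distrib, sum_const, hone 1 rfl, Int.card_Ioc, nsmul_eq_mul, mul_one] at h7
    rw [nat_to_int]
    have e1 : (((C : ℤ) + M - C).toNat : ℝ) = M := by
      have : ((C : ℤ) + M - C).toNat = M := by omega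
      rw [this]
    rw [e1] at h7
    exact h7
  have hI2 : ∀ r C : ℕ, |∑ c ∈ Ioc C (C + H), lamz z (r + c) - H| ≤ H / Real.log H ^ 3 := fun r C => hI r C H le_rfl
  have hEq : ∀ (g : ℕ → ℝ) (y : ℕ), ∑ n ∈ (Icc 1 y).filter (fun n => n ≡ 0 [MOD 1]), g n = ∑ n ∈ Icc 1 y, g n := by
    intro g y
    rw [filter_true_of_mem]
    intro n _
    exact Nat.modEq_one
  have hlzN : ∑ n ∈ Icc 1 N, |lamz z n| ≤ N + N / Real.log N ^ 3 := by
    have h8 := hI 0 0 N hHN
    have e2 : ∑ c ∈ Ioc 0 (0 + N), lamz z (0 + c) = ∑ n ∈ Icc 1 N, |lamz z n| := by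
      rw [zero_add]
      refine sum_congr rfl fun n _ => ?_
      rw [zero_add, abs_of_nonneg (lamz_nonneg _ _)]
    rw [e2] at h8
    linarith [(abs_le.1 h8).2]
  have hlz2 : ∑ n ∈ Icc 1 N, |lamz z n| ≤ 3 / 2 * N := by
    refine hlzN.trans ?_
    have : (N : ℝ) / Real.log N ^ 3 ≤ 1 / 2 * N := by
      have hlN0 : 0 < Real.log N := by linarith
      rw [div_le_iff₀ (pow_pos hlN0 3)]
      have h9 : (2 : ℝ) ≤ Real.log N ^ 3 := by
        calc (2 : ℝ) ≤ 8 ^ 3 := by norm_num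
          _ ≤ _ := pow_le_pow_left₀ (by norm_num) (by linarith) 3
      nlinarith
    linarith
  refine ⟨hV, ?_, by linarith, hI2, ?_⟩
  · have h8 := h5 N (by omega) 1 le_rfl (by simp) 0 N le_rfl
    rw [hEq, if_pos (by simp), Nat.totient_one, Nat.cast_one, div_one, pow_one] at h8
    have h9 : (N : ℝ) / Real.log N ≤ 1 / 2 * N := by
      rw [div_le_iff₀ (by linarith)]
      nlinarith
    have h10 : ∑ n ∈ Icc 1 N, |gd z n| ≤ ∑ n ∈ Icc 1 N, (ArithmeticFunction.vonMangoldt n + |lamz z n|) := by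
      refine sum_le_sum fun n _ => ?_
      unfold gd
      refine (abs_sub _ _).trans ?_
      rw [abs_of_nonneg ArithmeticFunction.vonMangoldt_nonneg]
    rw [sum_add_distrib] at h10
    linarith [(abs_le.1 h8).2]
  · intro r C hr
    have h8 := h1 N (by omega) z hz hzN 1 le_rfl hz
    have h9 := ap_pos (g := gd z) (N := N) (q := 1) le_rfl h8 r C (C + H) (by
      intro b hb
      rw [mem_Ioc] at hb
      push_cast
      constructor
      · omega
      · have : ((r + (C + H) : ℕ) : ℤ) ≤ N := by exact_mod_cast hr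
        push_cast at this
        linarith)
    have e1 : ∑ c ∈ Ioc C (C + H), gd z (r + c) = ∑ b ∈ Ioc (C : ℤ) (C + H), gd z ((r : ℤ) + b * ((1 : ℕ) : ℤ)).toNat := by
      rw [nat_to_int]
      simp
    rw [← e1] at h9
    have h10 := (abs_le.1 h9).2
    have h11 := (abs_le.1 (hI2 r C)).2
    have h12 : ∑ c ∈ Ioc C (C + H), ArithmeticFunction.vonMangoldt (r + c) = ∑ c ∈ Ioc C (C + H), gd z (r + c) + ∑ c ∈ Ioc C (C + H), lamz z (r + c) := by
      rw [← sum_add_distrib]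
      refine sum_congr rfl fun c _ => ?_
      unfold gd
      ring
    rw [h12]
    obtain ⟨L, hL⟩ : ∃ L, L = Real.log (H : ℝ) := ⟨_, rfl⟩
    rw [← hL] at hL8 hlogN h11 hNE
    have h13 : 2 * (2 * ((N : ℝ) / Real.log N ^ (E + 3))) ≤ 4 * (H / L ^ 3) := by
      have : (N : ℝ) / Real.log N ^ (E + 3) ≤ H / L ^ 3 := by
        calc (N : ℝ) / Real.log N ^ (E + 3) ≤ (H * L ^ E) / L ^ (E + 3) := by
              apply div_le_div₀ (by positivity) hNE (by positivity)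
              exact pow_le_pow_left₀ (by linarith) hlogN _
          _ = H / L ^ 3 := by
              rw [pow_add]
              field_simp
      linarith
    have h14 : (H : ℝ) / L ^ 3 ≤ 1 / 10 * H := by
      rw [div_le_iff₀ (by positivity)]
      have h9 : (10 : ℝ) ≤ L ^ 3 := by
        calc (10 : ℝ) ≤ 8 ^ 3 := by norm_num
          _ ≤ _ := pow_le_pow_left₀ (by norm_num) (by linarith) 3
      nlinarith
    linarith

end Pool.Agent.V8H21.QB
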