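import Pool.Agent.V8H21.QB.Eng

set_option autoImplicit false

/-! The second moments over the pairs `(b, c)`. -/

namespace Pool.Agent.V8H21.QB

open Finset
open Pool.Agent.H373R2.T7 (lamz Vz pz Vz_pos Vz_inv_small mem_pz lamz_nonneg PerB nuB sys_count ev_log' ev_L' Vz_le_one lam_ap lamz_ap)
open Pool.Agent.V8H21.SQ (fac_pos one_le_fac fh pw mem_pw)


/-- the double sum -/
noncomputable def PS (a B C H t t' : ℕ) (G1 G2 : ℕ → ℝ) : ℝ :=
  ∑ b ∈ Ioc B (B + H), ∑ c ∈ Ioc C (C + H), G1 (a * t ^ 2 + b * t + c) * G2 (a * t' ^ 2 + b * t' + c)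

lemma PS_comm (a B C H t t' : ℕ) (G1 G2 : ℕ → ℝ) : PS a B C H t t' G1 G2 = PS a B C H t' t G2 G1 := by
  unfold PS
  refine sum_congr rfl fun b _ => sum_congr rfl fun c _ => ?_
  ring

/-- `H` is large, `N ≤ H (log H) ^ E` is a bound for the values -/
structure Box (E a B C H N : ℕ) (T : Finset ℕ) : Prop where
  hHN : H ≤ N
  hN : (N : ℝ) ≤ H * Real.log H ^ E
  hT : ∀ t ∈ T, 1 ≤ t
  val : ∀ t ∈ T, ∀ b ∈ Ioc B (B + H), ∀ c ∈ Ioc C (C + H), a * t ^ 2 + b * t + c ≤ N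

theorem pair1 (E : ℕ) : ∃ H0 : ℕ, ∀ H : ℕ, H0 ≤ H → ∀ a B C N : ℕ, ∀ T : Finset ℕ, Box E a B C H N T →
    ∀ z : ℕ, 1 ≤ z → (z : ℝ) ≤ Real.log H ^ E → (∀ t ∈ T, t ≤ z) →
    ∀ t ∈ T, ∀ t' ∈ T, t ≠ t' → |PS a B C H t t' (gd z) (gd z)| ≤ (H : ℝ) ^ 2 / Real.log H := by
  obtain ⟨N1, h1⟩ := gd_ap E (2 * E + 3)
  obtain ⟨N2, h2⟩ := sums_bd E
  obtain ⟨N3, h3⟩ := ev_L' 12
  refine ⟨N1 + N2 + N3 + 1, fun H hH a B C N T hbox z hz hzE hTz t ht t' ht' htt => ?_⟩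
  obtain ⟨hHN, hNE, hT1, hval⟩ := hbox
  obtain ⟨-, hb2⟩ := h2 H (by omega) N hHN hNE
  obtain ⟨-, b1, -, -, -⟩ := hb2 z hz hzE
  have c3 := h3 H (by omega)
  have hH0 : (0 : ℝ) < H := by exact_mod_cast (by omega : 0 < H)
  have hHNr : (H : ℝ) ≤ N := by exact_mod_cast hHN
  have hN0 : (0 : ℝ) < N := by linarith
  have hlogN : Real.log H ≤ Real.log N := Real.log_le_log hH0 hHNr
  have hzN : (z : ℝ) ≤ Real.log N ^ E := hzE.trans (pow_le_pow_left₀ (by linarith) hlogN E)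
  have hq : ((t' : ℤ) - t) ≠ 0 := by
    intro h
    apply htt
    omega
  have hqz : ((t' : ℤ) - t).natAbs ≤ z := by
    have := hTz t ht
    have := hTz t' ht'
    omega
  have hap := h1 N (by omega) z hz hzN ((t' : ℤ) - t).natAbs (Int.natAbs_pos.2 hq) hqz
  have key := ps_le (a := a) (B := B) (C := C) (H := H) (N := N) (t := t) (t' := t') (hT1 t ht) (gd z) (gd z)
    (D := 2 * (2 * (N / Real.log N ^ (2 * E + 3)))) (hval t ht) (hval t' ht') (by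
      intro n _ _ u v _ hr
      exact ap_int hq hap _ u v hr)
  refine key.trans ?_
  obtain ⟨L, hL⟩ : ∃ L, L = Real.log (H : ℝ) := ⟨_, rfl⟩
  rw [← hL] at c3 hlogN hNE ⊢
  have hL0 : 0 < L := by linarith
  have h5 : (N : ℝ) / Real.log N ^ (2 * E + 3) ≤ N / L ^ (2 * E + 3) := by
    apply div_le_div_of_nonneg_left hN0.le (by positivity)
    exact pow_le_pow_left₀ hL0.le hlogN _
  calc 2 * (2 * ((N : ℝ) / Real.log N ^ (2 * E + 3))) * ∑ n ∈ Icc 1 N, |gd z n| ≤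
        2 * (2 * ((N : ℝ) / L ^ (2 * E + 3))) * (3 * N) := by
          apply mul_le_mul _ b1 (sum_nonneg fun _ _ => abs_nonneg _) (by positivity)
          linarith
    _ = 12 * (N ^ 2 / L ^ (2 * E + 3)) := by ring
    _ ≤ 12 * ((H * L ^ E) ^ 2 / L ^ (2 * E + 3)) := by gcongr
    _ = 12 * (H ^ 2 / L ^ 3) := by
          have : L ^ (2 * E + 3) = (L ^ E) ^ 2 * L ^ 3 := by rw [pow_add, pow_mul, ← pow_mul, ← pow_mul, mul_comm 2 E]
          rw [this]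
          field_simp
    _ ≤ H ^ 2 / L := by
          rw [mul_div_assoc', div_le_div_iff₀ (by positivity) hL0]
          have : 12 * L ≤ L ^ 3 := by nlinarith [mul_self_nonneg L]
          calc 12 * (H : ℝ) ^ 2 * L = H ^ 2 * (12 * L) := by ring
            _ ≤ H ^ 2 * L ^ 3 := by gcongr

/-- replacing the model at the other argument by its mean along the progression -/
lemma mean_out (E : ℕ) : ∃ H0 : ℕ, ∀ H : ℕ, H0 ≤ H → ∀ a B C N : ℕ, ∀ T : Finset ℕ, Box E a B C H N T →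
    ∀ w z : ℕ, 1 ≤ w → w ≤ z → (z : ℝ) ≤ Real.log H ^ E →
    ∀ t ∈ T, ∀ t' ∈ T, ∀ y : ℕ, (y = z ∨ y = w) → ∀ y' : ℕ, (y' = w ∨ (y' = z ∧ y = z)) →
    |PS a B C H t t' (lamz y) (fun n => lamz y' n - hh y' ((t' : ℤ) - t))| ≤ 2 * ((H : ℝ) ^ 2 / Real.log H ^ 3) := by
  obtain ⟨N1, h1⟩ := apw E (E + 3)
  obtain ⟨N2, h2⟩ := sums_bd E
  obtain ⟨N3, h3⟩ := ev_L' 8
  refine ⟨N1 + N2 + N3 + 1, fun H hH a B C N T hbox w z hw hwz hzE t ht t' ht' y hy y' hy' => ?_⟩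
  obtain ⟨hHN, hNE, hT1, hval⟩ := hbox
  obtain ⟨-, hb2⟩ := h2 H (by omega) N hHN hNE
  have hwE : (w : ℝ) ≤ Real.log H ^ E := le_trans (by exact_mod_cast hwz) hzE
  have hyz : y' ≤ y := by
    rcases hy with h | h <;> rcases hy' with h' | ⟨h', h''⟩ <;> omega
  have hy1 : 1 ≤ y := by rcases hy with h | h <;> omega
  have hy1' : 1 ≤ y' := by rcases hy' with h' | ⟨h', h''⟩ <;> omega
  have hyE : (y : ℝ) ≤ Real.log H ^ E := by
    rcases hy with h | h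
    · rw [h]; exact hzE
    · rw [h]; exact hwE
  have hyE' : (y' : ℝ) ≤ Real.log H ^ E := le_trans (by exact_mod_cast hyz) hyE
  obtain ⟨-, -, b1, -, -⟩ := hb2 y hy1 hyE
  have c3 := h3 H (by omega)
  have hH0 : (0 : ℝ) < H := by exact_mod_cast (by omega : 0 < H)
  have hHNr : (H : ℝ) ≤ N := by exact_mod_cast hHN
  have hN0 : (0 : ℝ) < N := by linarith
  have key := ps_le (a := a) (B := B) (C := C) (H := H) (N := N) (t := t) (t' := t') (hT1 t ht) (lamz y)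
    (fun n => lamz y' n - hh y' ((t' : ℤ) - t))
    (D := H / Real.log H ^ (E + 3)) (hval t ht) (hval t' ht') (by
      intro n _ hn u v huv hr
      apply h1 H (by omega) y' hy1' hyE' ((t' : ℤ) - t) ((n : ℤ) + a * ((t' : ℤ) ^ 2 - t ^ 2)) u v huv
      · intro p hp hd hr2
        have h4 : ∀ p ∈ pz y, ¬ p ∣ n := by
          by_contra hcon
          apply hn
          unfold lamz
          rw [if_neg hcon]
        have hp2 : p ∈ pz y := by
          rw [mem_pz] at hp ⊢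
          exact ⟨hp.1.trans hyz, hp.2⟩
        apply h4 p hp2
        have h5 : (p : ℤ) ∣ a * ((t' : ℤ) ^ 2 - t ^ 2) := by
          have : (a : ℤ) * ((t' : ℤ) ^ 2 - t ^ 2) = ((t' : ℤ) - t) * (a * ((t' : ℤ) + t)) := by ring
          rw [this]
          exact hd.mul_right _
        have h6 := dvd_sub hr2 h5
        rw [add_sub_cancel_right] at h6
        exact_mod_cast h6
      · intro b hb
        exact (hr b hb).1)
  refine key.trans ?_
  obtain ⟨L, hL⟩ : ∃ L, L = Real.log (H : ℝ) := ⟨_, rfl⟩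
  rw [← hL] at c3 hNE ⊢
  have hL0 : 0 < L := by linarith
  calc (H : ℝ) / L ^ (E + 3) * ∑ n ∈ Icc 1 N, |lamz y n| ≤ (H : ℝ) / L ^ (E + 3) * (2 * N) := by gcongr
    _ ≤ (H : ℝ) / L ^ (E + 3) * (2 * (H * L ^ E)) := by gcongr
    _ = 2 * ((H : ℝ) ^ 2 / L ^ 3) := by
        rw [pow_add]
        field_simp

/-- the sum over the box of the model -/
lemma sum_model (E : ℕ) : ∃ H0 : ℕ, ∀ H : ℕ, H0 ≤ H → ∀ N : ℕ, H ≤ N → (N : ℝ) ≤ H * Real.log H ^ E →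
    ∀ z : ℕ, 1 ≤ z → (z : ℝ) ≤ Real.log H ^ E → ∀ a B C t : ℕ,
    |∑ b ∈ Ioc B (B + H), ∑ c ∈ Ioc C (C + H), lamz z (a * t ^ 2 + b * t + c) - (H : ℝ) ^ 2| ≤ (H : ℝ) ^ 2 / Real.log H ^ 3 := by
  obtain ⟨N2, h2⟩ := sums_bd E
  refine ⟨N2, fun H hH N hHN hNE z hz hzE a B C t => ?_⟩
  obtain ⟨-, hb2⟩ := h2 H (by omega) N hHN hNE
  obtain ⟨-, -, -, b1, -⟩ := hb2 z hz hzE
  have e : ∑ b ∈ Ioc B (B + H), ∑ c ∈ Ioc C (C + H), lamz z (a * t ^ 2 + b * t + c) - (H : ℝ) ^ 2 =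
      ∑ b ∈ Ioc B (B + H), (∑ c ∈ Ioc C (C + H), lamz z (a * t ^ 2 + b * t + c) - H) := by
    rw [sum_sub_distrib, sum_const, nsmul_eq_mul, Nat.card_Ioc, Nat.add_sub_cancel_left]
    ring
  rw [e]
  refine (abs_sum_le_sum_abs _ _).trans ?_
  calc ∑ b ∈ Ioc B (B + H), |∑ c ∈ Ioc C (C + H), lamz z (a * t ^ 2 + b * t + c) - H| ≤
        ∑ b ∈ Ioc B (B + H), (H : ℝ) / Real.log H ^ 3 := sum_le_sum fun b _ => b1 (a * t ^ 2 + b * t) C
    _ = _ := by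
        rw [sum_const, nsmul_eq_mul, Nat.card_Ioc, Nat.add_sub_cancel_left]
        ring

lemma hh_neg (w : ℕ) (q : ℤ) : hh w (-q) = hh w q := by
  unfold hh
  simp only [dvd_neg]

theorem pair2 (E : ℕ) : ∃ H0 : ℕ, ∀ H : ℕ, H0 ≤ H → ∀ a B C N : ℕ, ∀ T : Finset ℕ, Box E a B C H N T →
    ∀ w z : ℕ, 1 ≤ w → w ≤ z → (z : ℝ) ≤ Real.log H ^ E →
    ∀ t ∈ T, ∀ t' ∈ T,
    |PS a B C H t t' (fun n => lamz z n - lamz w n) (fun n => lamz z n - lamz w n) -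
      (H : ℝ) ^ 2 * (hh z ((t' : ℤ) - t) - hh w ((t' : ℤ) - t))| ≤ (H : ℝ) ^ 2 / Real.log H := by
  obtain ⟨N1, h1⟩ := mean_out E
  obtain ⟨N2, h2⟩ := sum_model E
  obtain ⟨N3, h3⟩ := ev_L' 8
  obtain ⟨N4, h4⟩ := Vz_inv_small E
  refine ⟨N1 + N2 + N3 + N4 + 1, fun H hH a B C N T hbox w z hw hwz hzE t ht t' ht' => ?_⟩
  have hwE : (w : ℝ) ≤ Real.log H ^ E := le_trans (by exact_mod_cast hwz) hzE
  have c3 := h3 H (by omega)
  have hH0 : (0 : ℝ) < H := by exact_mod_cast (by omega : 0 < H)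
  have a1 := h1 H (by omega) a B C N T hbox w z hw hwz hzE t ht t' ht' z (Or.inl rfl) z (Or.inr ⟨rfl, rfl⟩)
  have a2 := h1 H (by omega) a B C N T hbox w z hw hwz hzE t ht t' ht' z (Or.inl rfl) w (Or.inl rfl)
  have a3 := h1 H (by omega) a B C N T hbox w z hw hwz hzE t' ht' t ht z (Or.inl rfl) w (Or.inl rfl)
  have a4 := h1 H (by omega) a B C N T hbox w z hw hwz hzE t ht t' ht' w (Or.inr rfl) w (Or.inl rfl)
  have s1 := h2 H (by omega) N hbox.hHN hbox.hN z (hw.trans hwz) hzE a B C t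
  have s2 := h2 H (by omega) N hbox.hHN hbox.hN z (hw.trans hwz) hzE a B C t'
  have s3 := h2 H (by omega) N hbox.hHN hbox.hN w hw hwE a B C t
  have v1 := (hh_le z ((t' : ℤ) - t)).trans (h4 H (by omega) z (hw.trans hwz) hzE)
  have v2 := (hh_le w ((t' : ℤ) - t)).trans (h4 H (by omega) w hw hwE)
  have v3 := one_le_hh z ((t' : ℤ) - t)
  have v4 := one_le_hh w ((t' : ℤ) - t)
  have hneg : hh w ((t : ℤ) - t') = hh w ((t' : ℤ) - t) := by
    rw [← hh_neg]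
    congr 1
    ring
  rw [hneg] at a3
  obtain ⟨hz', hz⟩ : ∃ x, x = hh z ((t' : ℤ) - t) := ⟨_, rfl⟩
  obtain ⟨hw', hw2⟩ : ∃ x, x = hh w ((t' : ℤ) - t) := ⟨_, rfl⟩
  rw [← hz] at a1 v1 v3 ⊢
  rw [← hw2] at a2 a3 a4 v2 v4 ⊢
  obtain ⟨L, hL⟩ : ∃ L, L = Real.log (H : ℝ) := ⟨_, rfl⟩
  rw [← hL] at c3 a1 a2 a3 a4 s1 s2 s3 v1 v2 ⊢
  have hL0 : 0 < L := by linarith
  rw [PS_comm] at a3
  have hid : PS a B C H t t' (fun n => lamz z n - lamz w n) (fun n => lamz z n - lamz w n) =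
      PS a B C H t t' (lamz z) (fun n => lamz z n - hz') - PS a B C H t t' (lamz z) (fun n => lamz w n - hw') -
      PS a B C H t t' (fun n => lamz w n - hw') (lamz z) + PS a B C H t t' (lamz w) (fun n => lamz w n - hw') +
      hz' * (∑ b ∈ Ioc B (B + H), ∑ c ∈ Ioc C (C + H), lamz z (a * t ^ 2 + b * t + c)) -
      hw' * (∑ b ∈ Ioc B (B + H), ∑ c ∈ Ioc C (C + H), lamz z (a * t ^ 2 + b * t + c)) -
      hw' * (∑ b ∈ Ioc B (B + H), ∑ c ∈ Ioc C (C + H), lamz z (a * t' ^ 2 + b * t' + c)) +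
      hw' * (∑ b ∈ Ioc B (B + H), ∑ c ∈ Ioc C (C + H), lamz w (a * t ^ 2 + b * t + c)) := by
    unfold PS
    simp only [mul_sum, ← sum_sub_distrib, ← sum_add_distrib]
    refine sum_congr rfl fun b _ => sum_congr rfl fun c _ => ?_
    ring
  rw [hid]
  obtain ⟨S1, hS1⟩ : ∃ x, x = ∑ b ∈ Ioc B (B + H), ∑ c ∈ Ioc C (C + H), lamz z (a * t ^ 2 + b * t + c) := ⟨_, rfl⟩
  obtain ⟨S2, hS2⟩ : ∃ x, x = ∑ b ∈ Ioc B (B + H), ∑ c ∈ Ioc C (C + H), lamz z (a * t' ^ 2 + b * t' + c) := ⟨_, rfl⟩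
  obtain ⟨S3, hS3⟩ : ∃ x, x = ∑ b ∈ Ioc B (B + H), ∑ c ∈ Ioc C (C + H), lamz w (a * t ^ 2 + b * t + c) := ⟨_, rfl⟩
  rw [← hS1] at s1 ⊢
  rw [← hS2] at s2 ⊢
  rw [← hS3] at s3 ⊢
  obtain ⟨P1, hP1⟩ : ∃ x, x = PS a B C H t t' (lamz z) (fun n => lamz z n - hz') := ⟨_, rfl⟩
  obtain ⟨P2, hP2⟩ : ∃ x, x = PS a B C H t t' (lamz z) (fun n => lamz w n - hw') := ⟨_, rfl⟩
  obtain ⟨P3, hP3⟩ : ∃ x, x = PS a B C H t t' (fun n => lamz w n - hw') (lamz z) := ⟨_, rfl⟩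
  obtain ⟨P4, hP4⟩ : ∃ x, x = PS a B C H t t' (lamz w) (fun n => lamz w n - hw') := ⟨_, rfl⟩
  rw [← hP1] at a1 ⊢
  rw [← hP2] at a2 ⊢
  rw [← hP3] at a3 ⊢
  rw [← hP4] at a4 ⊢
  obtain ⟨X, hX⟩ : ∃ X : ℝ, X = (H : ℝ) ^ 2 := ⟨_, rfl⟩
  rw [← hX] at a1 a2 a3 a4 s1 s2 s3 ⊢
  have hX0 : 0 ≤ X := by rw [hX]; positivity
  obtain ⟨e, he⟩ : ∃ e : ℝ, e = X / L ^ 3 := ⟨_, rfl⟩
  rw [← he] at a1 a2 a3 a4 s1 s2 s3
  have he0 : 0 ≤ e := by rw [he]; positivity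
  have e5 : P1 - P2 - P3 + P4 + hz' * S1 - hw' * S1 - hw' * S2 + hw' * S3 - X * (hz' - hw') =
      P1 - P2 - P3 + P4 + hz' * (S1 - X) - hw' * (S1 - X) - hw' * (S2 - X) + hw' * (S3 - X) := by ring
  rw [e5]
  have m1 : |hz' * (S1 - X)| ≤ L * e := by
    rw [abs_mul, abs_of_nonneg (show (0 : ℝ) ≤ hz' by linarith)]
    exact mul_le_mul v1 s1 (abs_nonneg _) hL0.le
  have m2 : |hw' * (S1 - X)| ≤ L * e := by
    rw [abs_mul, abs_of_nonneg (show (0 : ℝ) ≤ hw' by linarith)]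
    exact mul_le_mul v2 s1 (abs_nonneg _) hL0.le
  have m3 : |hw' * (S2 - X)| ≤ L * e := by
    rw [abs_mul, abs_of_nonneg (show (0 : ℝ) ≤ hw' by linarith)]
    exact mul_le_mul v2 s2 (abs_nonneg _) hL0.le
  have m4 : |hw' * (S3 - X)| ≤ L * e := by
    rw [abs_mul, abs_of_nonneg (show (0 : ℝ) ≤ hw' by linarith)]
    exact mul_le_mul v2 s3 (abs_nonneg _) hL0.le
  have hfin : 8 * e + 4 * (L * e) ≤ X / L := by
    have : 8 * e + 4 * (L * e) = X * (8 + 4 * L) / L ^ 3 := by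
      rw [he]
      field_simp
    rw [this, div_le_div_iff₀ (by positivity) hL0]
    have h6 : (8 + 4 * L) * L ≤ L ^ 3 := by
      have h7 : 8 * L ≤ L ^ 2 := by nlinarith
      have h8 : 8 * L ^ 2 ≤ L ^ 3 := by
        have : L ^ 3 = L * L ^ 2 := by ring
        rw [this]
        exact mul_le_mul_of_nonneg_right c3 (by positivity)
      nlinarith [sq_nonneg L]
    calc X * (8 + 4 * L) * L = X * ((8 + 4 * L) * L) := by ring
      _ ≤ X * L ^ 3 := by gcongr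
  rw [abs_le] at a1 a2 a3 a4 m1 m2 m3 m4 ⊢
  constructor <;> linarith [a1.1, a1.2, a2.1, a2.2, a3.1, a3.2, a4.1, a4.2, m1.1, m1.2, m2.1, m2.2, m3.1, m3.2, m4.1, m4.2]

/-- the diagonal terms -/
theorem diag (E : ℕ) : ∃ H0 : ℕ, ∀ H : ℕ, H0 ≤ H → ∀ a B C N : ℕ, ∀ T : Finset ℕ, Box E a B C H N T →
    ∀ w z : ℕ, 1 ≤ w → w ≤ z → (z : ℝ) ≤ Real.log H ^ E → ∀ t ∈ T,
    PS a B C H t t (gd z) (gd z) ≤ 6 * (H : ℝ) ^ 2 * Real.log H ∧
    PS a B C H t t (fun n => lamz z n - lamz w n) (fun n => lamz z n - lamz w n) ≤ 6 * (H : ℝ) ^ 2 * Real.log H := by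
  obtain ⟨N2, h2⟩ := sums_bd E
  obtain ⟨N3, h3⟩ := ev_L' 8
  refine ⟨N2 + N3 + 1, fun H hH a B C N T hbox w z hw hwz hzE t ht => ?_⟩
  have hwE : (w : ℝ) ≤ Real.log H ^ E := le_trans (by exact_mod_cast hwz) hzE
  have c3 := h3 H (by omega)
  obtain ⟨hHN, hNE, hT1, hval⟩ := hbox
  obtain ⟨hlN, hb2⟩ := h2 H (by omega) N hHN hNE
  obtain ⟨v1, -, -, b1, b2⟩ := hb2 z (hw.trans hwz) hzE
  obtain ⟨v2, -, -, b3, -⟩ := hb2 w hw hwE
  have hH0 : (0 : ℝ) < H := by exact_mod_cast (by omega : 0 < H)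
  obtain ⟨L, hL⟩ : ∃ L, L = Real.log (H : ℝ) := ⟨_, rfl⟩
  rw [← hL] at c3 hlN v1 v2 b1 b3 ⊢
  have hL0 : 0 < L := by linarith
  have he : (H : ℝ) / L ^ 3 ≤ 1 / 2 * H := by
    rw [div_le_iff₀ (by positivity)]
    have h9 : (2 : ℝ) ≤ L ^ 3 := by
      calc (2 : ℝ) ≤ 8 ^ 3 := by norm_num
        _ ≤ _ := pow_le_pow_left₀ (by norm_num) (by linarith) 3
    nlinarith
  have hlz : ∀ y n : ℕ, lamz y n ^ 2 ≤ (Vz y)⁻¹ * lamz y n := by
    intro y n
    unfold lamz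
    have := inv_pos.2 (Vz_pos y)
    split_ifs
    · rw [sq]
    · simp
  have hcard : ∀ x : ℝ, ∑ _b ∈ Ioc B (B + H), x = H * x := by
    intro x
    rw [sum_const, nsmul_eq_mul, Nat.card_Ioc, Nat.add_sub_cancel_left]
  have hval2 : ∀ b ∈ Ioc B (B + H), a * t ^ 2 + b * t + (C + H) ≤ N := by
    intro b hb
    exact hval t ht b hb (C + H) (by rw [mem_Ioc]; omega)
  constructor
  · unfold PS
    calc ∑ b ∈ Ioc B (B + H), ∑ c ∈ Ioc C (C + H), gd z (a * t ^ 2 + b * t + c) * gd z (a * t ^ 2 + b * t + c) ≤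
          ∑ b ∈ Ioc B (B + H), ∑ c ∈ Ioc C (C + H), ((2 * L) * ArithmeticFunction.vonMangoldt (a * t ^ 2 + b * t + c) +
            L * lamz z (a * t ^ 2 + b * t + c)) := by
          refine sum_le_sum fun b hb => sum_le_sum fun c hc => ?_
          have hn := hval t ht b hb c hc
          obtain ⟨n, hn'⟩ : ∃ n, n = a * t ^ 2 + b * t + c := ⟨_, rfl⟩
          rw [← hn'] at hn ⊢
          have hn1 : 1 ≤ n := by
            rw [mem_Ioc] at hc
            omega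
          have k1 : (0 : ℝ) ≤ ArithmeticFunction.vonMangoldt n := ArithmeticFunction.vonMangoldt_nonneg
          have k2 := lamz_nonneg z n
          have k3 : ArithmeticFunction.vonMangoldt n ≤ 2 * L := by
            refine ArithmeticFunction.vonMangoldt_le_log.trans ?_
            refine (Real.log_le_log (by exact_mod_cast hn1) (by exact_mod_cast hn)).trans hlN
          have k4 := hlz z n
          have k5 : lamz z n ^ 2 ≤ L * lamz z n := k4.trans (mul_le_mul_of_nonneg_right v1 k2)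
          unfold gd
          nlinarith [mul_nonneg k1 k2, mul_nonneg k1 (sub_nonneg.2 k3)]
      _ ≤ ∑ b ∈ Ioc B (B + H), (6 * H * L) := by
          refine sum_le_sum fun b hb => ?_
          rw [sum_add_distrib, ← mul_sum, ← mul_sum]
          have k1 := b2 (a * t ^ 2 + b * t) C (hval2 b hb)
          have k2 := (abs_le.1 (b1 (a * t ^ 2 + b * t) C)).2
          have k3 := mul_le_mul_of_nonneg_left k1 (by linarith : (0 : ℝ) ≤ 2 * L)
          have k4 : ∑ c ∈ Ioc C (C + H), lamz z (a * t ^ 2 + b * t + c) ≤ 3 / 2 * H := by linarith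
          have k5 := mul_le_mul_of_nonneg_left k4 hL0.le
          nlinarith [mul_pos hH0 hL0]
      _ = _ := by rw [hcard]; ring
  · unfold PS
    calc ∑ b ∈ Ioc B (B + H), ∑ c ∈ Ioc C (C + H), (lamz z (a * t ^ 2 + b * t + c) - lamz w (a * t ^ 2 + b * t + c)) *
            (lamz z (a * t ^ 2 + b * t + c) - lamz w (a * t ^ 2 + b * t + c)) ≤
          ∑ b ∈ Ioc B (B + H), ∑ c ∈ Ioc C (C + H), (L * lamz z (a * t ^ 2 + b * t + c) +
            L * lamz w (a * t ^ 2 + b * t + c)) := by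
          refine sum_le_sum fun b hb => sum_le_sum fun c hc => ?_
          obtain ⟨n, hn'⟩ : ∃ n, n = a * t ^ 2 + b * t + c := ⟨_, rfl⟩
          rw [← hn']
          have k1 := lamz_nonneg w n
          have k2 := lamz_nonneg z n
          have k5 : lamz z n ^ 2 ≤ L * lamz z n := (hlz z n).trans (mul_le_mul_of_nonneg_right v1 k2)
          have k6 : lamz w n ^ 2 ≤ L * lamz w n := (hlz w n).trans (mul_le_mul_of_nonneg_right v2 k1)
          nlinarith [mul_nonneg k1 k2]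
      _ ≤ ∑ b ∈ Ioc B (B + H), (6 * H * L) := by
          refine sum_le_sum fun b hb => ?_
          rw [sum_add_distrib, ← mul_sum, ← mul_sum]
          have k2 := (abs_le.1 (b1 (a * t ^ 2 + b * t) C)).2
          have k3 := (abs_le.1 (b3 (a * t ^ 2 + b * t) C)).2
          have k4 : ∑ c ∈ Ioc C (C + H), lamz z (a * t ^ 2 + b * t + c) ≤ 3 / 2 * H := by linarith
          have k5 : ∑ c ∈ Ioc C (C + H), lamz w (a * t ^ 2 + b * t + c) ≤ 3 / 2 * H := by linarith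
          have k6 := mul_le_mul_of_nonneg_left k4 hL0.le
          have k7 := mul_le_mul_of_nonneg_left k5 hL0.le
          nlinarith [mul_pos hH0 hL0]
      _ = _ := by rw [hcard]; ring

lemma expand (a B C H : ℕ) (T : Finset ℕ) (G : ℕ → ℝ) :
    ∑ b ∈ Ioc B (B + H), ∑ c ∈ Ioc C (C + H), (∑ t ∈ T, G (a * t ^ 2 + b * t + c)) ^ 2 =
      ∑ t ∈ T, ∑ t' ∈ T, PS a B C H t t' G G := by
  unfold PS
  calc _ = ∑ b ∈ Ioc B (B + H), ∑ c ∈ Ioc C (C + H), ∑ t ∈ T, ∑ t' ∈ T, G (a * t ^ 2 + b * t + c) * G (a * t' ^ 2 + b * t' + c) := by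
        refine sum_congr rfl fun b _ => sum_congr rfl fun c _ => ?_
        rw [sq, sum_mul_sum]
    _ = ∑ b ∈ Ioc B (B + H), ∑ t ∈ T, ∑ c ∈ Ioc C (C + H), ∑ t' ∈ T, G (a * t ^ 2 + b * t + c) * G (a * t' ^ 2 + b * t' + c) := by
        refine sum_congr rfl fun b _ => sum_comm
    _ = ∑ b ∈ Ioc B (B + H), ∑ t ∈ T, ∑ t' ∈ T, ∑ c ∈ Ioc C (C + H), G (a * t ^ 2 + b * t + c) * G (a * t' ^ 2 + b * t' + c) := by
        refine sum_congr rfl fun b _ => sum_congr rfl fun t _ => sum_comm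
    _ = ∑ t ∈ T, ∑ b ∈ Ioc B (B + H), ∑ t' ∈ T, ∑ c ∈ Ioc C (C + H), G (a * t ^ 2 + b * t + c) * G (a * t' ^ 2 + b * t' + c) := sum_comm
    _ = _ := by
        refine sum_congr rfl fun t _ => sum_comm

theorem second1 (E : ℕ) : ∃ H0 : ℕ, ∀ H : ℕ, H0 ≤ H → ∀ a B C N : ℕ, ∀ T : Finset ℕ, Box E a B C H N T →
    ∀ z : ℕ, 1 ≤ z → (z : ℝ) ≤ Real.log H ^ E → (∀ t ∈ T, t ≤ z) →
    ∑ b ∈ Ioc B (B + H), ∑ c ∈ Ioc C (C + H), (∑ t ∈ T, gd z (a * t ^ 2 + b * t + c)) ^ 2 ≤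
      (H : ℝ) ^ 2 * (6 * Real.log H * T.card + (T.card : ℝ) ^ 2 / Real.log H) := by
  classical
  obtain ⟨N1, h1⟩ := pair1 E
  obtain ⟨N2, h2⟩ := diag E
  obtain ⟨N3, h3⟩ := ev_L' 8
  refine ⟨N1 + N2 + N3, fun H hH a B C N T hbox z hz hzE hTz => ?_⟩
  have c3 := h3 H (by omega)
  have p1 := h1 H (by omega) a B C N T hbox z hz hzE hTz
  have p2 := h2 H (by omega) a B C N T hbox z z hz le_rfl hzE
  rw [expand]
  have hX : 0 ≤ (H : ℝ) ^ 2 / Real.log H := by positivity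
  calc ∑ t ∈ T, ∑ t' ∈ T, PS a B C H t t' (gd z) (gd z) ≤
        ∑ t ∈ T, (6 * (H : ℝ) ^ 2 * Real.log H + T.card * ((H : ℝ) ^ 2 / Real.log H)) := by
        refine sum_le_sum fun t ht => ?_
        rw [← add_sum_erase T _ ht]
        apply add_le_add (p2 t ht).1
        calc ∑ t' ∈ T.erase t, PS a B C H t t' (gd z) (gd z) ≤ ∑ _t' ∈ T.erase t, (H : ℝ) ^ 2 / Real.log H := by
              refine sum_le_sum fun t' ht' => ?_
              rw [mem_erase] at ht'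
              exact (abs_le.1 (p1 t ht t' ht'.2 (Ne.symm ht'.1))).2
          _ = (T.erase t).card * ((H : ℝ) ^ 2 / Real.log H) := by rw [sum_const, nsmul_eq_mul]
          _ ≤ _ := by
              apply mul_le_mul_of_nonneg_right _ hX
              exact_mod_cast card_le_card (erase_subset _ _)
    _ = _ := by
        rw [sum_const, nsmul_eq_mul]
        ring

theorem second2 (E : ℕ) : ∃ H0 : ℕ, ∀ H : ℕ, H0 ≤ H → ∀ a B C N : ℕ, ∀ T : Finset ℕ, Box E a B C H N T →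
    ∀ w z : ℕ, 1 ≤ w → w ≤ z → (z : ℝ) ≤ Real.log H ^ E →
    ∑ b ∈ Ioc B (B + H), ∑ c ∈ Ioc C (C + H),
        (∑ t ∈ T, (lamz z (a * t ^ 2 + b * t + c) - lamz w (a * t ^ 2 + b * t + c))) ^ 2 ≤
      (H : ℝ) ^ 2 * (6 * Real.log H * T.card + (T.card : ℝ) ^ 2 / Real.log H +
        ∑ t ∈ T, ∑ t' ∈ T.erase t, (hh z ((t' : ℤ) - t) - hh w ((t' : ℤ) - t))) := by
  classical
  obtain ⟨N1, h1⟩ := pair2 E
  obtain ⟨N2, h2⟩ := diag E
  obtain ⟨N3, h3⟩ := ev_L' 8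
  refine ⟨N1 + N2 + N3, fun H hH a B C N T hbox w z hw hwz hzE => ?_⟩
  have c3 := h3 H (by omega)
  have p1 := h1 H (by omega) a B C N T hbox w z hw hwz hzE
  have p2 := h2 H (by omega) a B C N T hbox w z hw hwz hzE
  have hexp := expand a B C H T (fun n => lamz z n - lamz w n)
  rw [hexp]
  have hX : 0 ≤ (H : ℝ) ^ 2 / Real.log H := by positivity
  calc ∑ t ∈ T, ∑ t' ∈ T, PS a B C H t t' (fun n => lamz z n - lamz w n) (fun n => lamz z n - lamz w n) ≤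
        ∑ t ∈ T, (6 * (H : ℝ) ^ 2 * Real.log H + (T.card * ((H : ℝ) ^ 2 / Real.log H) +
          (H : ℝ) ^ 2 * ∑ t' ∈ T.erase t, (hh z ((t' : ℤ) - t) - hh w ((t' : ℤ) - t)))) := by
        refine sum_le_sum fun t ht => ?_
        rw [← add_sum_erase T _ ht]
        apply add_le_add (p2 t ht).2
        calc ∑ t' ∈ T.erase t, PS a B C H t t' (fun n => lamz z n - lamz w n) (fun n => lamz z n - lamz w n) ≤
              ∑ t' ∈ T.erase t, ((H : ℝ) ^ 2 / Real.log H + (H : ℝ) ^ 2 * (hh z ((t' : ℤ) - t) - hh w ((t' : ℤ) - t))) := by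
              refine sum_le_sum fun t' ht' => ?_
              rw [mem_erase] at ht'
              have := (abs_le.1 (p1 t ht t' ht'.2)).2
              linarith
          _ = (T.erase t).card * ((H : ℝ) ^ 2 / Real.log H) +
                (H : ℝ) ^ 2 * ∑ t' ∈ T.erase t, (hh z ((t' : ℤ) - t) - hh w ((t' : ℤ) - t)) := by
              rw [sum_add_distrib, sum_const, nsmul_eq_mul, mul_sum]
          _ ≤ _ := by
              apply add_le_add _ le_rfl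
              apply mul_le_mul_of_nonneg_right _ hX
              exact_mod_cast card_le_card (erase_subset _ _)
    _ = _ := by
        rw [sum_add_distrib, sum_add_distrib, sum_const, sum_const, nsmul_eq_mul, nsmul_eq_mul, ← mul_sum]
        ring

end Pool.Agent.V8H21.QB
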