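import Pool.Agent.V8H21.QB.Core

set_option autoImplicit false

/-! The local formula, the number of the pairs with a prime value, the scale. -/

namespace Pool.Agent.V8H21.QB

open Finset
open Pool.Agent.H373R2.T7 (lamz Vz pz Vz_pos Vz_inv_small mem_pz lamz_nonneg ev_log' ev_L' Vz_le_one)


/-- the arguments in `T` with a prime value -/
def primes (a b c : ℕ) (T : Finset ℕ) : Finset ℕ := T.filter (fun t => (a * t ^ 2 + b * t + c).Prime)

open Classical in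
/-- the arguments in `T` whose value has no prime factor up to `z` -/
noncomputable def rough (z a b c : ℕ) (T : Finset ℕ) : Finset ℕ :=
  T.filter (fun t => ∀ p : ℕ, p.Prime → p ≤ z → ¬ p ∣ a * t ^ 2 + b * t + c)

/-- the pairs `(b, c)` with a prime value on `T` -/
def hits (a B C H : ℕ) (T : Finset ℕ) : Finset (ℕ × ℕ) :=
  (Ioc B (B + H) ×ˢ Ioc C (C + H)).filter (fun q => (primes a q.1 q.2 T).Nonempty)

lemma NP_eq (a b c : ℕ) (T : Finset ℕ) : NP a b c T = (primes a b c T).card := by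
  unfold NP primes ip
  rw [sum_ite, sum_const, sum_const_zero, add_zero, nsmul_eq_mul, mul_one]

lemma NZ_eq (z a b c : ℕ) (T : Finset ℕ) : NZ z a b c T = (rough z a b c T).card * (Vz z)⁻¹ := by
  classical
  unfold NZ rough lamz
  rw [sum_ite, sum_const, sum_const_zero, add_zero, nsmul_eq_mul]
  congr 2
  apply congrArg
  ext t
  rw [mem_filter, mem_filter]
  refine and_congr_right fun _ => ?_
  constructor
  · intro h p hp hpz
    exact h p (mem_pz.2 ⟨hpz, hp⟩)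
  · intro h p hp
    rw [mem_pz] at hp
    exact h p hp.2 hp.1

lemma box_of (E : ℕ) : ∃ H0 : ℕ, ∀ H : ℕ, H0 ≤ H → ∀ a B C : ℕ, ∀ T : Finset ℕ,
    (a : ℝ) ≤ H * Real.log H ^ E → (B : ℝ) ≤ H * Real.log H ^ E → (C : ℝ) ≤ H * Real.log H ^ E →
    (∀ t ∈ T, 1 ≤ t ∧ (t : ℝ) ≤ Real.log H ^ E) → Box (3 * E + 1) a B C H ⌊(H : ℝ) * Real.log H ^ (3 * E + 1)⌋₊ T := by
  obtain ⟨N1, h1⟩ := ev_L' 5
  refine ⟨N1 + 1, fun H hH a B C T ha hB hC hT => ?_⟩
  have c1 := h1 H (by omega)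
  have hH0 : (0 : ℝ) < H := by exact_mod_cast (by omega : 0 < H)
  obtain ⟨L, hL⟩ : ∃ L, L = Real.log (H : ℝ) := ⟨_, rfl⟩
  have hL5 : 5 ≤ L := by rw [hL]; exact c1
  have hL1 : 1 ≤ L := by linarith
  have hP : 1 ≤ L ^ E := one_le_pow₀ hL1
  obtain ⟨P, hPd⟩ : ∃ P, P = L ^ E := ⟨_, rfl⟩
  rw [← hL] at ha hB hC hT
  rw [← hPd] at ha hB hC hT hP
  have hL3 : L ^ (3 * E + 1) = P ^ 3 * L := by
    rw [pow_succ, hPd, ← pow_mul, mul_comm E 3]
  constructor
  · apply Nat.le_floor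
    rw [← hL]
    have : 1 ≤ L ^ (3 * E + 1) := one_le_pow₀ hL1
    nlinarith
  · exact Nat.floor_le (by rw [← hL]; positivity)
  · exact fun t ht => (hT t ht).1
  · intro t ht b hb c hc
    rw [mem_Ioc] at hb hc
    apply Nat.le_floor
    rw [← hL, hL3]
    push_cast
    obtain ⟨-, ht2⟩ := hT t ht
    have ht0 : (0 : ℝ) ≤ t := Nat.cast_nonneg _
    have hb2 : (b : ℝ) ≤ 2 * (H * P) := by
      have : (b : ℝ) ≤ B + H := by exact_mod_cast hb.2
      nlinarith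
    have hc2 : (c : ℝ) ≤ 2 * (H * P) := by
      have : (c : ℝ) ≤ C + H := by exact_mod_cast hc.2
      nlinarith
    have hP0 : 0 ≤ P := by linarith
    have k1 : (a : ℝ) * t ^ 2 ≤ (H * P) * P ^ 2 := by gcongr
    have k2 : (b : ℝ) * t ≤ 2 * (H * P) * P := by gcongr
    have hPP : P * P ≤ P ^ 3 := by nlinarith [mul_nonneg hP0 hP0]
    have hPP2 : P ≤ P ^ 3 := by nlinarith [mul_nonneg hP0 hP0]
    have k3 : 2 * (H * P) * P ≤ 2 * (H * P ^ 3) := by nlinarith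
    have k4 : 2 * (H * P) ≤ 2 * (H * P ^ 3) := by nlinarith
    have k5 : (0 : ℝ) ≤ H * P ^ 3 := by positivity
    have k6 : 5 * ((H : ℝ) * P ^ 3) ≤ H * P ^ 3 * L := by nlinarith
    nlinarith

/-- **the local formula** -/
theorem thmA (E : ℕ) {ε : ℝ} (hε : 0 < ε) : ∃ K H0 : ℕ, 2 ≤ K ∧ ∀ H : ℕ, H0 ≤ H → ∀ a B C : ℕ,
    (a : ℝ) ≤ H * Real.log H ^ E → (B : ℝ) ≤ H * Real.log H ^ E → (C : ℝ) ≤ H * Real.log H ^ E →
    ∀ u Y : ℕ, ((u + Y : ℕ) : ℝ) ≤ Real.log H ^ E → ∀ T ⊆ Ioc u (u + Y), K * Real.log H ≤ T.card →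
    ∀ z : ℕ, K ≤ z → (z : ℝ) ≤ Real.log H ^ E → K * (1 + Real.log ((Y : ℝ) / T.card)) * Real.log z ≤ z →
    (((Ioc B (B + H) ×ˢ Ioc C (C + H)).filter (fun q => ε * (T.card / Real.log H) <
      |((primes a q.1 q.2 T).card : ℝ) - (rough z a q.1 q.2 T).card / (Vz z * Real.log H)|)).card : ℝ) ≤ ε * (H : ℝ) ^ 2 := by
  classical
  obtain ⟨e, he⟩ : ∃ e, e = min ε 1 := ⟨_, rfl⟩
  have he0 : 0 < e := by rw [he]; exact lt_min hε one_pos
  have he1 : e ≤ 1 := by rw [he]; exact min_le_right _ _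
  have heε : e ≤ ε := by rw [he]; exact min_le_left _ _
  obtain ⟨K, N1, hK, h1⟩ := core (3 * E + 1) (ε := e ^ 2) (by positivity) (by nlinarith)
  obtain ⟨N2, h2⟩ := box_of E
  obtain ⟨N3, h3⟩ := ev_L' 1
  refine ⟨K, N1 + N2 + N3 + 1, hK, fun H hH a B C ha hB hC u Y hY T hT hTc z hKz hzE hz => ?_⟩
  have c3 := h3 H (by omega)
  have hH0 : (0 : ℝ) < H := by exact_mod_cast (by omega : 0 < H)
  have hTt : ∀ t ∈ T, 1 ≤ t ∧ (t : ℝ) ≤ Real.log H ^ E := by
    intro t ht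
    have := mem_Ioc.1 (hT ht)
    refine ⟨by omega, le_trans ?_ hY⟩
    exact_mod_cast this.2
  have hbox := h2 H (by omega) a B C T ha hB hC hTt
  have hpow : Real.log H ^ E ≤ Real.log H ^ (3 * E + 1) := pow_le_pow_right₀ c3 (by omega)
  have key := h1 H (by omega) a B C _ T hbox (fun t ht => (hTt t ht).2.trans hpow) u Y hT hTc z hKz (hzE.trans hpow) hz
  obtain ⟨L, hL⟩ : ∃ L, L = Real.log (H : ℝ) := ⟨_, rfl⟩
  rw [← hL] at key c3 hTc ⊢
  have hL0 : 0 < L := by linarith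
  have hK0 : (0 : ℝ) < K := by exact_mod_cast (by omega : 0 < K)
  have hT0 : (0 : ℝ) < T.card := by
    have : 0 < (K : ℝ) * L := by positivity
    linarith
  have hV := Vz_pos z
  rw [← sum_product'] at key
  -- Markov
  set S := (Ioc B (B + H) ×ˢ Ioc C (C + H)).filter (fun q => ε * (T.card / L) <
      |((primes a q.1 q.2 T).card : ℝ) - (rough z a q.1 q.2 T).card / (Vz z * L)|) with hS
  have m1 : (S.card : ℝ) * (e * T.card) ≤ ∑ q ∈ Ioc B (B + H) ×ˢ Ioc C (C + H), |L * NP a q.1 q.2 T - NZ z a q.1 q.2 T| := by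
    calc (S.card : ℝ) * (e * T.card) = ∑ _q ∈ S, e * T.card := by rw [sum_const, nsmul_eq_mul]
      _ ≤ ∑ q ∈ S, |L * NP a q.1 q.2 T - NZ z a q.1 q.2 T| := by
          refine sum_le_sum fun q hq => ?_
          rw [hS, mem_filter] at hq
          have h4 := hq.2
          rw [NP_eq, NZ_eq]
          have h5 : L * ((primes a q.1 q.2 T).card : ℝ) - (rough z a q.1 q.2 T).card * (Vz z)⁻¹ =
              L * (((primes a q.1 q.2 T).card : ℝ) - (rough z a q.1 q.2 T).card / (Vz z * L)) := by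
            field_simp
          rw [h5, abs_mul, abs_of_pos hL0]
          have h6 : L * (ε * (T.card / L)) = ε * T.card := by field_simp
          have h7 := mul_le_mul_of_nonneg_left h4.le hL0.le
          rw [h6] at h7
          have h8 : e * T.card ≤ ε * T.card := mul_le_mul_of_nonneg_right heε hT0.le
          linarith
      _ ≤ _ := sum_le_sum_of_subset_of_nonneg (filter_subset _ _) fun _ _ _ => abs_nonneg _
  have m2 := m1.trans key
  have m3 : (S.card : ℝ) ≤ e * (H : ℝ) ^ 2 := by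
    have h9 : 0 < e * T.card := by positivity
    have h10 : (S.card : ℝ) * (e * T.card) ≤ (e * (H : ℝ) ^ 2) * (e * T.card) := by
      calc _ ≤ _ := m2
        _ = _ := by ring
    exact le_of_mul_le_mul_right h10 h9
  refine m3.trans ?_
  gcongr

/-- the number of the pairs with a prime value, from below -/
theorem thmC (E : ℕ) {ε : ℝ} (hε : 0 < ε) (hε1 : ε ≤ 1) : ∃ K H0 : ℕ, 2 ≤ K ∧ ∀ H : ℕ, H0 ≤ H → ∀ a B C : ℕ,
    (a : ℝ) ≤ H * Real.log H ^ E → (B : ℝ) ≤ H * Real.log H ^ E → (C : ℝ) ≤ H * Real.log H ^ E →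
    ∀ u Y : ℕ, ((u + Y : ℕ) : ℝ) ≤ Real.log H ^ E → ∀ T ⊆ Ioc u (u + Y), K * Real.log H ≤ T.card →
    ∀ z : ℕ, K ≤ z → (z : ℝ) ≤ Real.log H ^ E → K * (1 + Real.log ((Y : ℝ) / T.card)) * Real.log z ≤ z →
    (1 - ε) * Vz z * (H : ℝ) ^ 2 ≤ ((hits a B C H T).card : ℝ) := by
  classical
  have he0 : 0 < ε / 2 := by positivity
  obtain ⟨K, N1, hK, h1⟩ := core (3 * E + 1) he0 (by linarith)
  obtain ⟨N2, h2⟩ := box_of E
  obtain ⟨N3, h3⟩ := ev_L' (1 + 2 / ε)
  obtain ⟨N4, h4⟩ := sum_model (3 * E + 1)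
  refine ⟨K, N1 + N2 + N3 + N4 + 1, hK, fun H hH a B C ha hB hC u Y hY T hT hTc z hKz hzE hz => ?_⟩
  have c3 := h3 H (by omega)
  have h2ε : 0 < 2 / ε := by positivity
  have hL1 : 1 ≤ Real.log H := by linarith
  have hH0 : (0 : ℝ) < H := by exact_mod_cast (by omega : 0 < H)
  have hTt : ∀ t ∈ T, 1 ≤ t ∧ (t : ℝ) ≤ Real.log H ^ E := by
    intro t ht
    have := mem_Ioc.1 (hT ht)
    refine ⟨by omega, le_trans ?_ hY⟩
    exact_mod_cast this.2
  have hbox := h2 H (by omega) a B C T ha hB hC hTt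
  have hpow : Real.log H ^ E ≤ Real.log H ^ (3 * E + 1) := pow_le_pow_right₀ hL1 (by omega)
  have key := h1 H (by omega) a B C _ T hbox (fun t ht => (hTt t ht).2.trans hpow) u Y hT hTc z hKz (hzE.trans hpow) hz
  have key2 := h4 H (by omega) _ hbox.hHN hbox.hN z (by omega) (hzE.trans hpow) a B C
  obtain ⟨L, hL⟩ : ∃ L, L = Real.log (H : ℝ) := ⟨_, rfl⟩
  rw [← hL] at key key2 c3 hTc hL1
  have hL0 : 0 < L := by linarith
  have hK0 : (0 : ℝ) < K := by exact_mod_cast (by omega : 0 < K)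
  have hT0 : (0 : ℝ) < T.card := by
    have : 0 < (K : ℝ) * L := by positivity
    linarith
  have hV := Vz_pos z
  have hVi : 0 < (Vz z)⁻¹ := inv_pos.2 hV
  have hHH : (0 : ℝ) < (H : ℝ) ^ 2 := by positivity
  rw [← sum_product'] at key
  -- the sum of the model
  have m1 : (1 - ε / 2) * T.card * (H : ℝ) ^ 2 ≤ ∑ q ∈ Ioc B (B + H) ×ˢ Ioc C (C + H), NZ z a q.1 q.2 T := by
    have e1 : ∑ q ∈ Ioc B (B + H) ×ˢ Ioc C (C + H), NZ z a q.1 q.2 T =
        ∑ t ∈ T, ∑ b ∈ Ioc B (B + H), ∑ c ∈ Ioc C (C + H), lamz z (a * t ^ 2 + b * t + c) := by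
      rw [sum_product' (f := fun b c => NZ z a b c T)]
      unfold NZ
      calc _ = ∑ b ∈ Ioc B (B + H), ∑ t ∈ T, ∑ c ∈ Ioc C (C + H), lamz z (a * t ^ 2 + b * t + c) :=
            sum_congr rfl fun b _ => sum_comm
        _ = _ := sum_comm
    rw [e1]
    calc (1 - ε / 2) * T.card * (H : ℝ) ^ 2 = ∑ _t ∈ T, (1 - ε / 2) * (H : ℝ) ^ 2 := by
          rw [sum_const, nsmul_eq_mul]
          ring
      _ ≤ _ := by
          refine sum_le_sum fun t _ => ?_
          have h5 := (abs_le.1 (key2 t)).1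
          have h6 : (H : ℝ) ^ 2 / L ^ 3 ≤ ε / 2 * (H : ℝ) ^ 2 := by
            rw [div_le_iff₀ (by positivity)]
            have h7 : 2 / ε ≤ L ^ 3 := by
              have : L ≤ L ^ 3 := le_self_pow₀ hL1 (by norm_num)
              linarith
            rw [div_le_iff₀ hε] at h7
            nlinarith
          linarith
  -- the pairs without prime values
  have m2 : ∑ q ∈ Ioc B (B + H) ×ˢ Ioc C (C + H), NZ z a q.1 q.2 T ≤
      ∑ q ∈ Ioc B (B + H) ×ˢ Ioc C (C + H), |L * NP a q.1 q.2 T - NZ z a q.1 q.2 T| +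
        (hits a B C H T).card * (T.card * (Vz z)⁻¹) := by
    rw [← sum_filter_add_sum_filter_not (Ioc B (B + H) ×ˢ Ioc C (C + H)) (fun q => (primes a q.1 q.2 T).Nonempty)
      (fun q => NZ z a q.1 q.2 T), add_comm]
    apply add_le_add
    · refine le_trans (sum_le_sum fun q hq => ?_) (sum_le_sum_of_subset_of_nonneg (filter_subset _ _) fun _ _ _ => abs_nonneg _)
      rw [mem_filter, not_nonempty_iff_eq_empty] at hq
      rw [NP_eq, hq.2, card_empty, Nat.cast_zero, mul_zero, zero_sub, abs_neg]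
      exact le_abs_self _
    · rw [← nsmul_eq_mul]
      apply sum_le_card_nsmul
      intro q _
      rw [NZ_eq]
      apply mul_le_mul_of_nonneg_right _ hVi.le
      exact_mod_cast card_le_card (filter_subset _ _)
  have m3 : (1 - ε) * (H : ℝ) ^ 2 * T.card ≤ (hits a B C H T).card * (Vz z)⁻¹ * T.card := by
    have := m1.trans (m2.trans (add_le_add key le_rfl))
    linarith
  have m4 := le_of_mul_le_mul_right m3 hT0
  have m5 := mul_le_mul_of_nonneg_right m4 hV.le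
  rw [mul_assoc ((hits a B C H T).card : ℝ), inv_mul_cancel₀ hV.ne', mul_one] at m5
  linarith

/-- few arguments: few pairs -/
theorem thmE (E : ℕ) : ∃ H0 : ℕ, ∀ H : ℕ, H0 ≤ H → ∀ a B C : ℕ,
    (a : ℝ) ≤ H * Real.log H ^ E → (B : ℝ) ≤ H * Real.log H ^ E → (C : ℝ) ≤ H * Real.log H ^ E →
    ∀ T : Finset ℕ, (∀ t ∈ T, 1 ≤ t ∧ (t : ℝ) ≤ Real.log H ^ E) →
    ((hits a B C H T).card : ℝ) ≤ 3 * (T.card / Real.log H) * (H : ℝ) ^ 2 := by
  classical
  obtain ⟨N1, h1⟩ := e4 (3 * E + 1) one_pos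
  obtain ⟨N2, h2⟩ := box_of E
  obtain ⟨N3, h3⟩ := ev_L' 1
  obtain ⟨N4, h4⟩ := sums_bd (3 * E + 1)
  refine ⟨N1 + N2 + N3 + N4 + 1, fun H hH a B C ha hB hC T hT => ?_⟩
  have c3 := h3 H (by omega)
  have hH0 : (0 : ℝ) < H := by exact_mod_cast (by omega : 0 < H)
  have hbox := h2 H (by omega) a B C T ha hB hC hT
  have k1 := h1 H (by omega) a B C _ T hbox
  obtain ⟨-, k2⟩ := h4 H (by omega) _ hbox.hHN hbox.hN
  obtain ⟨-, -, -, -, k3⟩ := k2 1 le_rfl (by
    rw [Nat.cast_one]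
    exact one_le_pow₀ c3)
  have hval := hbox.val
  obtain ⟨L, hL⟩ : ∃ L, L = Real.log (H : ℝ) := ⟨_, rfl⟩
  rw [← hL] at k1 c3 ⊢
  have hL0 : 0 < L := by linarith
  have m1 : ((hits a B C H T).card : ℝ) ≤ ∑ b ∈ Ioc B (B + H), ∑ c ∈ Ioc C (C + H), ∑ t ∈ T, ip (a * t ^ 2 + b * t + c) := by
    rw [← sum_product' (f := fun b c => ∑ t ∈ T, ip (a * t ^ 2 + b * t + c))]
    unfold hits
    rw [card_filter]
    push_cast
    refine sum_le_sum fun q _ => ?_
    have e1 : ∑ t ∈ T, ip (a * t ^ 2 + q.1 * t + q.2) = (primes a q.1 q.2 T).card := NP_eq a q.1 q.2 T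
    rw [e1]
    split_ifs with hq
    · exact_mod_cast hq.card_pos
    · exact Nat.cast_nonneg _
  have m2 : L * ∑ b ∈ Ioc B (B + H), ∑ c ∈ Ioc C (C + H), ∑ t ∈ T, ip (a * t ^ 2 + b * t + c) ≤ 3 * T.card * (H : ℝ) ^ 2 := by
    calc L * ∑ b ∈ Ioc B (B + H), ∑ c ∈ Ioc C (C + H), ∑ t ∈ T, ip (a * t ^ 2 + b * t + c) =
          ∑ b ∈ Ioc B (B + H), ∑ c ∈ Ioc C (C + H), ∑ t ∈ T, L * ip (a * t ^ 2 + b * t + c) := by
          simp only [mul_sum]
      _ ≤ ∑ b ∈ Ioc B (B + H), ∑ c ∈ Ioc C (C + H), ∑ t ∈ T, (|ArithmeticFunction.vonMangoldt (a * t ^ 2 + b * t + c) - L * ip (a * t ^ 2 + b * t + c)| +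
            ArithmeticFunction.vonMangoldt (a * t ^ 2 + b * t + c)) := by
          refine sum_le_sum fun b _ => sum_le_sum fun c _ => sum_le_sum fun t _ => ?_
          have := neg_abs_le (ArithmeticFunction.vonMangoldt (a * t ^ 2 + b * t + c) - L * ip (a * t ^ 2 + b * t + c))
          linarith
      _ = ∑ b ∈ Ioc B (B + H), ∑ c ∈ Ioc C (C + H), ∑ t ∈ T, |ArithmeticFunction.vonMangoldt (a * t ^ 2 + b * t + c) - L * ip (a * t ^ 2 + b * t + c)| +
            ∑ b ∈ Ioc B (B + H), ∑ c ∈ Ioc C (C + H), ∑ t ∈ T, ArithmeticFunction.vonMangoldt (a * t ^ 2 + b * t + c) := by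
          simp only [sum_add_distrib]
      _ ≤ 1 * T.card * (H : ℝ) ^ 2 + 2 * T.card * (H : ℝ) ^ 2 := by
          apply add_le_add k1
          calc ∑ b ∈ Ioc B (B + H), ∑ c ∈ Ioc C (C + H), ∑ t ∈ T, ArithmeticFunction.vonMangoldt (a * t ^ 2 + b * t + c) =
                ∑ b ∈ Ioc B (B + H), ∑ t ∈ T, ∑ c ∈ Ioc C (C + H), ArithmeticFunction.vonMangoldt (a * t ^ 2 + b * t + c) :=
                sum_congr rfl fun b _ => sum_comm
            _ ≤ ∑ _b ∈ Ioc B (B + H), ∑ _t ∈ T, 2 * (H : ℝ) := by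
                refine sum_le_sum fun b hb => sum_le_sum fun t ht => k3 (a * t ^ 2 + b * t) C ?_
                apply hval t ht b hb
                rw [mem_Ioc]
                omega
            _ = _ := by
                rw [sum_const, sum_const, Nat.card_Ioc, nsmul_eq_mul, nsmul_eq_mul, Nat.add_sub_cancel_left]
                ring
      _ = _ := by ring
  refine m1.trans ?_
  have e2 : 3 * (T.card / L) * (H : ℝ) ^ 2 = (3 * T.card * (H : ℝ) ^ 2) / L := by ring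
  rw [e2, le_div_iff₀ hL0, mul_comm]
  exact m2

end Pool.Agent.V8H21.QB
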