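import Pool.Agent.V8H21.QB.Ap

set_option autoImplicit false

/-! Sums over the boxes of the pairs `(b, c)` of products of two functions of the values of
`a t² + b t + c` at two arguments. -/

namespace Pool.Agent.V8H21.QB

open Finset

/-- the double sum, with the first argument as the base -/
lemma ps_le {a B C H N t t' : ℕ} (ht : 1 ≤ t) (G1 G2 : ℕ → ℝ) {D : ℝ}
    (hN : ∀ b ∈ Ioc B (B + H), ∀ c ∈ Ioc C (C + H), a * t ^ 2 + b * t + c ≤ N)
    (hN' : ∀ b ∈ Ioc B (B + H), ∀ c ∈ Ioc C (C + H), a * t' ^ 2 + b * t' + c ≤ N)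
    (hG : ∀ n ∈ Icc 1 N, G1 n ≠ 0 → ∀ u v : ℤ, v - u ≤ H →
      (∀ b ∈ Ioc u v, 1 ≤ (n : ℤ) + a * ((t' : ℤ) ^ 2 - t ^ 2) + b * ((t' : ℤ) - t) ∧
        (n : ℤ) + a * ((t' : ℤ) ^ 2 - t ^ 2) + b * ((t' : ℤ) - t) ≤ N) →
      |∑ b ∈ Ioc u v, G2 ((n : ℤ) + a * ((t' : ℤ) ^ 2 - t ^ 2) + b * ((t' : ℤ) - t)).toNat| ≤ D) :
    |∑ b ∈ Ioc B (B + H), ∑ c ∈ Ioc C (C + H), G1 (a * t ^ 2 + b * t + c) * G2 (a * t' ^ 2 + b * t' + c)| ≤
      D * ∑ n ∈ Icc 1 N, |G1 n| := by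
  classical
  -- the inner sum as a sum over the values
  have e1 : ∀ b ∈ Ioc B (B + H), ∑ c ∈ Ioc C (C + H), G1 (a * t ^ 2 + b * t + c) * G2 (a * t' ^ 2 + b * t' + c) =
      ∑ n ∈ Icc 1 N, (if C + a * t ^ 2 + b * t < n ∧ n ≤ C + H + a * t ^ 2 + b * t then
        G1 n * G2 ((n : ℤ) + a * ((t' : ℤ) ^ 2 - t ^ 2) + b * ((t' : ℤ) - t)).toNat else 0) := by
    intro b hb
    rw [← sum_filter]
    apply sum_nbij' (fun c => a * t ^ 2 + b * t + c) (fun n => n - (a * t ^ 2 + b * t))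
    · intro c hc
      have h1 := hN b hb c hc
      rw [mem_Ioc] at hc
      rw [mem_filter, mem_Icc]
      refine ⟨⟨by omega, h1⟩, by omega, by omega⟩
    · intro n hn
      rw [mem_filter, mem_Icc] at hn
      rw [mem_Ioc]
      omega
    · intro c _
      omega
    · intro n hn
      rw [mem_filter, mem_Icc] at hn
      omega
    · intro c hc
      congr 2
      have : ((a * t' ^ 2 + b * t' + c : ℕ) : ℤ) =
          ((a * t ^ 2 + b * t + c : ℕ) : ℤ) + a * ((t' : ℤ) ^ 2 - t ^ 2) + b * ((t' : ℤ) - t) := by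
        push_cast
        ring
      rw [← this, Int.toNat_natCast]
  rw [sum_congr rfl e1, sum_comm]
  refine (abs_sum_le_sum_abs _ _).trans ?_
  rw [mul_sum]
  refine sum_le_sum fun n hn => ?_
  rw [← sum_filter, ← mul_sum, abs_mul, mul_comm]
  by_cases hz : G1 n = 0
  · rw [hz]
    simp
  apply mul_le_mul_of_nonneg_right _ (abs_nonneg _)
  -- the interval of the `b`
  have ht0 : (0 : ℤ) < t := by exact_mod_cast ht
  obtain ⟨u, hu⟩ : ∃ u : ℤ, u = max (B : ℤ) (((n : ℤ) - a * t ^ 2 - C - H - 1) / t) := ⟨_, rfl⟩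
  obtain ⟨v, hv⟩ : ∃ v : ℤ, v = min ((B : ℤ) + H) (((n : ℤ) - a * t ^ 2 - C - 1) / t) := ⟨_, rfl⟩
  have hmem : ∀ b : ℤ, b ∈ Ioc u v ↔ ((B : ℤ) < b ∧ b ≤ B + H) ∧
      (C + a * t ^ 2 + b * t < (n : ℤ) ∧ (n : ℤ) ≤ C + H + a * t ^ 2 + b * t) := by
    intro b
    rw [mem_Ioc, hu, hv, max_lt_iff, le_min_iff, Int.ediv_lt_iff_lt_mul ht0, Int.le_ediv_iff_mul_le ht0]
    constructor
    · rintro ⟨⟨h1, h2⟩, h3, h4⟩
      exact ⟨⟨h1, h3⟩, by linarith, by linarith⟩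
    · rintro ⟨⟨h1, h3⟩, h4, h5⟩
      exact ⟨⟨h1, by linarith⟩, h3, by linarith⟩
  have huv : v - u ≤ H := by
    have h1 : (B : ℤ) ≤ u := by rw [hu]; exact le_max_left _ _
    have h2 : v ≤ (B : ℤ) + H := by rw [hv]; exact min_le_left _ _
    linarith
  have hkey := hG n hn hz u v huv (by
    intro b hb
    rw [hmem] at hb
    obtain ⟨⟨h1, h2⟩, h3, h4⟩ := hb
    obtain ⟨b', hb'⟩ : ∃ b' : ℕ, (b' : ℤ) = b := ⟨b.toNat, Int.toNat_of_nonneg (by linarith [Int.natCast_nonneg B])⟩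
    obtain ⟨c', hc'⟩ : ∃ c' : ℕ, (c' : ℤ) = n - a * t ^ 2 - b * t :=
      ⟨((n : ℤ) - a * t ^ 2 - b * t).toNat, Int.toNat_of_nonneg (by linarith [Int.natCast_nonneg C])⟩
    have hb2 : b' ∈ Ioc B (B + H) := by
      rw [mem_Ioc]
      constructor
      · zify; linarith
      · zify; linarith
    have hc2 : c' ∈ Ioc C (C + H) := by
      rw [mem_Ioc]
      constructor
      · zify; linarith
      · zify; linarith
    have h5 := hN' b' hb2 c' hc2
    have e2 : (n : ℤ) + a * ((t' : ℤ) ^ 2 - t ^ 2) + b * ((t' : ℤ) - t) = ((a * t' ^ 2 + b' * t' + c' : ℕ) : ℤ) := by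
      push_cast
      rw [hc', hb']
      ring
    rw [e2]
    constructor
    · rw [mem_Ioc] at hc2
      have : 1 ≤ a * t' ^ 2 + b' * t' + c' := by omega
      exact_mod_cast this
    · exact_mod_cast h5)
  refine le_trans (le_of_eq ?_) hkey
  congr 1
  apply sum_nbij' (fun b : ℕ => (b : ℤ)) (fun b : ℤ => b.toNat)
  · intro b hb
    rw [mem_filter, mem_Ioc] at hb
    rw [hmem]
    obtain ⟨⟨h1, h2⟩, h3, h4⟩ := hb
    refine ⟨⟨by exact_mod_cast h1, by exact_mod_cast h2⟩, by exact_mod_cast h3, by exact_mod_cast h4⟩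
  · intro b hb
    rw [hmem] at hb
    obtain ⟨⟨h1, h2⟩, h3, h4⟩ := hb
    have hb' : ((b.toNat : ℕ) : ℤ) = b := Int.toNat_of_nonneg (by linarith [Int.natCast_nonneg B])
    rw [mem_filter, mem_Ioc]
    refine ⟨⟨?_, ?_⟩, ?_, ?_⟩
    · zify; rw [hb']; exact h1
    · zify; rw [hb']; exact h2
    · zify; rw [hb']; exact h3
    · zify; rw [hb']; exact h4
  · intro b _
    exact Int.toNat_natCast b
  · intro b hb
    rw [hmem] at hb
    exact Int.toNat_of_nonneg (by linarith [hb.1.1, Int.natCast_nonneg B])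
  · intro b _
    rfl

end Pool.Agent.V8H21.QB
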