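import Pool.Agent.N791.U.X8U
import Pool.Agent.N791.U.X9U
import Pool.Agent.H373R2.T7.Minor

set_option autoImplicit false

/-! The constant of Hardy and Littlewood and its truncations, for almost all `c`. -/

namespace Pool.Agent.V8H21.QB

open Finset Filter Topology Pool.Agent.N792
open Pool.Agent.W468.ConjF (SJ PJ PJ_le PJ_tendsto PJ_pos factor_pos)
open Pool.Agent.Y868.TB (low_count_lin)
open Pool.Agent.H373R2.T7 (ev_log' ev_L')
open Pool.Agent.N792.SingTail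

/-- truncation at all levels -/
theorem sing_fix2 (a : ℤ) (ha : 0 < a) {η : ℝ} (hη : 0 < η) (hη1 : η ≤ 1) : ∃ z0 H0 : ℕ, ∀ H : ℕ, H0 ≤ H →
    ∀ z : ℕ, z0 ≤ z → (z : ℝ) ≤ Real.log H → ∀ b : ℤ, (b : ℝ) ^ 2 ≤ (H : ℝ) ^ 2 →
    ∃ Ex ⊆ Icc 1 H, (#Ex : ℝ) ≤ η * H ∧ ∀ c ∈ Icc 1 H, c ∉ Ex → Admissible a b c →
      ∃ S : ℝ, 0 < S ∧ Tendsto (fun y => partialC a b c y) atTop (𝓝 S) ∧
        |eps a b * S * gcdProd a b - Vc a b c z / V1 z| ≤ η * (Vc a b c z / V1 z) := by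
  classical
  obtain ⟨K0, hK0⟩ := exists_nat_ge (1024 / η ^ 3 + 40 / η)
  obtain ⟨N1, h1⟩ := Pool.Agent.N791.U.x8U a ha 1 le_rfl 1 13
  obtain ⟨N2, h2⟩ := ev_L' (8 / η + 2)
  obtain ⟨N3, h3⟩ := ev_log' 26 (256 * 2 ^ 26 / η ^ 3)
  obtain ⟨N4, h4⟩ := ev_log' 65 (2 ^ 65)
  refine ⟨K0 + 4 * a.toNat + 4, N1 + N2 + N3 + N4 + 2, fun H hH z hz hzL b hb => ?_⟩
  have hH2 : H ≤ H ^ 2 := by nlinarith
  have hHr : (2 : ℝ) ≤ H := by exact_mod_cast (by omega : 2 ≤ H)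
  have hH0 : (0 : ℝ) < H := by linarith
  have c2 := h2 H (by omega)
  have c3 := h3 H (by omega)
  have c4 := h4 H (by omega)
  have h8η : 0 < 8 / η := by positivity
  obtain ⟨L, hL⟩ : ∃ L, L = Real.log (H : ℝ) := ⟨_, rfl⟩
  rw [← hL] at c2 c3 c4 hzL
  have hz0' : (0 : ℝ) ≤ z := Nat.cast_nonneg _
  have hL1 : 1 ≤ L := by linarith
  have hL0 : 0 < L := by linarith
  have hlogx : Real.log ((H ^ 2 : ℕ) : ℝ) = 2 * L := by
    push_cast
    rw [Real.log_pow, hL]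
    norm_num
  have hs : √(H : ℝ) ≤ H := by
    rw [Real.sqrt_le_left hH0.le]
    nlinarith
  -- the larger level
  obtain ⟨w, hw⟩ : ∃ w : ℕ, w = ⌈(2 * L) ^ 12⌉₊ + z := ⟨_, rfl⟩
  have hw1 : (2 * L) ^ 12 ≤ w := by
    rw [hw]
    push_cast
    have := Nat.le_ceil ((2 * L) ^ 12)
    linarith
  have hw2 : (w : ℝ) ≤ (2 * L) ^ 13 := by
    have k1 : (w : ℝ) ≤ (2 * L) ^ 12 + 1 + z := by
      rw [hw]
      push_cast
      have := (Nat.ceil_lt_add_one (show 0 ≤ (2 * L) ^ 12 by positivity)).le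
      linarith
    have k2 : (1 : ℝ) ≤ (2 * L) ^ 12 := one_le_pow₀ (by linarith)
    have k3 : (2 * L) ^ 13 = (2 * L) ^ 12 * (2 * L) := pow_succ _ _
    nlinarith
  have hw5 : (w : ℝ) ^ 5 ≤ ((H ^ 2 : ℕ) : ℝ) := by
    calc (w : ℝ) ^ 5 ≤ ((2 * L) ^ 13) ^ 5 := pow_le_pow_left₀ (Nat.cast_nonneg _) hw2 5
      _ = 2 ^ 65 * L ^ 65 := by rw [← pow_mul, mul_pow]
      _ ≤ H := c4.trans hs
      _ ≤ ((H ^ 2 : ℕ) : ℝ) := by exact_mod_cast hH2
  have hw15 : (w : ℝ) ≤ ((H ^ 2 : ℕ) : ℝ) ^ (1 / 5 : ℝ) := by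
    calc (w : ℝ) = ((w : ℝ) ^ 5) ^ (((5 : ℕ) : ℝ)⁻¹) := (Real.pow_rpow_inv_natCast (Nat.cast_nonneg _) (by norm_num)).symm
      _ ≤ ((H ^ 2 : ℕ) : ℝ) ^ (((5 : ℕ) : ℝ)⁻¹) := Real.rpow_le_rpow (by positivity) hw5 (by positivity)
      _ = _ := by norm_num
  have hzw : z ≤ w := by rw [hw]; omega
  have hz2 : 2 ≤ z := by omega
  have haz : a ≤ z := by omega
  have hhalf : ((H ^ 2 : ℕ) : ℝ) ^ (1 / 2 : ℝ) ≤ H := by
    rw [← Real.sqrt_eq_rpow]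
    push_cast
    rw [Real.sqrt_sq hH0.le]
  obtain ⟨Ex8, e1, e2, e3⟩ := h1 (H ^ 2) (by omega) b (by push_cast; linarith) H hhalf hH2 w w
    (by rw [hlogx]; exact hw1) (by rw [hlogx]; exact hw2) le_rfl hw15
  rw [hlogx, pow_one] at e2 e3
  -- the primes between the levels
  obtain ⟨P, hP⟩ : ∃ P : Finset ℕ, P = (Ioc z w).filter Nat.Prime := ⟨_, rfl⟩
  have hτ0 : 0 < η / 8 := by positivity
  have hcnt := low_count_lin (b ^ 2) (-(4 * a)) P z w (H + 1) (by omega) (by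
    intro p hp
    rw [hP, mem_filter, mem_Ioc] at hp
    obtain ⟨⟨h1, h2⟩, h3⟩ := hp
    refine ⟨h3, by omega, h1, h2, ?_⟩
    rw [dvd_neg]
    intro h4
    rcases (Nat.prime_iff_prime_int.1 h3).dvd_or_dvd h4 with h5 | h5
    · have h6 : p ∣ 4 := by exact_mod_cast h5
      have h7 := Nat.le_of_dvd (by norm_num) h6
      omega
    · have := Int.le_of_dvd ha h5
      omega) (η / 8) hτ0
  obtain ⟨Ex1, hE1⟩ : ∃ Ex1 : Finset ℕ, Ex1 = (range (H + 1)).filter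
    (fun c : ℕ => η / 8 < |∑ p ∈ P, (jacobiSym (b ^ 2 + -(4 * a) * (c : ℤ)) p : ℝ) / p|) := ⟨_, rfl⟩
  rw [← hE1] at hcnt
  have hzr : 1024 / η ^ 3 + 40 / η ≤ z := hK0.trans (by exact_mod_cast (by omega : K0 ≤ z))
  have hzη : 1024 / η ^ 3 ≤ z := by
    have : 0 < 40 / η := by positivity
    linarith
  have hzη2 : 40 / η ≤ z := by
    have : 0 < 1024 / η ^ 3 := by positivity
    linarith
  have hz0 : (0 : ℝ) < z := by exact_mod_cast (by omega : 0 < z)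
  refine ⟨(Ex1 ∪ Ex8) ∩ Icc 1 H, inter_subset_right, ?_, ?_⟩
  · have hcard : (#((Ex1 ∪ Ex8) ∩ Icc 1 H) : ℝ) ≤ #Ex1 + #Ex8 := by
      have := (card_le_card (inter_subset_left (s₁ := Ex1 ∪ Ex8) (s₂ := Icc 1 H))).trans (card_union_le Ex1 Ex8)
      exact_mod_cast this
    have k1 : (#Ex8 : ℝ) ≤ η / 2 * H := by
      refine e2.trans ?_
      rw [div_le_iff₀ (by positivity)]
      have : 8 / η ≤ L := by linarith
      rw [div_le_iff₀ hη] at this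
      nlinarith
    have k2 : (#Ex1 : ℝ) ≤ η / 2 * H := by
      refine hcnt.trans ?_
      rw [div_le_iff₀ (by positivity)]
      have m1 : 2 * (((H + 1 : ℕ) : ℝ) / z) ≤ η / 4 * H * (η / 8) ^ 2 := by
        rw [← mul_div_assoc, div_le_iff₀ hz0]
        push_cast
        rw [div_le_iff₀ (by positivity)] at hzη
        nlinarith
      have m2 : (w : ℝ) ^ 2 ≤ η / 4 * H * (η / 8) ^ 2 := by
        have m3 : (w : ℝ) ^ 2 ≤ ((2 * L) ^ 13) ^ 2 := pow_le_pow_left₀ (Nat.cast_nonneg _) hw2 2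
        have m4 : ((2 * L) ^ 13) ^ 2 = 2 ^ 26 * L ^ 26 := by rw [← pow_mul, mul_pow]
        have m5 := c3.trans hs
        have m6 : 256 * 2 ^ 26 / η ^ 3 * L ^ 26 = 256 * (2 ^ 26 * L ^ 26) / η ^ 3 := by ring
        rw [m6, div_le_iff₀ (by positivity)] at m5
        rw [m4] at m3
        nlinarith
      linarith
    linarith
  · intro c hc hcE hadm
    rw [mem_inter, mem_union, not_and'] at hcE
    have hcE' := hcE hc
    rw [not_or] at hcE'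
    obtain ⟨g1, g2⟩ := hcE'
    have hcC := mem_Icc.1 hc
    obtain ⟨-, f2⟩ := e3 c hc g2
    obtain ⟨S, hS0, hS1, hS2⟩ := f2 hadm
    refine ⟨S, hS0, hS1, ?_⟩
    obtain ⟨D, hD⟩ : ∃ D : ℤ, D = b ^ 2 - 4 * a * (c : ℤ) := ⟨_, rfl⟩
    have hSJ : |SJ D z w| ≤ η / 8 := by
      rw [hE1, mem_filter, not_and] at g1
      have h2 := g1 (by rw [mem_range]; omega)
      rw [not_lt] at h2
      have h3 : b ^ 2 + -(4 * a) * (c : ℤ) = D := by rw [hD]; ring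
      rw [h3, hP] at h2
      exact h2
    have h5z : 5 / (z : ℝ) ≤ η / 8 := by
      rw [div_le_iff₀ hz0]
      rw [div_le_iff₀ hη] at hzη2
      linarith
    have hPJ := PJ_close hz2 hzw hτ0.le (by linarith) hSJ
    have hPJ2 : |PJ D z w - 1| ≤ η / 2 := by linarith
    have hsplit := SingTail.Vc_split (b := b) (c := c) ha hz2 haz hzw
    rw [← hD] at hsplit
    have hVz := Pool.Agent.N792.V1_pos z
    have hVw := Pool.Agent.N792.V1_pos w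
    have hR : Vc a b c w / V1 w = Vc a b c z / V1 z * PJ D z w := by
      field_simp
      linarith
    have hRn : 0 ≤ Vc a b c z / V1 z := div_nonneg (Vc_nonneg _ _ _ _) hVz.le
    obtain ⟨R, hRd⟩ : ∃ R, R = Vc a b c z / V1 z := ⟨_, rfl⟩
    rw [← hRd] at hR hRn ⊢
    rw [hR] at hS2
    have h6 := (abs_le.1 hPJ2)
    have h7 : R * PJ D z w ≤ 2 * R := by nlinarith
    have h8 : R * PJ D z w / (2 * L) ≤ η / 8 * R := by
      rw [div_le_iff₀ (by positivity)]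
      have : 8 / η ≤ L := by linarith
      rw [div_le_iff₀ hη] at this
      nlinarith
    have h9 : |R * PJ D z w - R| ≤ η / 2 * R := by
      have : R * PJ D z w - R = R * (PJ D z w - 1) := by ring
      rw [this, abs_mul, abs_of_nonneg hRn]
      nlinarith
    calc |eps a b * S * gcdProd a b - R| ≤ |eps a b * S * gcdProd a b - R * PJ D z w| + |R * PJ D z w - R| := abs_sub_le _ _ _
      _ ≤ η / 8 * R + η / 2 * R := add_le_add (hS2.trans h8) h9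
      _ ≤ η * R := by nlinarith

/-- truncation at a fixed level -/
theorem sing_fix (a : ℤ) (ha : 0 < a) {η : ℝ} (hη : 0 < η) (hη1 : η ≤ 1) : ∃ z0 : ℕ, ∀ z : ℕ, z0 ≤ z →
    ∃ H0 : ℕ, ∀ H : ℕ, H0 ≤ H → ∀ b : ℤ, (b : ℝ) ^ 2 ≤ (H : ℝ) ^ 2 →
    ∃ Ex ⊆ Icc 1 H, (#Ex : ℝ) ≤ η * H ∧ ∀ c ∈ Icc 1 H, c ∉ Ex → Admissible a b c →
      ∃ S : ℝ, 0 < S ∧ Tendsto (fun y => partialC a b c y) atTop (𝓝 S) ∧
        |eps a b * S * gcdProd a b - Vc a b c z / V1 z| ≤ η * (Vc a b c z / V1 z) := by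
  obtain ⟨z0, N1, h1⟩ := sing_fix2 a ha hη hη1
  refine ⟨z0, fun z hz => ?_⟩
  obtain ⟨N2, h2⟩ := ev_L' (z : ℝ)
  exact ⟨N1 + N2, fun H hH b hb => h1 H (by omega) z hz (h2 H (by omega)) b hb⟩

end Pool.Agent.V8H21.QB
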