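import Pool.Agent.V8H21.QB.Fin

set_option autoImplicit false

/-! Quantitative forms for the windows. -/

namespace Pool.Agent.V8H21.QB

open Finset
open Pool.Agent.H373R2.T7 (lamz Vz pz Vz_pos Vz_inv_small mem_pz lamz_nonneg ev_log' ev_L' Vz_le_one)
open Pool.Agent.V8H21.SQ (ppw ppw_nn sum_ppw fh pw mem_pw gk gk_nonneg gk_le fh_pow tele one_le_fh)


/-- powers of `log log H` -/
lemma ev_llp (k : ℕ) (M : ℝ) : ∃ H0 : ℕ, ∀ H : ℕ, H0 ≤ H → M * Real.log (Real.log H) ^ k ≤ √(Real.log H) := by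
  have h := (isLittleO_log_rpow_rpow_atTop (k : ℝ) (show (0 : ℝ) < 1 / 2 by norm_num)).bound
    (show 0 < 1 / (|M| + 1) by positivity)
  have h2 := (Real.tendsto_log_atTop.comp (tendsto_natCast_atTop_atTop (R := ℝ))).eventually h
  obtain ⟨x0, hx0⟩ := Filter.eventually_atTop.1 h2
  obtain ⟨x1, hx1⟩ := ev_L' 1
  refine ⟨x0 + x1, fun H hH => ?_⟩
  have h3 := hx0 H (by omega)
  have h4 := hx1 H (by omega)
  simp only [Function.comp] at h3
  have hl : 0 ≤ Real.log (Real.log H) := Real.log_nonneg h4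
  have hL0 : 0 < Real.log (H : ℝ) := by linarith
  rw [Real.norm_of_nonneg (by positivity), Real.norm_of_nonneg (by positivity), Real.rpow_natCast, ← Real.sqrt_eq_rpow] at h3
  calc M * Real.log (Real.log H) ^ k ≤ (|M| + 1) * Real.log (Real.log H) ^ k := by
        apply mul_le_mul_of_nonneg_right _ (by positivity)
        have := le_abs_self M
        linarith
    _ ≤ (|M| + 1) * (1 / (|M| + 1) * √(Real.log H)) := mul_le_mul_of_nonneg_left h3 (by positivity)
    _ = √(Real.log H) := by field_simp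

/-- the pointwise inequality -/
lemma prime_pt2 (E : ℕ) : ∃ H0 : ℕ, ∀ H : ℕ, H0 ≤ H → ∀ N : ℕ, (N : ℝ) ≤ H * Real.log H ^ E →
    ∀ n : ℕ, n ≤ N → |ArithmeticFunction.vonMangoldt n - Real.log H * ip n| ≤
      ppw n + 1 / √(Real.log H) * ArithmeticFunction.vonMangoldt n + (if (n : ℝ) < H / Real.log H ^ 2 then Real.log H else 0) := by
  obtain ⟨N1, h1⟩ := ev_llp 1 (E + 4)
  obtain ⟨N2, h2⟩ := ev_L' 2
  refine ⟨N1 + N2 + 2, fun H hH N hN n hn => ?_⟩
  have c1 := h1 H (by omega)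
  have c2 := h2 H (by omega)
  have hH0 : (0 : ℝ) < H := by exact_mod_cast (by omega : 0 < H)
  obtain ⟨L, hL⟩ : ∃ L, L = Real.log (H : ℝ) := ⟨_, rfl⟩
  rw [← hL] at c1 c2 hN ⊢
  rw [pow_one] at c1
  have hL0 : 0 < L := by linarith
  have hsL : 0 < √L := Real.sqrt_pos.2 hL0
  have hsq : √L * √L = L := Real.mul_self_sqrt hL0.le
  have hs1 : 1 ≤ √L := by
    rw [Real.one_le_sqrt]
    linarith
  obtain ⟨δ, hδd⟩ : ∃ δ, δ = 1 / √L := ⟨_, rfl⟩
  rw [← hδd]
  have hδ : 0 < δ := by rw [hδd]; positivity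
  have hδ1 : δ ≤ 1 := by
    rw [hδd, div_le_one hsL]
    exact hs1
  have hδL : δ * L = √L := by
    rw [hδd, div_mul_eq_mul_div, one_mul]
    exact Real.div_sqrt
  have hiff : 0 ≤ (if (n : ℝ) < H / L ^ 2 then L else 0) := by
    split_ifs <;> linarith
  have hvn : (0 : ℝ) ≤ ArithmeticFunction.vonMangoldt n := ArithmeticFunction.vonMangoldt_nonneg
  by_cases hp : n.Prime
  · have hn0 : (0 : ℝ) < n := by exact_mod_cast hp.pos
    have e1 : ArithmeticFunction.vonMangoldt n = Real.log n := ArithmeticFunction.vonMangoldt_apply_prime hp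
    have e2 : ip n = 1 := by unfold ip; rw [if_pos hp]
    have e3 : ppw n = 0 := by unfold ppw; rw [if_pos hp]
    rw [e1] at hvn ⊢
    rw [e2, e3, mul_one, zero_add]
    have hll : 0 < Real.log L := Real.log_pos (by linarith)
    by_cases hlt : (n : ℝ) < H / L ^ 2
    · rw [if_pos hlt]
      have h3 : Real.log n ≤ L := by
        rw [hL]
        apply Real.log_le_log hn0
        have : (H : ℝ) / L ^ 2 ≤ H := div_le_self hH0.le (by nlinarith)
        linarith
      rw [abs_le]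
      have : 0 ≤ δ * Real.log n := by positivity
      constructor <;> linarith
    · rw [if_neg hlt, add_zero]
      rw [not_lt] at hlt
      have h4 : L - 2 * Real.log L ≤ Real.log n := by
        have := Real.log_le_log (by positivity) hlt
        rw [Real.log_div hH0.ne' (by positivity), Real.log_pow, ← hL] at this
        push_cast at this
        linarith
      have h5 : Real.log n ≤ L + E * Real.log L := by
        have h6 : (n : ℝ) ≤ H * L ^ E := le_trans (by exact_mod_cast hn) hN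
        have := Real.log_le_log hn0 h6
        rw [Real.log_mul hH0.ne' (by positivity), Real.log_pow, ← hL] at this
        linarith
      have h7 : (E + 2 + 2 * δ) * Real.log L ≤ δ * L := by
        rw [hδL]
        refine le_trans ?_ c1
        apply mul_le_mul_of_nonneg_right _ hll.le
        linarith
      have h10 : δ * (L - 2 * Real.log L) ≤ δ * Real.log n := mul_le_mul_of_nonneg_left h4 hδ.le
      have h11 : 0 ≤ (E : ℝ) * Real.log L := by positivity
      rw [abs_le]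
      constructor <;> nlinarith
  · have e1 : ppw n = ArithmeticFunction.vonMangoldt n := by unfold ppw; rw [if_neg hp]
    have e2 : ip n = 0 := by unfold ip; rw [if_neg hp]
    rw [e1, e2, mul_zero, sub_zero, abs_of_nonneg hvn]
    have : 0 ≤ δ * ArithmeticFunction.vonMangoldt n := by positivity
    linarith

/-- short intervals -/
lemma lp2 (E : ℕ) : ∃ H0 : ℕ, ∀ H : ℕ, H0 ≤ H → ∀ N : ℕ, H ≤ N → (N : ℝ) ≤ H * Real.log H ^ E →
    ∀ r C : ℕ, r + (C + H) ≤ N → ∑ c ∈ Ioc C (C + H), |ArithmeticFunction.vonMangoldt (r + c) - Real.log H * ip (r + c)| ≤ 4 / √(Real.log H) * H := by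
  classical
  obtain ⟨N1, h1⟩ := prime_pt2 E
  obtain ⟨N2, h2⟩ := sums_bd E
  obtain ⟨N3, h3⟩ := ev_L' 1
  obtain ⟨N4, h4⟩ := ev_log' (E + 4) 16
  refine ⟨N1 + N2 + N3 + N4 + 1, fun H hH N hHN hNE r C hr => ?_⟩
  have c1 := h1 H (by omega) N hNE
  obtain ⟨c2, c2'⟩ := h2 H (by omega) N hHN hNE
  have c3 := h3 H (by omega)
  have c4 := h4 H (by omega)
  obtain ⟨-, -, -, -, c5⟩ := c2' 1 le_rfl (by
    rw [Nat.cast_one]
    exact one_le_pow₀ c3)
  have c6 := c5 r C hr
  have hH1 : (1 : ℝ) ≤ H := by exact_mod_cast (by omega : 1 ≤ H)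
  have hH0 : (0 : ℝ) < H := by linarith
  have hN0 : (0 : ℝ) ≤ N := Nat.cast_nonneg _
  have hN1 : 1 ≤ N := by omega
  obtain ⟨L, hL⟩ : ∃ L, L = Real.log (H : ℝ) := ⟨_, rfl⟩
  rw [← hL] at c1 c2 c3 c4 hNE ⊢
  have hL0 : 0 < L := by linarith
  have hsL : 0 < √L := Real.sqrt_pos.2 hL0
  have hsq : √L * √L = L := Real.mul_self_sqrt hL0.le
  have hs1 : 1 ≤ √L := by
    rw [Real.one_le_sqrt]
    linarith
  have hsL2 : √L ≤ L := by nlinarith
  have hinv : 1 / L ≤ 1 / √L := one_div_le_one_div_of_le hsL hsL2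
  have k1 : ∑ c ∈ Ioc C (C + H), ppw (r + c) ≤ 1 / √L * H := by
    have k2 : ∑ c ∈ Ioc C (C + H), ppw (r + c) ≤ ∑ n ∈ Icc 1 N, ppw n := by
      rw [← sum_image (f := ppw) (g := fun c => r + c)]
      · apply sum_le_sum_of_subset_of_nonneg
        · intro n hn
          rw [mem_image] at hn
          obtain ⟨c, hc, rfl⟩ := hn
          rw [mem_Ioc] at hc
          rw [mem_Icc]
          omega
        · intro n _ _
          exact ppw_nn n
      · intro c _ c' _ h
        simp only at h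
        omega
    have k3 := k2.trans (sum_ppw hN1)
    have k4 : √(N : ℝ) ≤ H / (4 * L ^ 2) := by
      apply Real.sqrt_le_iff.2
      refine ⟨by positivity, ?_⟩
      have hs : √(H : ℝ) ≤ H := by
        rw [Real.sqrt_le_left hH0.le]
        nlinarith
      have k5 : 16 * L ^ (E + 4) ≤ H := c4.trans hs
      have k6 : (H / (4 * L ^ 2)) ^ 2 = (H : ℝ) * H * (1 / (16 * L ^ 4)) := by
        rw [div_pow, mul_pow]
        field_simp
        norm_num
      rw [k6]
      have k7 : 0 ≤ 1 / (16 * L ^ 4) := by positivity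
      calc (N : ℝ) ≤ H * L ^ E := hNE
        _ = H * (16 * L ^ (E + 4)) * (1 / (16 * L ^ 4)) := by
            rw [pow_add]
            field_simp
        _ ≤ H * H * (1 / (16 * L ^ 4)) := by gcongr
    calc ∑ c ∈ Ioc C (C + H), ppw (r + c) ≤ 2 * √(N : ℝ) * Real.log N := k3
      _ ≤ 2 * (H / (4 * L ^ 2)) * (2 * L) := by
          apply mul_le_mul _ c2 (Real.log_natCast_nonneg _) (by positivity)
          linarith
      _ = 1 / L * H := by
          field_simp
          ring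
      _ ≤ _ := mul_le_mul_of_nonneg_right hinv hH0.le
  have k8 : ∑ c ∈ Ioc C (C + H), (if ((r + c : ℕ) : ℝ) < H / L ^ 2 then L else 0) ≤ 1 / √L * H := by
    rw [← sum_filter, sum_const, nsmul_eq_mul]
    have k9 : (((Ioc C (C + H)).filter (fun c => ((r + c : ℕ) : ℝ) < H / L ^ 2)).card : ℝ) ≤ H / L ^ 2 := by
      have k10 : (Ioc C (C + H)).filter (fun c => ((r + c : ℕ) : ℝ) < H / L ^ 2) ⊆ Ioc 0 ⌊(H : ℝ) / L ^ 2⌋₊ := by
        intro c hc
        rw [mem_filter, mem_Ioc] at hc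
        rw [mem_Ioc]
        refine ⟨by omega, ?_⟩
        apply Nat.le_floor
        have : (c : ℝ) ≤ ((r + c : ℕ) : ℝ) := by exact_mod_cast (by omega : c ≤ r + c)
        linarith [hc.2]
      have k11 := card_le_card k10
      rw [Nat.card_Ioc, Nat.sub_zero] at k11
      have k12 : ((⌊(H : ℝ) / L ^ 2⌋₊ : ℕ) : ℝ) ≤ H / L ^ 2 := Nat.floor_le (by positivity)
      have k13 : (((Ioc C (C + H)).filter (fun c => ((r + c : ℕ) : ℝ) < H / L ^ 2)).card : ℝ) ≤ ((⌊(H : ℝ) / L ^ 2⌋₊ : ℕ) : ℝ) := by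
        exact_mod_cast k11
      linarith
    calc (((Ioc C (C + H)).filter (fun c => ((r + c : ℕ) : ℝ) < H / L ^ 2)).card : ℝ) * L ≤ H / L ^ 2 * L := by gcongr
      _ = 1 / L * H := by field_simp
      _ ≤ _ := mul_le_mul_of_nonneg_right hinv hH0.le
  calc ∑ c ∈ Ioc C (C + H), |ArithmeticFunction.vonMangoldt (r + c) - L * ip (r + c)| ≤
        ∑ c ∈ Ioc C (C + H), (ppw (r + c) + 1 / √L * ArithmeticFunction.vonMangoldt (r + c) + (if ((r + c : ℕ) : ℝ) < H / L ^ 2 then L else 0)) := by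
        refine sum_le_sum fun c hc => c1 (r + c) ?_
        rw [mem_Ioc] at hc
        omega
    _ = ∑ c ∈ Ioc C (C + H), ppw (r + c) + 1 / √L * ∑ c ∈ Ioc C (C + H), ArithmeticFunction.vonMangoldt (r + c) +
          ∑ c ∈ Ioc C (C + H), (if ((r + c : ℕ) : ℝ) < H / L ^ 2 then L else 0) := by
        rw [sum_add_distrib, sum_add_distrib, mul_sum]
    _ ≤ 1 / √L * H + 1 / √L * (2 * H) + 1 / √L * H := by gcongr
    _ = 4 / √L * H := by ring

/-- the primes and the von Mangoldt function -/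
theorem e42 (E : ℕ) : ∃ H0 : ℕ, ∀ H : ℕ, H0 ≤ H → ∀ a B C N : ℕ, ∀ T : Finset ℕ, Box E a B C H N T →
    ∑ b ∈ Ioc B (B + H), ∑ c ∈ Ioc C (C + H), ∑ t ∈ T,
      |ArithmeticFunction.vonMangoldt (a * t ^ 2 + b * t + c) - Real.log H * ip (a * t ^ 2 + b * t + c)| ≤ 4 / √(Real.log H) * T.card * (H : ℝ) ^ 2 := by
  obtain ⟨N1, h1⟩ := lp2 E
  refine ⟨N1 + 1, fun H hH a B C N T hbox => ?_⟩
  obtain ⟨hHN, hNE, hT1, hval⟩ := hbox
  have c1 := h1 H (by omega) N hHN hNE
  calc ∑ b ∈ Ioc B (B + H), ∑ c ∈ Ioc C (C + H), ∑ t ∈ T,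
        |ArithmeticFunction.vonMangoldt (a * t ^ 2 + b * t + c) - Real.log H * ip (a * t ^ 2 + b * t + c)| =
      ∑ b ∈ Ioc B (B + H), ∑ t ∈ T, ∑ c ∈ Ioc C (C + H),
        |ArithmeticFunction.vonMangoldt (a * t ^ 2 + b * t + c) - Real.log H * ip (a * t ^ 2 + b * t + c)| :=
        sum_congr rfl fun b _ => sum_comm
    _ ≤ ∑ b ∈ Ioc B (B + H), ∑ t ∈ T, 4 / √(Real.log H) * H := by
        refine sum_le_sum fun b hb => sum_le_sum fun t ht => ?_
        apply c1 (a * t ^ 2 + b * t) C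
        apply hval t ht b hb
        rw [mem_Ioc]
        omega
    _ = _ := by
        rw [sum_const, sum_const, Nat.card_Ioc, nsmul_eq_mul, nsmul_eq_mul, Nat.add_sub_cancel_left]
        ring

end Pool.Agent.V8H21.QB
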