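import Pool.Agent.V8H21.QB.Uni1

set_option autoImplicit false

/-! One window: the number of the exceptional pairs. -/

namespace Pool.Agent.V8H21.QB

open Finset
open Pool.Agent.H373R2.T7 (lamz Vz pz Vz_pos Vz_inv_small mem_pz lamz_nonneg ev_log' ev_L' Vz_le_one)
open Pool.Agent.V8H21.SQ (fac_pos fh pw mem_pw gk gk_nonneg gk_le fh_pow tele one_le_fh)


lemma pz_eq_pw (z : ℕ) : pz z = pw 1 z := by
  ext p
  rw [mem_pz, mem_pw]
  constructor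
  · rintro ⟨h1, h2⟩
    exact ⟨h1, h2, h2.one_lt⟩
  · rintro ⟨h1, h2, -⟩
    exact ⟨h1, h2⟩

lemma hh_eq_fh (z : ℕ) (q : ℤ) : hh z q = fh 1 z q := by
  unfold hh fh
  rw [pz_eq_pw]

/-- the weight of a prime -/
lemma gk_one {p : ℕ} (hp : p.Prime) : gk 1 p = 1 / ((p : ℝ) - 1) := by
  unfold gk
  have h2 : (2 : ℝ) ≤ p := by exact_mod_cast hp.two_le
  have h3 : (0 : ℝ) < (p : ℝ) - 1 := by linarith
  have h4 : 1 - 1 / (p : ℝ) = ((p : ℝ) - 1) / p := by field_simp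
  rw [pow_one, h4, inv_div]
  field_simp
  ring

/-- the expansion -/
lemma hh_sum (z : ℕ) (q : ℤ) : hh z q = ∑ S ∈ (pz z).powerset, if (∀ p ∈ S, (p : ℤ) ∣ q) then ∏ p ∈ S, gk 1 p else 0 := by
  have h1 := fh_pow 1 z 1 q
  rw [pow_one, ← hh_eq_fh, ← pz_eq_pw] at h1
  rw [h1]

lemma prod_split {w z : ℕ} (hwz : w ≤ z) (g : ℕ → ℝ) : ∏ p ∈ pz z, g p = (∏ p ∈ pz w, g p) * ∏ p ∈ pw w z, g p := by
  rw [← prod_filter_mul_prod_filter_not (pz z) (fun p => p ≤ w)]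
  congr 1
  · apply prod_congr _ fun _ _ => rfl
    ext p
    simp only [mem_filter, mem_pz]
    constructor
    · rintro ⟨⟨h1, h2⟩, h3⟩
      exact ⟨h3, h2⟩
    · rintro ⟨h1, h2⟩
      exact ⟨⟨by omega, h2⟩, h1⟩
  · apply prod_congr _ fun _ _ => rfl
    ext p
    simp only [mem_filter, mem_pz, mem_pw]
    constructor
    · rintro ⟨⟨h1, h2⟩, h3⟩
      exact ⟨h1, h2, by omega⟩
    · rintro ⟨h1, h2, h3⟩
      exact ⟨⟨h1, h2⟩, by omega⟩

/-- the mean over the differences of an interval -/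
lemma avg_int {w z u Y t : ℕ} (hw : 1 ≤ w) (hwz : w ≤ z) (ht : t ∈ Ioc u (u + Y)) :
    ∑ t' ∈ (Ioc u (u + Y)).erase t, (hh z ((t' : ℤ) - t) - hh w ((t' : ℤ) - t)) ≤ 6 * Y / w := by
  classical
  have hw0 : (0 : ℝ) < w := by exact_mod_cast hw
  have hY0 : (0 : ℝ) ≤ Y := Nat.cast_nonneg _
  have hsub : pz w ⊆ pz z := by
    intro p hp
    rw [mem_pz] at hp ⊢
    exact ⟨hp.1.trans hwz, hp.2⟩
  have hps : (pz w).powerset ⊆ (pz z).powerset := powerset_mono.2 hsub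
  have hg0 : ∀ S ∈ (pz z).powerset, 0 ≤ ∏ p ∈ S, gk 1 p := fun S hS =>
    prod_nonneg fun p hp => gk_nonneg (mem_pz.1 (mem_powerset.1 hS hp)).2
  have h1 : ∀ q : ℤ, hh z q - hh w q = ∑ S ∈ (pz z).powerset \ (pz w).powerset,
      if (∀ p ∈ S, (p : ℤ) ∣ q) then ∏ p ∈ S, gk 1 p else 0 := by
    intro q
    rw [hh_sum, hh_sum, ← sum_sdiff hps]
    ring
  have h2 : ∑ t' ∈ (Ioc u (u + Y)).erase t, (hh z ((t' : ℤ) - t) - hh w ((t' : ℤ) - t)) ≤
      ∑ S ∈ (pz z).powerset \ (pz w).powerset, (∏ p ∈ S, gk 1 p) * ((Y : ℝ) * ∏ p ∈ S, (1 / (p : ℝ))) := by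
    simp only [h1]
    rw [sum_comm]
    refine sum_le_sum fun S hS => ?_
    rw [mem_sdiff] at hS
    have hSp : ∀ p ∈ S, p.Prime := fun p hp => (mem_pz.1 (mem_powerset.1 hS.1 hp)).2
    rw [← sum_filter, sum_const, nsmul_eq_mul, mul_comm]
    apply mul_le_mul_of_nonneg_left _ (hg0 S hS.1)
    have hd : 1 ≤ ∏ p ∈ S, p := Finset.prod_pos fun p hp => (hSp p hp).pos
    have h3 := count_erase (d := ∏ p ∈ S, p) hd ht
    have h4 : (Y : ℝ) * ∏ p ∈ S, (1 / (p : ℝ)) = Y / ((∏ p ∈ S, p : ℕ) : ℝ) := by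
      rw [prod_div_distrib, prod_const_one, mul_one_div]
      push_cast
      rfl
    rw [h4]
    refine le_trans (Nat.cast_le.2 (card_le_card ?_)) h3
    intro x hx
    rw [mem_filter] at hx ⊢
    refine ⟨hx.1, ?_⟩
    have h5 : (∏ p ∈ S, p) ∣ ((x : ℤ) - t).natAbs :=
      Finset.prod_primes_dvd _ (fun p hp => (hSp p hp).prime) (fun p hp => Int.natCast_dvd.1 (hx.2 p hp))
    exact Int.natCast_dvd.2 h5
  have hexpand : ∀ y : ℕ, ∑ S ∈ (pz y).powerset, (∏ p ∈ S, gk 1 p) * ((Y : ℝ) * ∏ p ∈ S, (1 / (p : ℝ))) =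
      (Y : ℝ) * ∏ p ∈ pz y, (1 + gk 1 p * (1 / (p : ℝ))) := by
    intro y
    rw [prod_one_add, mul_sum]
    refine sum_congr rfl fun S _ => ?_
    rw [prod_mul_distrib]
    ring
  have h3 : ∑ S ∈ (pz z).powerset \ (pz w).powerset, (∏ p ∈ S, gk 1 p) * ((Y : ℝ) * ∏ p ∈ S, (1 / (p : ℝ))) =
      (Y : ℝ) * ((∏ p ∈ pz w, (1 + gk 1 p * (1 / (p : ℝ)))) * (∏ p ∈ pw w z, (1 + gk 1 p * (1 / (p : ℝ))) - 1)) := by
    have h4 := sum_sdiff (f := fun S => (∏ p ∈ S, gk 1 p) * ((Y : ℝ) * ∏ p ∈ S, (1 / (p : ℝ)))) hps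
    rw [hexpand z, hexpand w, prod_split hwz (fun p => 1 + gk 1 p * (1 / (p : ℝ)))] at h4
    linarith
  rw [h3] at h2
  refine h2.trans ?_
  -- exponential bounds
  have hterm : ∀ p : ℕ, p.Prime → gk 1 p * (1 / (p : ℝ)) = 1 / ((p : ℝ) * (p - 1)) := by
    intro p hp
    rw [gk_one hp]
    have h2 : (2 : ℝ) ≤ p := by exact_mod_cast hp.two_le
    have h3 : (0 : ℝ) < (p : ℝ) - 1 := by linarith
    field_simp
  have hexp : ∀ x y : ℕ, 1 ≤ x → ∏ p ∈ pw x y, (1 + gk 1 p * (1 / (p : ℝ))) ≤ Real.exp (1 / x) := by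
    intro x y hx
    calc ∏ p ∈ pw x y, (1 + gk 1 p * (1 / (p : ℝ))) ≤ Real.exp (∑ p ∈ pw x y, gk 1 p * (1 / (p : ℝ))) := by
          rw [Real.exp_sum]
          apply prod_le_prod
          · intro p hp
            have := gk_nonneg (k := 1) (mem_pw.1 hp).2.1
            positivity
          · intro p _
            have := Real.add_one_le_exp (gk 1 p * (1 / (p : ℝ)))
            linarith
      _ ≤ Real.exp (1 / x) := by
          apply Real.exp_le_exp.2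
          refine le_trans (le_of_eq ?_) (tele hx y)
          exact sum_congr rfl fun p hp => hterm p (mem_pw.1 hp).2.1
  have hone : 1 ≤ ∏ p ∈ pw w z, (1 + gk 1 p * (1 / (p : ℝ))) := by
    calc (1 : ℝ) = ∏ _p ∈ pw w z, (1 : ℝ) := by rw [prod_const_one]
      _ ≤ _ := by
          apply prod_le_prod (fun _ _ => zero_le_one)
          intro p hp
          have := gk_nonneg (k := 1) (mem_pw.1 hp).2.1
          have : 0 ≤ gk 1 p * (1 / (p : ℝ)) := by positivity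
          linarith
  have h4 : ∏ p ∈ pz w, (1 + gk 1 p * (1 / (p : ℝ))) ≤ 3 := by
    rw [pz_eq_pw]
    refine (hexp 1 w le_rfl).trans ?_
    rw [Nat.cast_one, div_one]
    exact Real.exp_one_lt_three.le
  have h5 : ∏ p ∈ pw w z, (1 + gk 1 p * (1 / (p : ℝ))) - 1 ≤ 2 / w := by
    have h6 := hexp w z hw
    have h7 : 1 / (w : ℝ) ≤ 1 := by
      rw [div_le_one hw0]
      exact_mod_cast hw
    have h8 := Real.abs_exp_sub_one_le (x := 1 / (w : ℝ)) (by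
      rw [abs_of_pos (by positivity)]
      exact h7)
    rw [abs_of_pos (show 0 < 1 / (w : ℝ) by positivity)] at h8
    have h9 := (abs_le.1 h8).2
    have h10 : 2 / (w : ℝ) = 2 * (1 / w) := by ring
    rw [h10]
    linarith
  calc (Y : ℝ) * ((∏ p ∈ pz w, (1 + gk 1 p * (1 / (p : ℝ)))) * (∏ p ∈ pw w z, (1 + gk 1 p * (1 / (p : ℝ))) - 1)) ≤
        (Y : ℝ) * (3 * (2 / w)) := by
        apply mul_le_mul_of_nonneg_left _ hY0
        apply mul_le_mul h4 h5 (by linarith) (by norm_num)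
    _ = _ := by ring

/-- few exceptional pairs for one window -/
theorem one_win (E : ℕ) : ∃ H0 : ℕ, ∀ H : ℕ, H0 ≤ H → ∀ a B C N : ℕ, ∀ u n : ℕ,
    Box E a B C H N (Ioc u (u + n)) → 1 ≤ n → ((u + n : ℕ) : ℝ) ≤ Real.log H ^ E →
    ∀ z : ℕ, 1 ≤ z → (z : ℝ) ≤ Real.log H ^ E → ∀ τ : ℝ, 0 < τ →
    (((Ioc B (B + H) ×ˢ Ioc C (C + H)).filter (fun q => 3 * τ * n <
      |Real.log H * NP a q.1 q.2 (Ioc u (u + n)) - NZ z a q.1 q.2 (Ioc u (u + n))|)).card : ℝ) ≤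
      (H : ℝ) ^ 2 * (4 / (τ * √(Real.log H)) + (12 * Real.log H / n + 2 / Real.log H + 6 / z) / τ ^ 2) := by
  classical
  obtain ⟨N1, h1⟩ := e42 (E + 1)
  obtain ⟨N2, h2⟩ := second1 (E + 1)
  obtain ⟨N3, h3⟩ := second2 (E + 1)
  obtain ⟨N4, h4⟩ := ev_L' 2
  refine ⟨N1 + N2 + N3 + N4 + 1, fun H hH a B C N u n hbox hn hnE z hz hzE τ hτ => ?_⟩
  have c4 := h4 H (by omega)
  have hH0 : (0 : ℝ) < H := by exact_mod_cast (by omega : 0 < H)
  obtain ⟨L, hL⟩ : ∃ L, L = Real.log (H : ℝ) := ⟨_, rfl⟩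
  rw [← hL] at c4 hzE hnE ⊢
  have hL0 : 0 < L := by linarith
  have hsL : 0 < √L := Real.sqrt_pos.2 hL0
  have hn0 : (0 : ℝ) < n := by exact_mod_cast hn
  have hz0 : (0 : ℝ) < z := by exact_mod_cast hz
  obtain ⟨T, hT⟩ : ∃ T, T = Ioc u (u + n) := ⟨_, rfl⟩
  have hTc : ((T.card : ℕ) : ℝ) = n := by rw [hT, Nat.card_Ioc, Nat.add_sub_cancel_left]
  obtain ⟨Z, hZ⟩ : ∃ Z : ℕ, Z = ⌈L ^ E⌉₊ := ⟨_, rfl⟩
  have hZge : L ^ E ≤ Z := by rw [hZ]; exact Nat.le_ceil _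
  have hZle : (Z : ℝ) ≤ L ^ (E + 1) := by
    have h5 : (Z : ℝ) < L ^ E + 1 := by rw [hZ]; exact Nat.ceil_lt_add_one (by positivity)
    have h6 : 1 ≤ L ^ E := one_le_pow₀ (by linarith)
    have h7 : L ^ (E + 1) = L ^ E * L := pow_succ _ _
    nlinarith
  have hzZ : z ≤ Z := by
    have : (z : ℝ) ≤ Z := hzE.trans hZge
    exact_mod_cast this
  have hTZ : ∀ t ∈ T, t ≤ Z := by
    intro t ht
    rw [hT, mem_Ioc] at ht
    have h5 : (t : ℝ) ≤ ((u + n : ℕ) : ℝ) := by exact_mod_cast ht.2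
    have : (t : ℝ) ≤ Z := h5.trans (hnE.trans hZge)
    exact_mod_cast this
  rw [← hT] at hbox ⊢
  have hbox' : Box (E + 1) a B C H N T := by
    obtain ⟨b1, b2, b3, b4⟩ := hbox
    rw [← hL] at b2
    refine ⟨b1, ?_, b3, b4⟩
    rw [← hL]
    refine b2.trans ?_
    apply mul_le_mul_of_nonneg_left _ hH0.le
    exact pow_le_pow_right₀ (by linarith) (Nat.le_succ _)
  have s1 := h1 H (by omega) a B C N T hbox'
  have s2 := h2 H (by omega) a B C N T hbox' Z (by omega) (by rw [← hL]; exact hZle) hTZ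
  have s3 := h3 H (by omega) a B C N T hbox' z Z hz hzZ (by rw [← hL]; exact hZle)
  have s4 : ∑ t ∈ T, ∑ t' ∈ T.erase t, (hh Z ((t' : ℤ) - t) - hh z ((t' : ℤ) - t)) ≤ 6 * (n : ℝ) ^ 2 / z := by
    calc _ ≤ ∑ _t ∈ T, 6 * (n : ℝ) / z := by
          refine sum_le_sum fun t ht => ?_
          rw [hT] at ht ⊢
          exact avg_int hz hzZ ht
      _ = _ := by
          rw [sum_const, nsmul_eq_mul, hTc]
          ring
  rw [← hL, hTc] at s1 s2 s3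
  -- the three sets
  obtain ⟨Q, hQ⟩ : ∃ Q, Q = Ioc B (B + H) ×ˢ Ioc C (C + H) := ⟨_, rfl⟩
  obtain ⟨f1, hf1⟩ : ∃ f1 : ℕ × ℕ → ℝ, f1 = fun q => ∑ t ∈ T, |ArithmeticFunction.vonMangoldt (a * t ^ 2 + q.1 * t + q.2) - L * ip (a * t ^ 2 + q.1 * t + q.2)| := ⟨_, rfl⟩
  obtain ⟨f2, hf2⟩ : ∃ f2 : ℕ × ℕ → ℝ, f2 = fun q => ∑ t ∈ T, gd Z (a * t ^ 2 + q.1 * t + q.2) := ⟨_, rfl⟩
  obtain ⟨f3, hf3⟩ : ∃ f3 : ℕ × ℕ → ℝ, f3 = fun q => ∑ t ∈ T, (lamz Z (a * t ^ 2 + q.1 * t + q.2) - lamz z (a * t ^ 2 + q.1 * t + q.2)) := ⟨_, rfl⟩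
  have t1 : ∑ q ∈ Q, f1 q ≤ 4 / √L * n * (H : ℝ) ^ 2 := by
    rw [hQ, hf1, sum_product]
    exact s1
  have t2 : ∑ q ∈ Q, f2 q ^ 2 ≤ (H : ℝ) ^ 2 * (6 * L * n + (n : ℝ) ^ 2 / L) := by
    rw [hQ, hf2, sum_product]
    exact s2
  have t3 : ∑ q ∈ Q, f3 q ^ 2 ≤ (H : ℝ) ^ 2 * (6 * L * n + (n : ℝ) ^ 2 / L + 6 * (n : ℝ) ^ 2 / z) := by
    rw [hQ, hf3, sum_product]
    refine s3.trans ?_
    gcongr
  have hf1n : ∀ q, 0 ≤ f1 q := fun q => by rw [hf1]; exact sum_nonneg fun _ _ => abs_nonneg _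
  have hτn : 0 < τ * n := by positivity
  have hτn2 : 0 < (τ * n) ^ 2 := by positivity
  have m1 : ((Q.filter (fun q => τ * n < f1 q)).card : ℝ) * (τ * n) ≤ ∑ q ∈ Q, f1 q := by
    calc ((Q.filter (fun q => τ * n < f1 q)).card : ℝ) * (τ * n) = ∑ _q ∈ Q.filter (fun q => τ * n < f1 q), τ * n := by
          rw [sum_const, nsmul_eq_mul]
      _ ≤ ∑ q ∈ Q.filter (fun q => τ * n < f1 q), f1 q := by
          refine sum_le_sum fun q hq => ?_
          rw [mem_filter] at hq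
          exact hq.2.le
      _ ≤ _ := sum_le_sum_of_subset_of_nonneg (filter_subset _ _) fun q _ _ => hf1n q
  have m23 : ∀ f : ℕ × ℕ → ℝ, ((Q.filter (fun q => τ * n < |f q|)).card : ℝ) * (τ * n) ^ 2 ≤ ∑ q ∈ Q, f q ^ 2 := by
    intro f
    calc ((Q.filter (fun q => τ * n < |f q|)).card : ℝ) * (τ * n) ^ 2 = ∑ _q ∈ Q.filter (fun q => τ * n < |f q|), (τ * n) ^ 2 := by
          rw [sum_const, nsmul_eq_mul]
      _ ≤ ∑ q ∈ Q.filter (fun q => τ * n < |f q|), f q ^ 2 := by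
          refine sum_le_sum fun q hq => ?_
          rw [mem_filter] at hq
          rw [← sq_abs (f q)]
          exact pow_le_pow_left₀ hτn.le hq.2.le 2
      _ ≤ _ := sum_le_sum_of_subset_of_nonneg (filter_subset _ _) fun q _ _ => sq_nonneg _
  have hsub : Q.filter (fun q => 3 * τ * n < |L * NP a q.1 q.2 T - NZ z a q.1 q.2 T|) ⊆
      Q.filter (fun q => τ * n < f1 q) ∪ (Q.filter (fun q => τ * n < |f2 q|) ∪ Q.filter (fun q => τ * n < |f3 q|)) := by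
    intro q hq
    rw [mem_filter] at hq
    rw [mem_union, mem_union, mem_filter, mem_filter, mem_filter]
    by_contra hcon
    rw [not_or, not_or, not_and, not_and, not_and, not_lt, not_lt, not_lt] at hcon
    obtain ⟨g1, g2, g3⟩ := hcon
    have g1' := g1 hq.1
    have g2' := g2 hq.1
    have g3' := g3 hq.1
    have k1 : L * NP a q.1 q.2 T - NZ z a q.1 q.2 T = -(∑ t ∈ T, (ArithmeticFunction.vonMangoldt (a * t ^ 2 + q.1 * t + q.2) - L * ip (a * t ^ 2 + q.1 * t + q.2))) +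
        f2 q + f3 q := by
      rw [hf2, hf3]
      unfold NP NZ gd
      rw [mul_sum, ← sum_neg_distrib, ← sum_add_distrib, ← sum_add_distrib, ← sum_sub_distrib]
      refine sum_congr rfl fun t _ => ?_
      ring
    have k2 : |L * NP a q.1 q.2 T - NZ z a q.1 q.2 T| ≤ f1 q + |f2 q| + |f3 q| := by
      rw [k1]
      refine (abs_add_le _ _).trans (add_le_add ((abs_add_le _ _).trans (add_le_add ?_ le_rfl)) le_rfl)
      rw [abs_neg, hf1]
      exact abs_sum_le_sum_abs _ _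
    linarith [hq.2]
  have hcard : ((Q.filter (fun q => 3 * τ * n < |L * NP a q.1 q.2 T - NZ z a q.1 q.2 T|)).card : ℝ) ≤
      ((Q.filter (fun q => τ * n < f1 q)).card : ℝ) + (((Q.filter (fun q => τ * n < |f2 q|)).card : ℝ) +
        ((Q.filter (fun q => τ * n < |f3 q|)).card : ℝ)) := by
    have k1 := (card_le_card hsub).trans (card_union_le _ _)
    have k2 := card_union_le (Q.filter (fun q => τ * n < |f2 q|)) (Q.filter (fun q => τ * n < |f3 q|))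
    exact_mod_cast k1.trans (Nat.add_le_add_left k2 _)
  have n1 : ((Q.filter (fun q => τ * n < f1 q)).card : ℝ) ≤ (H : ℝ) ^ 2 * (4 / (τ * √L)) := by
    have := m1.trans t1
    have e1 : 4 / √L * n * (H : ℝ) ^ 2 = ((H : ℝ) ^ 2 * (4 / (τ * √L))) * (τ * n) := by
      field_simp
    rw [e1] at this
    exact le_of_mul_le_mul_right this hτn
  have n2 : ((Q.filter (fun q => τ * n < |f2 q|)).card : ℝ) ≤ (H : ℝ) ^ 2 * ((6 * L / n + 1 / L) / τ ^ 2) := by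
    have := (m23 f2).trans t2
    have e1 : (H : ℝ) ^ 2 * (6 * L * n + (n : ℝ) ^ 2 / L) = ((H : ℝ) ^ 2 * ((6 * L / n + 1 / L) / τ ^ 2)) * (τ * n) ^ 2 := by
      field_simp
    rw [e1] at this
    exact le_of_mul_le_mul_right this hτn2
  have n3 : ((Q.filter (fun q => τ * n < |f3 q|)).card : ℝ) ≤ (H : ℝ) ^ 2 * ((6 * L / n + 1 / L + 6 / z) / τ ^ 2) := by
    have := (m23 f3).trans t3
    have e1 : (H : ℝ) ^ 2 * (6 * L * n + (n : ℝ) ^ 2 / L + 6 * (n : ℝ) ^ 2 / z) =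
        ((H : ℝ) ^ 2 * ((6 * L / n + 1 / L + 6 / z) / τ ^ 2)) * (τ * n) ^ 2 := by
      field_simp
    rw [e1] at this
    exact le_of_mul_le_mul_right this hτn2
  rw [← hQ]
  refine hcard.trans ?_
  calc _ ≤ (H : ℝ) ^ 2 * (4 / (τ * √L)) + ((H : ℝ) ^ 2 * ((6 * L / n + 1 / L) / τ ^ 2) +
        (H : ℝ) ^ 2 * ((6 * L / n + 1 / L + 6 / z) / τ ^ 2)) := add_le_add n1 (add_le_add n2 n3)
    _ = _ := by
        field_simp
        ring

end Pool.Agent.V8H21.QB
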