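import Pool.Agent.V8H21.QB.Fin
import Pool.Agent.V8H21.QB.Sing

set_option autoImplicit false

/-! The formula of Hardy and Littlewood with the full constant in windows of length `K log H`. -/

namespace Pool.Agent.V8H21.QB

open Finset Filter Topology
open Pool.Agent.N792 (Vc V1 rho fv Rough Admissible eps gcdProd partialC)
open Pool.Agent.H373R2.T7 (lamz Vz pz Vz_pos Vz_inv_small mem_pz lamz_nonneg ev_log' ev_L' Vz_le_one)

lemma Vz_eq (z : ℕ) : Vz z = V1 z := rfl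

lemma exists_J (K z0 : ℕ) : ∃ J : ℕ, K ≤ 2 ^ 2 ^ J ∧ z0 ≤ 2 ^ 2 ^ J ∧ K * Real.log ((2 ^ 2 ^ J : ℕ) : ℝ) ≤ ((2 ^ 2 ^ J : ℕ) : ℝ) := by
  have h1 := Real.isLittleO_log_id_atTop.bound (show (0 : ℝ) < 1 / (K + 1) by positivity)
  have h2 := (tendsto_natCast_atTop_atTop (R := ℝ)).eventually h1
  obtain ⟨N, h3⟩ := eventually_atTop.1 h2
  have hJ : ∀ J : ℕ, J ≤ 2 ^ 2 ^ J := fun J =>
    (Nat.lt_two_pow_self (n := J)).le.trans (Nat.lt_two_pow_self (n := 2 ^ J)).le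
  refine ⟨K + z0 + N, ?_, ?_, ?_⟩
  · exact (by omega : K ≤ K + z0 + N).trans (hJ _)
  · exact (by omega : z0 ≤ K + z0 + N).trans (hJ _)
  · have h4 := h3 (2 ^ 2 ^ (K + z0 + N)) ((by omega : N ≤ K + z0 + N).trans (hJ _))
    simp only [id] at h4
    have h5 : 0 ≤ Real.log ((2 ^ 2 ^ (K + z0 + N) : ℕ) : ℝ) := Real.log_natCast_nonneg _
    rw [Real.norm_of_nonneg h5, Real.norm_of_nonneg (Nat.cast_nonneg _)] at h4
    obtain ⟨Z, hZ⟩ : ∃ Z : ℝ, Z = ((2 ^ 2 ^ (K + z0 + N) : ℕ) : ℝ) := ⟨_, rfl⟩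
    rw [← hZ] at h4 h5 ⊢
    have h6 : (K : ℝ) * Real.log Z ≤ (K + 1) * Real.log Z := mul_le_mul_of_nonneg_right (by linarith) h5
    have h7 : ((K : ℝ) + 1) * Real.log Z ≤ (K + 1) * (1 / (K + 1) * Z) := mul_le_mul_of_nonneg_left h4 (by positivity)
    have h8 : ((K : ℝ) + 1) * (1 / (K + 1) * Z) = Z := by field_simp
    linarith

open Classical in
lemma rough_eq (J a b c u v : ℕ) (hc : 1 ≤ c) :
    (Ioc u v).filter (fun n : ℕ => ((1 : ℕ) : ℤ) ∣ fv a b c n ∧ Rough (2 ^ 2 ^ J) (fv a b c n).natAbs) =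
      rough (2 ^ 2 ^ J) a b c (Ioc u v) := by
  unfold rough
  ext n
  rw [mem_filter, mem_filter]
  refine and_congr_right fun _ => ?_
  have h1 : (fv a b c n).natAbs = a * n ^ 2 + b * n + c := by
    unfold fv
    have : (a : ℤ) * (n : ℤ) ^ 2 + b * n + c = ((a * n ^ 2 + b * n + c : ℕ) : ℤ) := by push_cast; ring
    rw [this, Int.natAbs_natCast]
  rw [h1]
  unfold Rough
  constructor
  · rintro ⟨-, -, h⟩ p hp hpz hd
    have := h p hp hd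
    omega
  · intro h
    refine ⟨by simp, by omega, fun p hp hd => ?_⟩
    by_contra hcon
    exact h p hp (not_lt.1 hcon) hd

/-- **the formula of Hardy and Littlewood in windows** -/
theorem thmB (a : ℕ) (ha : 0 < a) (E : ℕ) {η : ℝ} (hη : 0 < η) (hη1 : η ≤ 1) : ∃ θ : ℝ, 0 < θ ∧ ∃ K H0 : ℕ, ∀ H : ℕ, H0 ≤ H → ∀ u v : ℕ,
    (v : ℝ) ≤ Real.log H ^ E → K * Real.log H ≤ (v : ℝ) - u →
    ∃ Ex ⊆ Icc 1 H ×ˢ Icc 1 H, (#Ex : ℝ) ≤ η * (H : ℝ) ^ 2 ∧ ∀ q ∈ Icc 1 H ×ˢ Icc 1 H, q ∉ Ex → Admissible a q.1 q.2 →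
      ∃ S : ℝ, 0 < S ∧ Tendsto (fun y => partialC a q.1 q.2 y) atTop (𝓝 S) ∧ θ ≤ eps a q.1 * S * gcdProd a q.1 ∧
        |((primes a q.1 q.2 (Ioc u v)).card : ℝ) - eps a q.1 * S * gcdProd a q.1 * (((v : ℝ) - u) / Real.log H)| ≤
          η * (eps a q.1 * S * gcdProd a q.1 * (((v : ℝ) - u) / Real.log H)) := by
  classical
  have haz : (0 : ℤ) < (a : ℤ) := by exact_mod_cast ha
  obtain ⟨θ, hθ, N1, h1⟩ := Pool.Agent.N791.U.sing_pos_halfU (a : ℤ) haz (η / 4) (by positivity) 1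
  obtain ⟨z0, h2⟩ := sing_fix (a : ℤ) haz (η := η / 8) (by positivity) (by linarith)
  obtain ⟨ε, hε⟩ : ∃ ε, ε = min (η ^ 2 * θ / 16) 1 := ⟨_, rfl⟩
  have hε0 : 0 < ε := by rw [hε]; exact lt_min (by positivity) one_pos
  have hε1 : ε ≤ 1 := by rw [hε]; exact min_le_right _ _
  have hεη : ε ≤ η ^ 2 * θ / 16 := by rw [hε]; exact min_le_left _ _
  obtain ⟨K, N2, hK, h3⟩ := core (3 * E + 1) hε0 hε1
  obtain ⟨J, hJ1, hJ2, hJ3⟩ := exists_J K z0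
  obtain ⟨N3, h4⟩ := h2 (2 ^ 2 ^ J) hJ2
  obtain ⟨C1, hC1, hfl⟩ := Pool.Agent.N791.U.fl_polyU (a : ℤ) haz
  obtain ⟨b0, hb0, hb0η⟩ : ∃ b0 : ℕ, C1 ≤ b0 ∧ ((1 : ℝ) / 2) ^ b0 ≤ η / 16 := by
    obtain ⟨n, hn⟩ := exists_pow_lt_of_lt_one (show (0 : ℝ) < η / 16 by positivity) (show (1 : ℝ) / 2 < 1 by norm_num)
    refine ⟨C1 + n, by omega, le_trans ?_ hn.le⟩
    exact pow_le_pow_of_le_one (by norm_num) (by norm_num) (by omega)
  obtain ⟨z, hz⟩ : ∃ z : ℕ, z = 2 ^ 2 ^ J := ⟨_, rfl⟩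
  obtain ⟨Cst, hCst⟩ : ∃ Cst : ℝ, Cst = (C1 : ℝ) * (J + 2) * (2 ^ 2 ^ J) ^ (C1 * b0) := ⟨_, rfl⟩
  have hCst0 : 0 ≤ Cst := by rw [hCst]; positivity
  obtain ⟨N4, h5⟩ := box_of E
  obtain ⟨N5, h6⟩ := ev_L' (1 + a + z + 16 * (Cst / V1 z) / (η * θ))
  rw [← hz] at h4 hJ1 hJ2 hJ3
  refine ⟨θ / 2, by positivity, K, N1 + N2 + N3 + N4 + N5 + 2, fun H hH u v hvE huv => ?_⟩
  have c6 := h6 H (by omega)
  have hHr : (2 : ℝ) ≤ H := by exact_mod_cast (by omega : 2 ≤ H)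
  have hH0 : (0 : ℝ) < H := by linarith
  obtain ⟨L, hL⟩ : ∃ L, L = Real.log (H : ℝ) := ⟨_, rfl⟩
  have huv' := huv
  have hvE' := hvE
  rw [← hL] at c6 huv hvE ⊢
  have hV1 : 0 < V1 z := Vz_pos z
  have hq0 : 0 ≤ 16 * (Cst / V1 z) / (η * θ) := by positivity
  have ha0 : (0 : ℝ) ≤ a := Nat.cast_nonneg _
  have hzz0 : (0 : ℝ) ≤ z := Nat.cast_nonneg _
  have hL1 : 1 ≤ L := by linarith
  have hL0 : 0 < L := by linarith
  have hE0 : E ≠ 0 := by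
    rintro rfl
    rw [pow_zero] at hvE
    have hK2 : (2 : ℝ) ≤ K := by exact_mod_cast hK
    have : (0 : ℝ) ≤ u := Nat.cast_nonneg _
    nlinarith
  have hLE : L ≤ L ^ E := le_self_pow₀ hL1 hE0
  have hK0 : (0 : ℝ) < K := by exact_mod_cast (by omega : 0 < K)
  have huv0 : (u : ℝ) < v := by
    have : 0 < (K : ℝ) * L := by positivity
    linarith
  have huvn : u ≤ v := by exact_mod_cast huv0.le
  have hTc : (((Ioc u v).card : ℕ) : ℝ) = (v : ℝ) - u := by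
    rw [Nat.card_Ioc, Nat.cast_sub huvn]
  have hTt : ∀ t ∈ Ioc u v, 1 ≤ t ∧ (t : ℝ) ≤ Real.log H ^ E := by
    intro t ht
    rw [mem_Ioc] at ht
    refine ⟨by omega, le_trans ?_ hvE'⟩
    exact_mod_cast ht.2
  have haH : (a : ℝ) ≤ H * Real.log H ^ E := by
    rw [← hL]
    have : (a : ℝ) ≤ L ^ E := by linarith
    have h0 : 0 ≤ L ^ E := by positivity
    nlinarith
  have h0H : (((0 : ℕ) : ℕ) : ℝ) ≤ H * Real.log H ^ E := by
    rw [← hL, Nat.cast_zero]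
    positivity
  have hbox := h5 H (by omega) a 0 0 (Ioc u v) haH h0H h0H hTt
  have hpow : Real.log H ^ E ≤ Real.log H ^ (3 * E + 1) := pow_le_pow_right₀ (by rw [← hL]; exact hL1) (by omega)
  have key := h3 H (by omega) a 0 0 _ (Ioc u v) hbox (fun t ht => (hTt t ht).2.trans hpow) u (v - u)
    (by rw [Nat.add_sub_cancel' huvn]) (by rw [hTc]; exact huv') z hJ1 (by
      refine le_trans ?_ hpow
      rw [← hL]
      linarith) (by
      rw [hTc, Nat.cast_sub huvn, div_self (by linarith), Real.log_one, add_zero, mul_one]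
      exact hJ3)
  rw [Nat.zero_add, ← hL, hTc, ← sum_product'] at key
  have hIoc : Ioc 0 H = Icc 1 H := by
    ext x
    rw [mem_Ioc, mem_Icc]
    omega
  rw [hIoc] at key
  -- the exceptional sets
  have hhalf : ((H ^ 2 : ℕ) : ℝ) ^ (1 / 2 : ℝ) ≤ H := by
    rw [← Real.sqrt_eq_rpow]
    push_cast
    rw [Real.sqrt_sq hH0.le]
  have hHH2 : H ≤ H ^ 2 := by nlinarith
  have hlogx : Real.log ((H ^ 2 : ℕ) : ℝ) = 2 * L := by
    push_cast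
    rw [Real.log_pow, hL]
    norm_num
  have p1 : ∀ b : ℕ, ∃ Ex ⊆ Icc 1 H, (#Ex : ℝ) ≤ η / 4 * H ∧ ∀ c ∈ Icc 1 H, c ∉ Ex → Admissible a b c → θ ≤ Vc a b c z / V1 z := by
    intro b
    exact h1 (H ^ 2) (by omega) b H hhalf hHH2 z (by
      rw [hlogx, pow_one]
      linarith)
  choose X1 x1 x2 x3 using p1
  have p2 : ∀ b : ℕ, ∃ Ex ⊆ Icc 1 H, (b ∈ Icc 1 H → (#Ex : ℝ) ≤ η / 8 * H ∧ ∀ c ∈ Icc 1 H, c ∉ Ex → Admissible a b c →
      ∃ S : ℝ, 0 < S ∧ Tendsto (fun y => partialC a b c y) atTop (𝓝 S) ∧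
        |eps a b * S * gcdProd a b - Vc a b c z / V1 z| ≤ η / 8 * (Vc a b c z / V1 z)) := by
    intro b
    by_cases hb : b ∈ Icc 1 H
    · obtain ⟨Ex, y1, y2, y3⟩ := h4 H (by omega) b (by
        rw [mem_Icc] at hb
        rw [Int.cast_natCast]
        have : (b : ℝ) ≤ H := by exact_mod_cast hb.2
        gcongr)
      exact ⟨Ex, y1, fun _ => ⟨y2, y3⟩⟩
    · exact ⟨∅, empty_subset _, fun h => absurd h hb⟩
  choose X2 y1 y2 using p2
  obtain ⟨Q, hQ⟩ : ∃ Q, Q = Icc 1 H ×ˢ Icc 1 H := ⟨_, rfl⟩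
  obtain ⟨B1, hB1⟩ : ∃ B1, B1 = Q.filter (fun q => η * θ / 4 * ((v : ℝ) - u) < |L * NP a q.1 q.2 (Ioc u v) - NZ z a q.1 q.2 (Ioc u v)|) := ⟨_, rfl⟩
  obtain ⟨B2, hB2⟩ : ∃ B2, B2 = Q.filter (fun q => q.2 ∈ X1 q.1) := ⟨_, rfl⟩
  obtain ⟨B3, hB3⟩ : ∃ B3, B3 = Q.filter (fun q => q.2 ∈ X2 q.1) := ⟨_, rfl⟩
  rw [← hQ] at key ⊢
  have hfib : ∀ (X : ℕ → Finset ℕ) (R : ℝ), (∀ b ∈ Icc 1 H, (#(X b) : ℝ) ≤ R) →
      (#(Q.filter (fun q => q.2 ∈ X q.1)) : ℝ) ≤ H * R := by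
    intro X R hX
    have h8 : #(Q.filter (fun q => q.2 ∈ X q.1)) ≤ ∑ b ∈ Icc 1 H, #(X b) := by
      rw [card_filter, hQ, sum_product]
      refine sum_le_sum fun b _ => ?_
      rw [← card_filter]
      apply card_le_card
      intro c hc
      rw [mem_filter] at hc
      exact hc.2
    calc (#(Q.filter (fun q => q.2 ∈ X q.1)) : ℝ) ≤ ((∑ b ∈ Icc 1 H, #(X b) : ℕ) : ℝ) := by exact_mod_cast h8
      _ = ∑ b ∈ Icc 1 H, (#(X b) : ℝ) := by push_cast; rfl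
      _ ≤ ∑ _b ∈ Icc 1 H, R := sum_le_sum hX
      _ = H * R := by rw [sum_const, nsmul_eq_mul, Nat.card_Icc, Nat.add_sub_cancel]
  have n2 : (#B2 : ℝ) ≤ H * (η / 4 * H) := by
    rw [hB2]
    exact hfib X1 _ fun b _ => x2 b
  have n3 : (#B3 : ℝ) ≤ H * (η / 8 * H) := by
    rw [hB3]
    exact hfib X2 _ fun b hb => (y2 b hb).1
  have hd0 : 0 < (v : ℝ) - u := by linarith
  have n1 : (#B1 : ℝ) ≤ η / 4 * (H : ℝ) ^ 2 := by
    have h7 : (#B1 : ℝ) * (η * θ / 4 * ((v : ℝ) - u)) ≤ ε * ((v : ℝ) - u) * (H : ℝ) ^ 2 := by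
      refine le_trans ?_ key
      calc (#B1 : ℝ) * (η * θ / 4 * ((v : ℝ) - u)) = ∑ _q ∈ B1, η * θ / 4 * ((v : ℝ) - u) := by rw [sum_const, nsmul_eq_mul]
        _ ≤ ∑ q ∈ B1, |L * NP a q.1 q.2 (Ioc u v) - NZ z a q.1 q.2 (Ioc u v)| := by
            refine sum_le_sum fun q hq => ?_
            rw [hB1, mem_filter] at hq
            exact hq.2.le
        _ ≤ _ := by
            rw [hB1]
            exact sum_le_sum_of_subset_of_nonneg (filter_subset _ _) fun _ _ _ => abs_nonneg _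
    have h8 : ε * ((v : ℝ) - u) * (H : ℝ) ^ 2 ≤ (η / 4 * (H : ℝ) ^ 2) * (η * θ / 4 * ((v : ℝ) - u)) := by
      calc ε * ((v : ℝ) - u) * (H : ℝ) ^ 2 ≤ (η ^ 2 * θ / 16) * ((v : ℝ) - u) * (H : ℝ) ^ 2 := by gcongr
        _ = _ := by ring
    exact le_of_mul_le_mul_right (h7.trans h8) (by positivity)
  refine ⟨B1 ∪ B2 ∪ B3, ?_, ?_, ?_⟩
  · rw [hB1, hB2, hB3]
    exact union_subset (union_subset (filter_subset _ _) (filter_subset _ _)) (filter_subset _ _)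
  · have h7 : (#(B1 ∪ B2 ∪ B3) : ℝ) ≤ #B1 + #B2 + #B3 := by
      have := card_union_le (B1 ∪ B2) B3
      have := card_union_le B1 B2
      exact_mod_cast (by omega : #(B1 ∪ B2 ∪ B3) ≤ #B1 + #B2 + #B3)
    have h8 : (0 : ℝ) < (H : ℝ) ^ 2 := by positivity
    nlinarith
  · intro q hq hqE hadm
    rw [mem_union, mem_union, not_or, not_or] at hqE
    obtain ⟨⟨g1, g2⟩, g3⟩ := hqE
    have hq' := hq
    rw [hQ, mem_product] at hq'
    obtain ⟨hqb, hqc⟩ := hq'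
    have f1 : |L * NP a q.1 q.2 (Ioc u v) - NZ z a q.1 q.2 (Ioc u v)| ≤ η * θ / 4 * ((v : ℝ) - u) := by
      by_contra hcon
      rw [not_le] at hcon
      exact g1 (by rw [hB1, mem_filter]; exact ⟨hq, hcon⟩)
    have f2 := x3 q.1 q.2 hqc (fun h => g2 (by rw [hB2, mem_filter]; exact ⟨hq, h⟩)) hadm
    obtain ⟨S, s1, s2, s3⟩ := (y2 q.1 hqb).2 q.2 hqc (fun h => g3 (by rw [hB3, mem_filter]; exact ⟨hq, h⟩)) hadm
    obtain ⟨M, hM⟩ : ∃ M, M = eps a q.1 * S * gcdProd a q.1 := ⟨_, rfl⟩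
    obtain ⟨R, hR⟩ : ∃ R, R = Vc a q.1 q.2 z / V1 z := ⟨_, rfl⟩
    rw [← hM, ← hR] at s3
    rw [← hR] at f2
    have hR0 : 0 < R := lt_of_lt_of_le hθ f2
    have s4 := abs_le.1 s3
    have hMR : R / 2 ≤ M := by nlinarith
    refine ⟨S, s1, s2, ?_, ?_⟩
    · rw [← hM]
      linarith
    rw [← hM]
    -- the count of the rough values
    have hflq := hfl q.1 b0 hb0 J 1 u v q.2 le_rfl (by
      refine ⟨one_ne_zero, fun p hp hd => ?_⟩
      exact absurd (Nat.dvd_one.1 hd) hp.one_lt.ne') huvn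
    rw [rough_eq J a q.1 q.2 u v (mem_Icc.1 hqc).1, ← hz] at hflq
    have hrho : rho (a : ℤ) (q.1 : ℤ) (q.2 : ℤ) 1 = 1 := by
      unfold rho
      rw [filter_true_of_mem]
      · simp
      · intro r _
        simp
    rw [hrho, Nat.cast_one, div_one, one_mul] at hflq
    have hVc : Vc a q.1 q.2 z = R * V1 z := by
      rw [hR]
      field_simp
    rw [hVc] at hflq
    have f3 : |NZ z a q.1 q.2 (Ioc u v) - R * ((v : ℝ) - u)| ≤ η / 8 * (R * ((v : ℝ) - u)) := by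
      rw [NZ_eq, Vz_eq]
      have h7 : ((rough z a q.1 q.2 (Ioc u v)).card : ℝ) * (V1 z)⁻¹ - R * ((v : ℝ) - u) =
          (((rough z a q.1 q.2 (Ioc u v)).card : ℝ) - ((v : ℝ) - u) * (R * V1 z)) * (V1 z)⁻¹ := by
        field_simp
      rw [h7, abs_mul, abs_of_pos (inv_pos.2 hV1), ← div_eq_mul_inv, div_le_iff₀ hV1]
      refine hflq.trans ?_
      have h8 : ((1 : ℝ) / 2) ^ b0 * (((v : ℝ) - u) * (R * V1 z)) ≤ η / 16 * (((v : ℝ) - u) * (R * V1 z)) :=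
        mul_le_mul_of_nonneg_right hb0η (by positivity)
      have h9 : (1 : ℝ) * ((C1 : ℝ) * (J + 2) * (2 ^ 2 ^ J) ^ (C1 * b0)) = Cst := by
        rw [hCst, one_mul]
      have h10 : Cst ≤ η / 16 * (((v : ℝ) - u) * (R * V1 z)) := by
        have h11 : 16 * (Cst / V1 z) / (η * θ) ≤ (v : ℝ) - u := by
          have : L ≤ K * L := le_mul_of_one_le_left hL0.le (by exact_mod_cast (by omega : 1 ≤ K))
          linarith
        rw [div_le_iff₀ (by positivity)] at h11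
        have h12 : 16 * Cst = 16 * (Cst / V1 z) * V1 z := by field_simp
        have h13 : 16 * Cst ≤ ((v : ℝ) - u) * (η * θ) * V1 z := by
          rw [h12]
          exact mul_le_mul_of_nonneg_right h11 hV1.le
        have h14 : ((v : ℝ) - u) * (η * θ) * V1 z ≤ ((v : ℝ) - u) * (η * R) * V1 z := by gcongr
        nlinarith
      rw [h9]
      calc _ ≤ η / 16 * (((v : ℝ) - u) * (R * V1 z)) + η / 16 * (((v : ℝ) - u) * (R * V1 z)) := add_le_add h8 h10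
        _ = _ := by ring
    have f4 : |L * NP a q.1 q.2 (Ioc u v) - M * ((v : ℝ) - u)| ≤ η / 2 * (R * ((v : ℝ) - u)) := by
      have h7 : |R * ((v : ℝ) - u) - M * ((v : ℝ) - u)| ≤ η / 8 * (R * ((v : ℝ) - u)) := by
        rw [← sub_mul, abs_mul, abs_of_pos hd0, abs_sub_comm]
        calc |M - R| * ((v : ℝ) - u) ≤ η / 8 * R * ((v : ℝ) - u) := mul_le_mul_of_nonneg_right s3 hd0.le
          _ = _ := by ring
      have h8 : η * θ / 4 * ((v : ℝ) - u) ≤ η / 4 * (R * ((v : ℝ) - u)) := by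
        have : η * θ / 4 * ((v : ℝ) - u) ≤ η * R / 4 * ((v : ℝ) - u) := by gcongr
        linarith
      calc |L * NP a q.1 q.2 (Ioc u v) - M * ((v : ℝ) - u)| ≤
            |L * NP a q.1 q.2 (Ioc u v) - NZ z a q.1 q.2 (Ioc u v)| + |NZ z a q.1 q.2 (Ioc u v) - M * ((v : ℝ) - u)| := abs_sub_le _ _ _
        _ ≤ |L * NP a q.1 q.2 (Ioc u v) - NZ z a q.1 q.2 (Ioc u v)| +
              (|NZ z a q.1 q.2 (Ioc u v) - R * ((v : ℝ) - u)| + |R * ((v : ℝ) - u) - M * ((v : ℝ) - u)|) :=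
            add_le_add le_rfl (abs_sub_le _ _ _)
        _ ≤ η / 4 * (R * ((v : ℝ) - u)) + (η / 8 * (R * ((v : ℝ) - u)) + η / 8 * (R * ((v : ℝ) - u))) :=
            add_le_add (f1.trans h8) (add_le_add f3 h7)
        _ = _ := by ring
    rw [NP_eq] at f4
    have h15 : ((primes a q.1 q.2 (Ioc u v)).card : ℝ) - M * (((v : ℝ) - u) / L) =
        (L * ((primes a q.1 q.2 (Ioc u v)).card : ℝ) - M * ((v : ℝ) - u)) / L := by
      field_simp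
    rw [h15, abs_div, abs_of_pos hL0, div_le_iff₀ hL0]
    refine f4.trans ?_
    have h16 : η * (M * (((v : ℝ) - u) / L)) * L = η * (M * ((v : ℝ) - u)) := by field_simp
    rw [h16]
    have h17 : R * ((v : ℝ) - u) ≤ 2 * (M * ((v : ℝ) - u)) := by nlinarith
    nlinarith

end Pool.Agent.V8H21.QB
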