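import Pool.Agent.V8H21.QB.Uni2
import Pool.Agent.V8H21.QB.Window

set_option autoImplicit false

/-! The formula of Hardy and Littlewood uniformly in the length. -/

namespace Pool.Agent.V8H21.QB

open Finset Filter Topology
open Pool.Agent.N792 (Vc V1 rho fv Rough Admissible eps gcdProd partialC)
open Pool.Agent.H373R2.T7 (lamz Vz pz Vz_pos Vz_inv_small mem_pz lamz_nonneg ev_log' ev_L' Vz_le_one)

/-- a level of the right size -/
lemma exists_level {x : ℝ} (hx : 4 ≤ x) : ∃ J : ℕ, x ≤ ((2 ^ 2 ^ J : ℕ) : ℝ) ∧ ((2 ^ 2 ^ J : ℕ) : ℝ) ≤ x ^ 2 := by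
  have hex : ∃ J : ℕ, x ≤ ((2 ^ 2 ^ J : ℕ) : ℝ) := by
    obtain ⟨n, hn⟩ := exists_nat_ge x
    refine ⟨n, hn.trans ?_⟩
    have : n ≤ 2 ^ 2 ^ n := (Nat.lt_two_pow_self (n := n)).le.trans (Nat.lt_two_pow_self (n := 2 ^ n)).le
    exact_mod_cast this
  classical
  obtain ⟨J, hJ⟩ : ∃ J, J = Nat.find hex := ⟨_, rfl⟩
  refine ⟨J, by rw [hJ]; exact Nat.find_spec hex, ?_⟩
  have hJ1 : 1 ≤ J := by
    by_contra hcon
    have h0 : J = 0 := by omega
    have h1 := Nat.find_spec hex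
    rw [← hJ, h0] at h1
    norm_num at h1
    linarith
  have h2 := Nat.find_min hex (m := J - 1) (by omega)
  rw [not_le] at h2
  have h3 : ((2 ^ 2 ^ J : ℕ) : ℝ) = ((2 ^ 2 ^ (J - 1) : ℕ) : ℝ) ^ 2 := by
    have h4 : 2 ^ J = 2 ^ (J - 1) * 2 := by
      rw [← pow_succ]
      congr 1
      omega
    rw [h4]
    push_cast
    rw [pow_mul]
  rw [h3]
  exact pow_le_pow_left₀ (Nat.cast_nonneg _) h2.le 2

/-- the estimate for one length -/
lemma one_len {η θ M R L NPn NZn Cst V n : ℝ} {ro : ℝ} (hη : 0 < η) (hη1 : η ≤ 1) (hθ : 0 < θ) (hn : 0 < n) (hV : 0 < V)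
    (hR : θ ≤ R) (hM : |M - R| ≤ η / 32 * R) (h1 : |L * NPn - NZn| ≤ η * θ / 32 * n)
    (h2 : NZn = ro * V⁻¹) (h3 : |ro - n * (R * V)| ≤ η / 64 * (n * (R * V)) + Cst)
    (h4 : Cst / V ≤ η / 64 * (θ * n)) : |L * NPn - M * n| ≤ η / 4 * (M * n) ∧ R ≤ 2 * M := by
  have hR0 : 0 < R := lt_of_lt_of_le hθ hR
  have s4 := abs_le.1 hM
  have hMR : R ≤ 2 * M := by nlinarith
  refine ⟨?_, hMR⟩
  have f3 : |NZn - R * n| ≤ η / 32 * (R * n) := by
    rw [h2]
    have h7 : ro * V⁻¹ - R * n = (ro - n * (R * V)) * V⁻¹ := by field_simp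
    rw [h7, abs_mul, abs_of_pos (inv_pos.2 hV), ← div_eq_mul_inv]
    calc |ro - n * (R * V)| / V ≤ (η / 64 * (n * (R * V)) + Cst) / V := div_le_div_of_nonneg_right h3 hV.le
      _ = η / 64 * (R * n) + Cst / V := by field_simp
      _ ≤ η / 64 * (R * n) + η / 64 * (R * n) := by
          refine add_le_add le_rfl (h4.trans ?_)
          have : θ * n ≤ R * n := mul_le_mul_of_nonneg_right hR hn.le
          exact mul_le_mul_of_nonneg_left this (by positivity)
      _ = _ := by ring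
  have h7 : |R * n - M * n| ≤ η / 32 * (R * n) := by
    rw [← sub_mul, abs_mul, abs_of_pos hn, abs_sub_comm]
    calc |M - R| * n ≤ η / 32 * R * n := mul_le_mul_of_nonneg_right hM hn.le
      _ = _ := by ring
  have h8 : η * θ / 32 * n ≤ η / 32 * (R * n) := by
    have : θ * n ≤ R * n := mul_le_mul_of_nonneg_right hR hn.le
    have := mul_le_mul_of_nonneg_left this (show 0 ≤ η / 32 by positivity)
    linarith
  have h9 : |L * NPn - M * n| ≤ 3 * (η / 32 * (R * n)) := by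
    calc |L * NPn - M * n| ≤ |L * NPn - NZn| + |NZn - M * n| := abs_sub_le _ _ _
      _ ≤ |L * NPn - NZn| + (|NZn - R * n| + |R * n - M * n|) := add_le_add le_rfl (abs_sub_le _ _ _)
      _ ≤ η / 32 * (R * n) + (η / 32 * (R * n) + η / 32 * (R * n)) := add_le_add (h1.trans h8) (add_le_add f3 h7)
      _ = _ := by ring
  refine h9.trans ?_
  have h10 : R * n ≤ 2 * (M * n) := by nlinarith
  have h11 : 0 ≤ R * n := by positivity
  nlinarith

/-- the interpolation -/
lemma interp {η κ M L y n n' P Pn Pn' : ℝ} (hη : 0 < η) (hη1 : η ≤ 1) (hκ : κ = η / 32) (hM : 0 < M) (hL : 0 < L) (hy : 1 ≤ κ * y)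
    (h1 : |L * Pn - M * n| ≤ η / 4 * (M * n)) (h2 : |L * Pn' - M * n'| ≤ η / 4 * (M * n')) (h3 : Pn ≤ P) (h4 : P ≤ Pn')
    (h5 : y ≤ n') (h6 : n ≤ y) (h7 : n' ≤ (1 + κ) * (n + 1)) :
    |P - M * (y / L)| ≤ η * (M * (y / L)) := by
  have hκ0 : 0 < κ := by rw [hκ]; positivity
  have hκ1 : κ ≤ 1 / 32 := by rw [hκ]; linarith
  have hy0 : 0 < y := by
    by_contra hcon
    rw [not_lt] at hcon
    nlinarith
  have e1 : M * (y / L) = (M * y) / L := by ring
  have a1 := (abs_le.1 h1).1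
  have a2 := (abs_le.1 h2).2
  have hMy : 0 < M * y := by positivity
  -- lower
  have b1 : (1 - η) * (M * y) ≤ L * P := by
    have c1 : (1 - η / 4) * (M * n) ≤ L * P := by
      have : L * Pn ≤ L * P := mul_le_mul_of_nonneg_left h3 hL.le
      linarith
    have c2 : y ≤ (1 + 3 * κ) * n := by nlinarith
    have c3 : M * y ≤ (1 + 3 * κ) * (M * n) := by nlinarith
    have c4 : 0 < n := by
      by_contra hcon
      rw [not_lt] at hcon
      nlinarith
    have c5 : 0 < M * n := by positivity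
    have c6 : (1 - η) * (1 + 3 * κ) ≤ 1 - η / 4 := by
      rw [hκ]
      nlinarith
    calc (1 - η) * (M * y) ≤ (1 - η) * ((1 + 3 * κ) * (M * n)) := mul_le_mul_of_nonneg_left c3 (by linarith)
      _ = ((1 - η) * (1 + 3 * κ)) * (M * n) := by ring
      _ ≤ (1 - η / 4) * (M * n) := mul_le_mul_of_nonneg_right c6 c5.le
      _ ≤ L * P := c1
  have b2 : L * P ≤ (1 + η) * (M * y) := by
    have c1 : L * P ≤ (1 + η / 4) * (M * n') := by
      have : L * P ≤ L * Pn' := mul_le_mul_of_nonneg_left h4 hL.le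
      linarith
    have c2 : n' ≤ (1 + 3 * κ) * y := by nlinarith
    have c3 : M * n' ≤ (1 + 3 * κ) * (M * y) := by nlinarith
    have c6 : (1 + η / 4) * (1 + 3 * κ) ≤ 1 + η := by
      rw [hκ]
      nlinarith
    calc L * P ≤ (1 + η / 4) * (M * n') := c1
      _ ≤ (1 + η / 4) * ((1 + 3 * κ) * (M * y)) := mul_le_mul_of_nonneg_left c3 (by linarith)
      _ = ((1 + η / 4) * (1 + 3 * κ)) * (M * y) := by ring
      _ ≤ (1 + η) * (M * y) := mul_le_mul_of_nonneg_right c6 hMy.le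
  rw [e1, abs_le]
  constructor
  · have : (1 - η) * (M * y) / L ≤ P := by
      rw [div_le_iff₀ hL, mul_comm P]
      exact b1
    have e2 : (1 - η) * (M * y) / L = M * y / L - η * (M * y / L) := by ring
    linarith
  · have : P ≤ (1 + η) * (M * y) / L := by
      rw [le_div_iff₀ hL, mul_comm P]
      exact b2
    have e2 : (1 + η) * (M * y) / L = M * y / L + η * (M * y / L) := by ring
    linarith

end Pool.Agent.V8H21.QB
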